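import Pool.Agent.H70.RC.Samp

/-! RC/A (helper825): the gain from the variance of the codegrees. -/

set_option autoImplicit false
set_option linter.unusedSectionVars false
open Finset

namespace Pool.Agent.H70.RC.A

open Pool.Agent.H70.RC

section gen

variable {V : Type} [Fintype V] [Nonempty V]

/-- the kernel of the antisymmetrized sum -/
def bb (q : V → V → ℝ) (x y : V × V) : ℝ := q x.1 y.1 + q x.1 y.2 - q x.2 y.1 - q x.2 y.2

theorem bb_flip (q : V → V → ℝ) {k : ℕ} (ε : Fin k → Bool) (γ : Fin k → V × V) (i j : Fin k) :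
    bb q (flipBy ε γ i) (flipBy ε γ j) = sg (ε i) * bb q (γ i) (γ j) := by
  unfold flipBy sg bb
  cases ε i <;> cases ε j <;> simp <;> ring

theorem bb_self (q : V → V → ℝ) (hs : ∀ a b, q a b = q b a) (hd : ∀ a, q a a = 0) (x : V × V) :
    bb q x x = 0 := by
  unfold bb
  rw [hd, hd, hs x.1 x.2]
  ring

theorem abs_bb_le (q : V → V → ℝ) (hb : ∀ a b, |q a b| ≤ 1) (x y : V × V) : |bb q x y| ≤ 4 := by
  unfold bb
  have h1 := abs_le.1 (hb x.1 y.1)
  have h2 := abs_le.1 (hb x.1 y.2)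
  have h3 := abs_le.1 (hb x.2 y.1)
  have h4 := abs_le.1 (hb x.2 y.2)
  exact abs_le.2 ⟨by linarith [h1.1, h2.1, h3.2, h4.2], by linarith [h1.2, h2.2, h3.1, h4.1]⟩

/-- the double sum of `bb` -/
theorem sum_bb (q : V → V → ℝ) (hs : ∀ a b, q a b = q b a) {k : ℕ} (γ : Fin k → V × V) :
    ∑ i, ∑ j, bb q (γ i) (γ j) =
      (∑ i, ∑ j, q (γ i).1 (γ j).1) - ∑ i, ∑ j, q (γ i).2 (γ j).2 := by
  have h1 : ∑ i, ∑ j, q (γ i).1 (γ j).2 = ∑ i, ∑ j, q (γ i).2 (γ j).1 := by
    rw [sum_comm]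
    exact sum_congr rfl fun j _ => sum_congr rfl fun i _ => hs _ _
  unfold bb
  simp only [sum_sub_distrib, sum_add_distrib]
  rw [h1]
  ring

theorem av_var (f : V → ℝ) :
    (av fun x => av fun y => (f x - f y) ^ 2) = 2 * (av fun x => f x ^ 2) - 2 * av f ^ 2 := by
  have h : ∀ x y, (f x - f y) ^ 2 = f x ^ 2 - 2 * (f x * f y) + f y ^ 2 := fun x y => by ring
  simp only [h, av_add, av_sub, av_mul_left, av_const, av_mul_right]
  ring

/-- lower bound for the second moment of one coefficient -/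
theorem sec (q : V → V → ℝ) (hs : ∀ a b, q a b = q b a) (hd : ∀ a, q a a = 0) {k : ℕ} (i : Fin k) :
    4 * ((k : ℝ) - 1) ^ 2 * (av fun x : V × V => ((av fun b => q x.1 b) - av fun b => q x.2 b) ^ 2) ≤
      av fun γ : Fin k → V × V => (∑ j, bb q (γ i) (γ j)) ^ 2 := by
  obtain ⟨δ, hδ⟩ : ∃ δ : V × V → ℝ, δ = fun x => (av fun b => q x.1 b) - av fun b => q x.2 b := ⟨_, rfl⟩
  obtain ⟨E, hE⟩ : ∃ E, E = av fun x : V × V => δ x ^ 2 := ⟨_, rfl⟩
  have e0 : (av fun x : V × V => ((av fun b => q x.1 b) - av fun b => q x.2 b) ^ 2) = E := by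
    rw [hE, hδ]
  rw [e0]
  obtain ⟨s, hs'⟩ : ∃ s : V × V → ℝ, s = fun x => 2 * ((k : ℝ) - 1) * δ x := ⟨_, rfl⟩
  have h1 : (av fun γ : Fin k → V × V => s (γ i) ^ 2) = 4 * ((k : ℝ) - 1) ^ 2 * E := by
    rw [av_one i (fun x => s x ^ 2), hE, hs', ← av_mul_left]
    exact av_congr fun x => by ring
  have h2 : ∀ x : V × V, (av fun y : V × V => bb q x y) = 2 * δ x := by
    intro x
    unfold bb
    rw [av_sub, av_sub, av_add, av_fst (fun b => q x.1 b), av_snd (fun b => q x.1 b),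
      av_fst (fun b => q x.2 b), av_snd (fun b => q x.2 b), hδ]
    ring
  have h3 : ∀ j : Fin k, (av fun γ : Fin k → V × V => bb q (γ i) (γ j) * s (γ i)) =
      if i = j then 0 else 4 * ((k : ℝ) - 1) * E := by
    intro j
    by_cases h : i = j
    · rw [if_pos h, ← av_zero (X := Fin k → V × V)]
      refine av_congr fun γ => ?_
      rw [h, bb_self q hs hd, zero_mul]
    · rw [if_neg h, av_two h (fun x y : V × V => bb q x y * s x)]
      simp only [av_mul_right, h2]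
      rw [hE, hs', ← av_mul_left]
      exact av_congr fun x => by ring
  have h4 : (av fun γ : Fin k → V × V => (∑ j, bb q (γ i) (γ j)) * s (γ i)) =
      4 * ((k : ℝ) - 1) ^ 2 * E := by
    simp only [sum_mul]
    rw [av_sum, sum_congr rfl fun j _ => h3 j, sum_ne, Fintype.card_fin]
    ring
  have h5 : (av fun γ : Fin k → V × V =>
      2 * ((∑ j, bb q (γ i) (γ j)) * s (γ i)) - s (γ i) ^ 2) ≤
      av fun γ : Fin k → V × V => (∑ j, bb q (γ i) (γ j)) ^ 2 :=
    av_mono fun γ => by nlinarith [sq_nonneg ((∑ j, bb q (γ i) (γ j)) - s (γ i))]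
  rw [av_sub, av_mul_left, h4, h1] at h5
  linarith

/-- Khinchin -/
theorem khin (hRAD : S_RAD) (q : V → V → ℝ) (hs : ∀ a b, q a b = q b a) (hd : ∀ a, q a a = 0)
    (hb : ∀ a b, |q a b| ≤ 1) (k : ℕ) (τ : ℝ) (hτ : 0 ≤ τ) :
    3 * τ * k * ((k : ℝ) - 1) ^ 2 *
        (av fun x : V × V => ((av fun b => q x.1 b) - av fun b => q x.2 b) ^ 2) -
      192 * τ ^ 3 * (k : ℝ) ^ 6 ≤
      av fun γ : Fin k → V × V => |∑ i, ∑ j, q (γ i).1 (γ j).1| := by
  classical
  obtain ⟨X, hX⟩ : ∃ X : (Fin k → V × V) → ℝ, X = fun γ => ∑ i, ∑ j, q (γ i).1 (γ j).1 := ⟨_, rfl⟩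
  obtain ⟨c, hc⟩ : ∃ c : (Fin k → V × V) → Fin k → ℝ, c = fun γ i => ∑ j, bb q (γ i) (γ j) :=
    ⟨_, rfl⟩
  obtain ⟨E, hE⟩ : ∃ E, E = av fun x : V × V => ((av fun b => q x.1 b) - av fun b => q x.2 b) ^ 2 :=
    ⟨_, rfl⟩
  have e0 : (av fun γ : Fin k → V × V => |∑ i, ∑ j, q (γ i).1 (γ j).1|) = av fun γ => |X γ| := by
    rw [hX]
  rw [e0, ← hE]
  -- the difference
  have h1 : ∀ γ, ∑ i, c γ i = X γ - X (flipBy (fun _ => true) γ) := by
    intro γ
    rw [hc, hX]
    simp only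
    rw [sum_bb q hs]
    unfold flipBy
    simp
  have h2 : (av fun γ => |∑ i, c γ i|) ≤ 2 * av fun γ => |X γ| := by
    have h3 : (av fun γ => |X (flipBy (fun _ => true) γ)|) = av fun γ => |X γ| :=
      (av_flip (fun _ => true) (fun γ => |X γ|)).symm
    calc (av fun γ => |∑ i, c γ i|) ≤ av fun γ => (|X γ| + |X (flipBy (fun _ => true) γ)|) :=
          av_mono fun γ => by rw [h1]; exact abs_sub _ _
      _ = 2 * av fun γ => |X γ| := by rw [av_add, h3]; ring
  -- signs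
  have h4 : ∀ (ε : Fin k → Bool) γ i, c (flipBy ε γ) i = sg (ε i) * c γ i := by
    intro ε γ i
    rw [hc]
    simp only [bb_flip, mul_sum]
  have h5 : (av fun γ => |∑ i, c γ i|) =
      av fun γ => av fun ε : Fin k → Bool => |∑ i, sg (ε i) * c γ i| := by
    have h6 : ∀ ε : Fin k → Bool, (av fun γ => |∑ i, c γ i|) =
        av fun γ => |∑ i, sg (ε i) * c γ i| := by
      intro ε
      rw [av_flip ε]
      simp only [h4]
    calc (av fun γ => |∑ i, c γ i|) = av fun _ : Fin k → Bool => av fun γ => |∑ i, c γ i| :=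
          (av_const _).symm
      _ = av fun ε : Fin k → Bool => av fun γ => |∑ i, sg (ε i) * c γ i| := av_congr h6
      _ = _ := av_comm _
  have h7 : ∀ γ, 3 / 2 * τ * (∑ i, c γ i ^ 2) - 384 * τ ^ 3 * (k : ℝ) ^ 6 ≤
      av fun ε : Fin k → Bool => |∑ i, sg (ε i) * c γ i| := by
    intro γ
    refine le_trans ?_ (hRAD.2.2.1 k (c γ) τ hτ)
    have h8 : ∀ i, c γ i ^ 2 ≤ 16 * (k : ℝ) ^ 2 := by
      intro i
      have h9 : |c γ i| ≤ 4 * k := by
        rw [hc]
        simp only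
        refine (abs_sum_le_sum_abs _ _).trans ?_
        refine (sum_le_sum fun j _ => abs_bb_le q hb (γ i) (γ j)).trans ?_
        rw [sum_const, card_univ, Fintype.card_fin, nsmul_eq_mul]
        linarith
      rw [← sq_abs]
      have h10 := abs_nonneg (c γ i)
      nlinarith
    have h11 : ∑ i, c γ i ^ 2 ≤ 16 * (k : ℝ) ^ 3 := by
      refine (sum_le_sum fun i _ => h8 i).trans ?_
      rw [sum_const, card_univ, Fintype.card_fin, nsmul_eq_mul]
      apply le_of_eq
      ring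
    have h12 : 0 ≤ ∑ i, c γ i ^ 2 := sum_nonneg fun i _ => sq_nonneg _
    have h13 : (∑ i, c γ i ^ 2) ^ 2 ≤ 256 * (k : ℝ) ^ 6 := by
      calc (∑ i, c γ i ^ 2) ^ 2 ≤ (16 * (k : ℝ) ^ 3) ^ 2 := pow_le_pow_left₀ h12 h11 2
        _ = 256 * (k : ℝ) ^ 6 := by ring
    have h14 : 3 / 2 * τ ^ 3 * (∑ i, c γ i ^ 2) ^ 2 ≤ 3 / 2 * τ ^ 3 * (256 * (k : ℝ) ^ 6) :=
      mul_le_mul_of_nonneg_left h13 (by positivity)
    linarith
  have h15 : 3 / 2 * τ * (∑ i, av fun γ => c γ i ^ 2) - 384 * τ ^ 3 * (k : ℝ) ^ 6 ≤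
      av fun γ => |∑ i, c γ i| := by
    rw [h5]
    refine le_trans (le_of_eq ?_) (av_mono h7)
    rw [av_sub, av_mul_left, av_const, av_sum]
  have h16 : (k : ℝ) * (4 * ((k : ℝ) - 1) ^ 2 * E) ≤ ∑ i, av fun γ => c γ i ^ 2 := by
    have h17 : ∑ _i : Fin k, (4 * ((k : ℝ) - 1) ^ 2 * E) = (k : ℝ) * (4 * ((k : ℝ) - 1) ^ 2 * E) := by
      rw [sum_const, card_univ, Fintype.card_fin, nsmul_eq_mul]
    rw [← h17]
    refine sum_le_sum fun i _ => ?_
    rw [hE, hc]
    exact sec q hs hd i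
  have h18 : 3 / 2 * τ * ((k : ℝ) * (4 * ((k : ℝ) - 1) ^ 2 * E)) ≤
      3 / 2 * τ * (∑ i, av fun γ => c γ i ^ 2) := mul_le_mul_of_nonneg_left h16 (by positivity)
  linarith

end gen

section main

variable {V : Type} [Fintype V] [Nonempty V] {χ : V → V → V → ℝ}

theorem cod_symm (hχ : Ker χ) (x y : V) : cod χ x y = cod χ y x :=
  av_congr fun z => hχ.s1 x y z

theorem cod_eq (hχ : Ker χ) (x y : V) : (av fun b => χ x b y) = cod χ x y :=
  av_congr fun z => hχ.s2 x z y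

/-- the mean square of the double difference of the codegrees -/
theorem quad (hχ : Ker χ) :
    (av fun v => av fun w => av fun x : V × V =>
      ((av fun b => (χ x.1 b v - χ x.1 b w)) - av fun b => (χ x.2 b v - χ x.2 b w)) ^ 2) =
      4 * (varc χ - 2 * vard χ) := by
  have h1 : ∀ (v w : V) (x : V × V),
      ((av fun b => (χ x.1 b v - χ x.1 b w)) - av fun b => (χ x.2 b v - χ x.2 b w)) ^ 2 =
      ((cod χ x.1 v - cod χ x.2 v) - (cod χ x.1 w - cod χ x.2 w)) ^ 2 := by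
    intro v w x
    rw [av_sub, av_sub, cod_eq hχ, cod_eq hχ, cod_eq hχ, cod_eq hχ]
    ring
  simp only [h1]
  have h2 : (av fun v => av fun w => av fun x : V × V =>
      ((cod χ x.1 v - cod χ x.2 v) - (cod χ x.1 w - cod χ x.2 w)) ^ 2) =
      av fun x : V × V => av fun v => av fun w =>
        ((cod χ x.1 v - cod χ x.2 v) - (cod χ x.1 w - cod χ x.2 w)) ^ 2 := by
    have h3 : ∀ v, (av fun w => av fun x : V × V =>
        ((cod χ x.1 v - cod χ x.2 v) - (cod χ x.1 w - cod χ x.2 w)) ^ 2) =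
        av fun x : V × V => av fun w =>
          ((cod χ x.1 v - cod χ x.2 v) - (cod χ x.1 w - cod χ x.2 w)) ^ 2 := fun v => av_comm _
    simp only [h3]
    exact av_comm _
  rw [h2]
  have h4 : ∀ x : V × V, (av fun v => av fun w =>
      ((cod χ x.1 v - cod χ x.2 v) - (cod χ x.1 w - cod χ x.2 w)) ^ 2) =
      2 * (av fun v => (cod χ x.1 v - cod χ x.2 v) ^ 2) - 2 * (deg χ x.1 - deg χ x.2) ^ 2 := by
    intro x
    rw [av_var (fun v => cod χ x.1 v - cod χ x.2 v), av_sub]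
    rfl
  simp only [h4]
  rw [av_sub, av_mul_left, av_mul_left]
  rw [av_prod (fun a b => av fun v => (cod χ a v - cod χ b v) ^ 2),
    av_prod (fun a b => (deg χ a - deg χ b) ^ 2), av_var]
  have h5 : (av fun a => av fun b => av fun v => (cod χ a v - cod χ b v) ^ 2) =
      av fun v => av fun a => av fun b => (cod χ a v - cod χ b v) ^ 2 := by
    have h6 : ∀ a, (av fun b => av fun v => (cod χ a v - cod χ b v) ^ 2) =
        av fun v => av fun b => (cod χ a v - cod χ b v) ^ 2 := fun a => av_comm _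
    simp only [h6]
    exact av_comm _
  rw [h5]
  have h7 : ∀ v, (av fun a => av fun b => (cod χ a v - cod χ b v) ^ 2) =
      2 * (av fun a => cod χ v a ^ 2) - 2 * deg χ v ^ 2 := by
    intro v
    rw [av_var (fun a => cod χ a v)]
    have h8 : ∀ a, cod χ a v = cod χ v a := fun a => cod_symm hχ a v
    simp only [h8]
    rfl
  simp only [h7]
  rw [av_sub, av_mul_left, av_mul_left]
  have hp : av (fun x => deg χ x) = dens χ := rfl
  have hp2 : (av fun x => av fun y => cod χ x y) = dens χ := rfl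
  have h9 : varc χ = (av fun v => av fun a => cod χ v a ^ 2) - dens χ ^ 2 := by
    unfold varc
    have : ∀ x y, (cod χ x y - dens χ) ^ 2 =
        cod χ x y ^ 2 - 2 * dens χ * cod χ x y + dens χ ^ 2 := fun x y => by ring
    simp only [this, av_add, av_sub, av_mul_left, av_const]
    rw [hp2]
    ring
  have h10 : vard χ = (av fun v => deg χ v ^ 2) - dens χ ^ 2 := by
    unfold vard
    have : ∀ x, (deg χ x - dens χ) ^ 2 =
        deg χ x ^ 2 - 2 * dens χ * deg χ x + dens χ ^ 2 := fun x => by ring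
    simp only [this, av_add, av_sub, av_mul_left, av_const]
    rw [hp]
    ring
  have hp3 : av (deg χ) = dens χ := rfl
  rw [h9, h10, hp3]
  ring

theorem dens_nonneg (hχ : Ker χ) : 0 ≤ dens χ :=
  av_nonneg fun _ => av_nonneg fun _ => av_nonneg fun _ => hχ.nonneg _ _ _

theorem dens_le_one (hχ : Ker χ) : dens χ ≤ 1 :=
  av_le_of_le fun _ => av_le_of_le fun _ => av_le_of_le fun _ => hχ.le_one _ _ _

/-- the random blow-up with all the remaining indices at one vertex -/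
theorem point (hMD : S_MD) (hχ : Ker χ) (k m : ℕ) (M : ℝ) (hB : Bd χ (k + m) M)
    (γ : Fin k → V × V) (v : V) :
    (∑ x, ∑ y, ∑ z, χ (γ x).1 (γ y).1 (γ z).1) + 3 * m * (∑ x, ∑ y, χ (γ x).1 (γ y).1 v) ≤ M := by
  classical
  have hc : (Fintype.card V : ℝ) ≠ 0 := by exact_mod_cast Fintype.card_ne_zero
  obtain ⟨ρ, hρ⟩ : ∃ ρ : V → ℝ, ρ = fun u => if u = v then (Fintype.card V : ℝ) else 0 := ⟨_, rfl⟩
  have h0 : ∀ f : V → ℝ, (av fun u => ρ u * f u) = f v := by
    intro f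
    unfold av
    rw [hρ]
    simp only [ite_mul, zero_mul, sum_ite_eq', mem_univ, if_true]
    field_simp
  have h1 : ∀ u, 0 ≤ ρ u := by
    intro u
    rw [hρ]
    simp only
    split_ifs
    · exact Nat.cast_nonneg _
    · exact le_rfl
  have h2 : av ρ = 1 := by
    have := h0 fun _ => 1
    simpa using this
  have h3 := hMD V (Fin k) χ hχ m M (by rw [Fintype.card_fin]; exact hB) (fun i => (γ i).1) ρ h1 h2
  have h4 : ∀ x, (av fun v' => av fun w => ρ v' * ρ w * χ (γ x).1 v' w) = 0 := by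
    intro x
    have : ∀ v' w, ρ v' * ρ w * χ (γ x).1 v' w = ρ v' * (ρ w * χ (γ x).1 v' w) := fun _ _ => by ring
    simp only [this, av_mul_left]
    rw [h0 (fun v' => av fun w => ρ w * χ (γ x).1 v' w), h0 (fun w => χ (γ x).1 v w)]
    exact hχ.dg2 _ _
  have h5 : (av fun u => av fun v' => av fun w => ρ u * ρ v' * ρ w * χ u v' w) = 0 := by
    have : ∀ u v' w, ρ u * ρ v' * ρ w * χ u v' w = ρ u * (ρ v' * (ρ w * χ u v' w)) :=
      fun _ _ _ => by ring
    simp only [this, av_mul_left]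
    rw [h0 (fun u => av fun v' => ρ v' * av fun w => ρ w * χ u v' w),
      h0 (fun v' => av fun w => ρ w * χ v v' w), h0 (fun w => χ v v w)]
    exact hχ.dg _ _
  have h6 : ∀ x y, (av fun u => ρ u * χ (γ x).1 (γ y).1 u) = χ (γ x).1 (γ y).1 v := fun x y => h0 _
  simp only [h4, h5, h6, sum_const_zero, mul_zero, add_zero] at h3
  exact h3

theorem sA (hRAD : S_RAD) (hMD : S_MD) : S_A := by
  intro V _ _ χ hχ k m M hB τ hτ
  obtain ⟨T, hT⟩ : ∃ T : (Fin k → V × V) → ℝ,
    T = fun γ => ∑ x, ∑ y, ∑ z, χ (γ x).1 (γ y).1 (γ z).1 := ⟨_, rfl⟩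
  obtain ⟨G, hG⟩ : ∃ G : (Fin k → V × V) → V → ℝ,
    G = fun γ v => ∑ x, ∑ y, χ (γ x).1 (γ y).1 v := ⟨_, rfl⟩
  have h1 : ∀ γ v, T γ + 3 * m * G γ v ≤ M := by
    intro γ v
    rw [hT, hG]
    exact point hMD hχ k m M hB γ v
  have h2 : ∀ γ v w, T γ + 3 / 2 * m * (G γ v + G γ w + |G γ v - G γ w|) ≤ M := by
    intro γ v w
    have a1 := h1 γ v
    have a2 := h1 γ w
    rcases abs_cases (G γ v - G γ w) with ⟨h, -⟩ | ⟨h, -⟩ <;> rw [h] <;> linarith
  -- averages
  have h3 : av T = k * (k - 1) * (k - 2) * dens χ := by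
    have := av_sample3 (X := Fin k) hχ
    rw [Fintype.card_fin] at this
    rw [hT]
    exact this
  have h4 : (av fun γ => av fun v => G γ v) = k * (k - 1) * dens χ := by
    have := av_sample2 (X := Fin k) hχ
    rw [Fintype.card_fin] at this
    rw [← this, hG]
    refine av_congr fun γ => ?_
    simp only
    rw [av_sum]
    refine sum_congr rfl fun x _ => ?_
    rw [av_sum]
  obtain ⟨Z, hZ⟩ : ∃ Z, Z = av fun γ => av fun v => av fun w => |G γ v - G γ w| := ⟨_, rfl⟩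
  have h5 : k * (k - 1) * (k - 2) * dens χ + 3 / 2 * m * (k * (k - 1) * dens χ +
      k * (k - 1) * dens χ + Z) ≤ M := by
    have h6 : (av fun γ => av fun v => av fun w =>
        (T γ + 3 / 2 * m * (G γ v + G γ w + |G γ v - G γ w|))) ≤ M :=
      av_le_of_le fun γ => av_le_of_le fun v => av_le_of_le fun w => h2 γ v w
    refine le_trans (le_of_eq ?_) h6
    simp only [av_add, av_mul_left, av_const]
    rw [← h3, ← h4, hZ]
  have h7 : 12 * τ * k * (k - 1) ^ 2 * (varc χ - 2 * vard χ) - 192 * τ ^ 3 * k ^ 6 ≤ Z := by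
    have h8 : Z = av fun v => av fun w => av fun γ => |G γ v - G γ w| := by
      rw [hZ, av_comm]
      exact av_congr fun v => av_comm _
    rw [h8]
    have h9 : ∀ v w : V, 3 * τ * k * ((k : ℝ) - 1) ^ 2 *
        (av fun x : V × V =>
          ((av fun b => (χ x.1 b v - χ x.1 b w)) - av fun b => (χ x.2 b v - χ x.2 b w)) ^ 2) -
        192 * τ ^ 3 * (k : ℝ) ^ 6 ≤ av fun γ => |G γ v - G γ w| := by
      intro v w
      have h10 := khin hRAD (fun a b => χ a b v - χ a b w)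
        (fun a b => by rw [hχ.s1 a b v, hχ.s1 a b w])
        (fun a => by rw [hχ.dg, hχ.dg, sub_zero])
        (fun a b => by
          have b1 := hχ.nonneg a b v
          have b2 := hχ.nonneg a b w
          have b3 := hχ.le_one a b v
          have b4 := hχ.le_one a b w
          exact abs_le.2 ⟨by linarith, by linarith⟩) k τ hτ
      refine h10.trans (le_of_eq (av_congr fun γ => ?_))
      rw [hG]
      simp only [sum_sub_distrib]
    have h11 := av_mono fun v => av_mono fun w => h9 v w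
    refine le_trans (le_of_eq ?_) h11
    simp only [av_sub, av_mul_left, av_const]
    rw [show (av fun v => av fun w => av fun x : V × V =>
      (((av fun b => χ x.1 b v) - av fun b => χ x.1 b w) -
        ((av fun b => χ x.2 b v) - av fun b => χ x.2 b w)) ^ 2) = 4 * (varc χ - 2 * vard χ) by
      rw [← quad hχ]
      simp only [av_sub]]
    ring
  have hp0 := dens_nonneg hχ
  have hp1 := dens_le_one hχ
  have hm : (0 : ℝ) ≤ m := Nat.cast_nonneg _
  have hk : (0 : ℝ) ≤ k := Nat.cast_nonneg _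
  have hm1 : (0 : ℝ) ≤ (m : ℝ) * (m - 1) := by
    rcases Nat.eq_zero_or_pos m with h | h
    · rw [h]; simp
    · have : (1 : ℝ) ≤ m := by exact_mod_cast h
      exact mul_nonneg hm (by linarith)
  have hm2 : (0 : ℝ) ≤ (m : ℝ) * (m - 1) * (m - 2) := by
    rcases Nat.lt_or_ge m 2 with h | h
    · interval_cases m <;> norm_num
    · have : (2 : ℝ) ≤ m := by exact_mod_cast h
      exact mul_nonneg hm1 (by linarith)
  have hm3 : (m : ℝ) * (m - 1) * (m - 2) ≤ (m : ℝ) ^ 3 := by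
    nlinarith [sq_nonneg ((m : ℝ)), mul_nonneg hm hm]
  have h12 : dens χ * (3 * (m * (m - 1)) * k + m * (m - 1) * (m - 2)) ≤ 3 * (m : ℝ) ^ 2 * (k + m) := by
    have a1 : 0 ≤ 3 * ((m : ℝ) * (m - 1)) * k + m * (m - 1) * (m - 2) := by positivity
    have a2 : dens χ * (3 * ((m : ℝ) * (m - 1)) * k + m * (m - 1) * (m - 2)) ≤
        1 * (3 * ((m : ℝ) * (m - 1)) * k + m * (m - 1) * (m - 2)) :=
      mul_le_mul_of_nonneg_right hp1 a1
    have a3 : 0 ≤ (m : ℝ) * k := mul_nonneg hm hk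
    have a4 : 0 ≤ (m : ℝ) ^ 3 := by positivity
    nlinarith
  have h13 : 3 / 2 * (m : ℝ) * (12 * τ * k * (k - 1) ^ 2 * (varc χ - 2 * vard χ) - 192 * τ ^ 3 * k ^ 6) ≤
      3 / 2 * m * Z := mul_le_mul_of_nonneg_left h7 (by positivity)
  linarith

end main

end Pool.Agent.H70.RC.A
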