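import Pool.Agent.H70.RC.B2

/-! QL: lower bound for the mean square of a triple difference. -/

set_option autoImplicit false
set_option linter.unusedSectionVars false
open Finset

namespace Pool.Agent.H70.RC.QL

open Pool.Agent.H70.RC

section

variable {V : Type} [Fintype V] [Nonempty V]

/-- reordering of the averages -/
theorem reord (G : V → V → V → V → V → V → ℝ) :
    (av fun p : V × V => av fun q : V × V => av fun v => av fun w => G p.1 p.2 q.1 q.2 v w)
      = av fun a => av fun b => av fun v => av fun a' => av fun b' => av fun w => G a a' b b' v w := by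
  have e1 : (av fun p : V × V => av fun q : V × V => av fun v => av fun w => G p.1 p.2 q.1 q.2 v w)
      = av fun a => av fun a' => av fun b => av fun b' => av fun v => av fun w => G a a' b b' v w := by
    rw [av_prod (fun a a' => av fun q : V × V => av fun v => av fun w => G a a' q.1 q.2 v w)]
    refine av_congr fun a => av_congr fun a' => ?_
    exact av_prod (fun b b' => av fun v => av fun w => G a a' b b' v w)
  rw [e1]
  refine av_congr fun a => ?_
  rw [av_comm (fun a' b => av fun b' => av fun v => av fun w => G a a' b b' v w)]
  refine av_congr fun b => ?_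
  calc (av fun a' => av fun b' => av fun v => av fun w => G a a' b b' v w)
      = av fun a' => av fun v => av fun b' => av fun w => G a a' b b' v w :=
        av_congr fun a' => av_comm (fun b' v => av fun w => G a a' b b' v w)
    _ = av fun v => av fun a' => av fun b' => av fun w => G a a' b b' v w :=
        av_comm (fun a' v => av fun b' => av fun w => G a a' b b' v w)

variable {χ : V → V → V → ℝ}

theorem avA (hχ : Ker χ) (b v : V) : (av fun a => χ a b v) = cod χ b v :=
  av_congr fun a => by rw [hχ.s1 a b v, hχ.s2 b a v]

theorem avB (hχ : Ker χ) (a v : V) : (av fun b => χ a b v) = cod χ a v :=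
  av_congr fun b => hχ.s2 a b v

theorem avC (a b : V) : (av fun v => χ a b v) = cod χ a b := rfl

theorem avAB (hχ : Ker χ) (v : V) : (av fun a => av fun b => χ a b v) = deg χ v :=
  av_congr fun a => av_congr fun b => by rw [hχ.s2 a b v, hχ.s1 a v b]

theorem avAC (hχ : Ker χ) (b : V) : (av fun a => av fun v => χ a b v) = deg χ b :=
  av_congr fun a => av_congr fun v => hχ.s1 a b v

theorem avBC (a : V) : (av fun b => av fun v => χ a b v) = deg χ a := rfl

theorem av_deg : (av fun a => deg χ a) = dens χ := rfl

theorem av_cod : (av fun a => av fun b => cod χ a b) = dens χ := rfl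

theorem P1 (hχ : Ker χ) : (av fun a => av fun b => av fun v => χ a b v * χ a b v) = dens χ :=
  av_congr fun a => av_congr fun b => av_congr fun v => by
    rcases hχ.zo a b v with h | h <;> rw [h] <;> norm_num

theorem P2 (hχ : Ker χ) : (av fun a => av fun b => av fun v => cod χ b v * χ a b v)
    = av fun x => av fun y => cod χ x y ^ 2 := by
  rw [av_comm (fun a b => av fun v => cod χ b v * χ a b v)]
  refine av_congr fun b => ?_
  rw [av_comm (fun a v => cod χ b v * χ a b v)]
  refine av_congr fun v => ?_
  rw [av_mul_left, avA hχ]
  ring

theorem P3 (hχ : Ker χ) : (av fun a => av fun b => av fun v => cod χ a v * χ a b v)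
    = av fun x => av fun y => cod χ x y ^ 2 := by
  refine av_congr fun a => ?_
  rw [av_comm (fun b v => cod χ a v * χ a b v)]
  refine av_congr fun v => ?_
  rw [av_mul_left, avB hχ]
  ring

theorem P4 : (av fun a => av fun b => av fun v => cod χ a b * χ a b v)
    = av fun x => av fun y => cod χ x y ^ 2 := by
  refine av_congr fun a => av_congr fun b => ?_
  rw [av_mul_left, avC]
  ring

theorem P5 (hχ : Ker χ) : (av fun a => av fun b => av fun v => deg χ v * χ a b v)
    = av fun x => deg χ x ^ 2 := by
  calc (av fun a => av fun b => av fun v => deg χ v * χ a b v)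
      = av fun a => av fun v => av fun b => deg χ v * χ a b v :=
        av_congr fun a => av_comm (fun b v => deg χ v * χ a b v)
    _ = av fun v => av fun a => av fun b => deg χ v * χ a b v :=
        av_comm (fun a v => av fun b => deg χ v * χ a b v)
    _ = av fun x => deg χ x ^ 2 := by
        refine av_congr fun v => ?_
        simp only [av_mul_left]
        rw [avAB hχ]
        ring

theorem P6 (hχ : Ker χ) : (av fun a => av fun b => av fun v => deg χ b * χ a b v)
    = av fun x => deg χ x ^ 2 := by
  rw [av_comm (fun a b => av fun v => deg χ b * χ a b v)]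
  refine av_congr fun b => ?_
  simp only [av_mul_left]
  rw [avAC hχ]
  ring

theorem P7 : (av fun a => av fun b => av fun v => deg χ a * χ a b v)
    = av fun x => deg χ x ^ 2 := by
  refine av_congr fun a => ?_
  simp only [av_mul_left]
  rw [avBC]
  ring

/-- the inner average of the triple difference -/
noncomputable def FF (χ : V → V → V → ℝ) (a b v : V) : ℝ :=
  χ a b v - cod χ b v - cod χ a v - cod χ a b + deg χ v + deg χ b + deg χ a - dens χ

theorem inner (hχ : Ker χ) (a b v : V) :
    (av fun a' => av fun b' => av fun w =>
      ((χ a b v - χ a' b v - χ a b' v + χ a' b' v) - (χ a b w - χ a' b w - χ a b' w + χ a' b' w)) *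
        (χ a b v - dens χ)) = FF χ a b v * (χ a b v - dens χ) := by
  simp only [av_mul_right]
  congr 1
  simp only [av_add, av_sub, av_const]
  rw [avA hχ b v, avB hχ a v, avAB hχ v, avC a b, avAC hχ b, avBC a]
  have : (av fun a' => av fun b' => av fun w => χ a' b' w) = dens χ := rfl
  rw [this]
  unfold FF
  ring

theorem avF : (av fun a => av fun b => av fun v => FF χ a b v) = 0 := by
  unfold FF
  simp only [av_add, av_sub, av_const]
  have e1 : (av fun a => av fun b => av fun v => χ a b v) = dens χ := rfl
  have e2 : (av fun a => av fun b => cod χ a b) = dens χ := rfl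
  have e3 : (av fun a => deg χ a) = dens χ := rfl
  rw [e1, e2, e3]
  ring

theorem avFχ (hχ : Ker χ) : (av fun a => av fun b => av fun v => FF χ a b v * χ a b v)
    = dens χ - 3 * (av fun x => av fun y => cod χ x y ^ 2) + 3 * (av fun x => deg χ x ^ 2)
      - dens χ * dens χ := by
  have e : ∀ a b v, FF χ a b v * χ a b v = χ a b v * χ a b v - cod χ b v * χ a b v
      - cod χ a v * χ a b v - cod χ a b * χ a b v + deg χ v * χ a b v + deg χ b * χ a b v
      + deg χ a * χ a b v - dens χ * χ a b v := by
    intro a b v; unfold FF; ring
  have e1 : (av fun a => av fun b => av fun v => dens χ * χ a b v) = dens χ * dens χ := by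
    simp only [av_mul_left]; rfl
  have e2 : (av fun a => av fun b => av fun v => FF χ a b v * χ a b v)
      = (av fun a => av fun b => av fun v => χ a b v * χ a b v)
        - (av fun a => av fun b => av fun v => cod χ b v * χ a b v)
        - (av fun a => av fun b => av fun v => cod χ a v * χ a b v)
        - (av fun a => av fun b => av fun v => cod χ a b * χ a b v)
        + (av fun a => av fun b => av fun v => deg χ v * χ a b v)
        + (av fun a => av fun b => av fun v => deg χ b * χ a b v)
        + (av fun a => av fun b => av fun v => deg χ a * χ a b v)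
        - (av fun a => av fun b => av fun v => dens χ * χ a b v) := by
    rw [av_congr fun a => av_congr fun b => av_congr fun v => e a b v]
    simp only [av_add, av_sub]
  rw [e2, P1 hχ, P2 hχ, P3 hχ, P4, P5 hχ, P6 hχ, P7, e1]
  ring

theorem codsq : (av fun x => av fun y => cod χ x y ^ 2) = varc χ + dens χ ^ 2 := by
  have e : varc χ = (av fun x => av fun y => cod χ x y ^ 2) - 2 * dens χ * dens χ + dens χ ^ 2 := by
    unfold varc
    have h : ∀ x y, (cod χ x y - dens χ) ^ 2
        = cod χ x y ^ 2 - 2 * dens χ * cod χ x y + dens χ ^ 2 := fun x y => by ring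
    rw [av_congr fun x => av_congr fun y => h x y]
    simp only [av_add, av_sub, av_const, av_mul_left]
    have e2 : (av fun a => av fun b => cod χ a b) = dens χ := rfl
    rw [e2]
  rw [e]
  ring

theorem sqterm (hχ : Ker χ) : (av fun a => av fun b => av fun v => (χ a b v - dens χ) ^ 2)
    = dens χ * (1 - dens χ) := by
  have h : ∀ a b v, (χ a b v - dens χ) ^ 2
      = χ a b v * χ a b v - 2 * dens χ * χ a b v + dens χ ^ 2 := fun a b v => by ring
  rw [av_congr fun a => av_congr fun b => av_congr fun v => h a b v]
  simp only [av_add, av_sub, av_const, av_mul_left]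
  rw [P1 hχ]
  have e2 : (av fun a => av fun b => av fun v => χ a b v) = dens χ := rfl
  rw [e2]
  ring

theorem ql (hχ : Ker χ) :
    dens χ * (1 - dens χ) - 6 * varc χ ≤
      av fun p : V × V => av fun q : V × V => av fun v => av fun w =>
        (dd χ p q v - dd χ p q w) ^ 2 := by
  have h1 : (av fun p : V × V => av fun q : V × V => av fun v => av fun w =>
      (2 * ((dd χ p q v - dd χ p q w) * (χ p.1 q.1 v - dens χ)) - (χ p.1 q.1 v - dens χ) ^ 2)) ≤
      av fun p : V × V => av fun q : V × V => av fun v => av fun w =>
        (dd χ p q v - dd χ p q w) ^ 2 := by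
    refine av_mono fun p => av_mono fun q => av_mono fun v => av_mono fun w => ?_
    nlinarith [sq_nonneg ((dd χ p q v - dd χ p q w) - (χ p.1 q.1 v - dens χ))]
  have h2 : (av fun p : V × V => av fun q : V × V => av fun v => av fun w =>
      (2 * ((dd χ p q v - dd χ p q w) * (χ p.1 q.1 v - dens χ)) - (χ p.1 q.1 v - dens χ) ^ 2))
      = 2 * (av fun p : V × V => av fun q : V × V => av fun v => av fun w =>
        ((dd χ p q v - dd χ p q w) * (χ p.1 q.1 v - dens χ)))
        - (av fun p : V × V => av fun q : V × V => av fun v => av fun _w : V =>
          (χ p.1 q.1 v - dens χ) ^ 2) := by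
    simp only [av_sub, av_mul_left]
  have h3 : (av fun p : V × V => av fun q : V × V => av fun v => av fun w =>
        ((dd χ p q v - dd χ p q w) * (χ p.1 q.1 v - dens χ)))
      = av fun a => av fun b => av fun v => FF χ a b v * (χ a b v - dens χ) := by
    have := reord (V := V) (fun a a' b b' v w =>
      ((χ a b v - χ a' b v - χ a b' v + χ a' b' v) - (χ a b w - χ a' b w - χ a b' w + χ a' b' w)) *
        (χ a b v - dens χ))
    refine Eq.trans this ?_
    exact av_congr fun a => av_congr fun b => av_congr fun v => inner hχ a b v
  have h4 : (av fun p : V × V => av fun q : V × V => av fun v => av fun _w : V =>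
          (χ p.1 q.1 v - dens χ) ^ 2) = dens χ * (1 - dens χ) := by
    have := reord (V := V) (fun a _ b _ v _ => (χ a b v - dens χ) ^ 2)
    refine Eq.trans this ?_
    simp only [av_const]
    exact sqterm hχ
  have h5 : (av fun a => av fun b => av fun v => FF χ a b v * (χ a b v - dens χ))
      = (av fun a => av fun b => av fun v => FF χ a b v * χ a b v)
        - dens χ * (av fun a => av fun b => av fun v => FF χ a b v) := by
    have h : ∀ a b v, FF χ a b v * (χ a b v - dens χ)
        = FF χ a b v * χ a b v - dens χ * FF χ a b v := fun a b v => by ring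
    rw [av_congr fun a => av_congr fun b => av_congr fun v => h a b v]
    simp only [av_sub, av_mul_left]
  have h6 : dens χ ^ 2 ≤ av fun x => deg χ x ^ 2 := by
    have := av_sq_le (fun x => deg χ x)
    rw [av_deg] at this
    exact this
  rw [h2, h3, h4, h5, avF, avFχ hχ, codsq] at h1
  nlinarith

end

end Pool.Agent.H70.RC.QL
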