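import Pool.Agent.H70.RC.B4
import Pool.Agent.H70.RC.QL

/-! Case B: conclusion. -/

set_option autoImplicit false
set_option linter.unusedSectionVars false
open Finset

namespace Pool.Agent.H70.RC

variable {V : Type} [Fintype V] [Nonempty V] {χ : V → V → V → ℝ}

/-- antisymmetric averages of a function -/
noncomputable def ga (θ : ℝ) (f : V → ℝ) (v : V) : ℝ := av fun w => Real.sin (θ * (f v - f w))

theorem abs_ga_le (θ : ℝ) (f : V → ℝ) (v : V) : |ga θ f v| ≤ 1 :=
  (abs_av_le _).trans (av_le_of_le fun _ => Real.abs_sin_le_one _)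

theorem av_ga (θ : ℝ) (f : V → ℝ) : av (ga θ f) = 0 := by
  have h : av (ga θ f) = - av (ga θ f) := by
    unfold ga
    conv_rhs => rw [av_comm, ← av_neg]
    refine av_congr fun v => ?_
    rw [← av_neg]
    refine av_congr fun w => ?_
    rw [← Real.sin_neg]
    congr 1
    ring
  linarith

theorem ga_ga (θ : ℝ) (f : V → ℝ) (c : V → V → ℝ) :
    (av fun v => av fun w => ga θ f v * ga θ f w * c v w)
      = av fun v => av fun w => av fun v' => av fun w' => c v w * SS θ (f v - f v') (f w - f w') := by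
  refine av_congr fun v => av_congr fun w => ?_
  unfold ga SS
  have h : ∀ v', (av fun w' => c v w * (Real.sin (θ * (f v - f v')) * Real.sin (θ * (f w - f w'))))
      = (c v w * av fun w' => Real.sin (θ * (f w - f w'))) * Real.sin (θ * (f v - f v')) := by
    intro v'
    rw [mul_assoc, ← av_mul_right, ← av_mul_left]
    exact av_congr fun w' => by ring
  simp only [h, av_mul_left]
  ring

/-- the quadratic form of the codegrees is small -/
theorem cod_form (g : V → ℝ) (hg : ∀ v, |g v| ≤ 1) (h0 : av g = 0) :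
    |av fun v => av fun w => g v * g w * cod χ v w| ≤ √(varc χ) := by
  have h1 : (av fun v => av fun w => g v * g w * cod χ v w)
      = av fun v => av fun w => g v * g w * (cod χ v w - dens χ) := by
    have h2 : (av fun v => av fun w => g v * g w * (cod χ v w - dens χ))
        = (av fun v => av fun w => g v * g w * cod χ v w) - av fun v => av fun w => g v * g w * dens χ := by
      simp only [← av_sub]
      exact av_congr fun v => av_congr fun w => by ring
    have h3 : (av fun v => av fun w => g v * g w * dens χ) = 0 := by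
      have : ∀ v, (av fun w => g v * g w * dens χ) = 0 := by
        intro v
        rw [av_mul_right, av_mul_left, h0]
        ring
      rw [av_congr this, av_zero]
    rw [h2, h3, sub_zero]
  rw [h1]
  refine Real.le_sqrt_of_sq_le ?_
  rw [sq_abs]
  refine (av_sq_le _).trans (av_mono fun v => (av_sq_le _).trans (av_mono fun w => ?_))
  have h4 := abs_le.1 (hg v)
  have h5 := abs_le.1 (hg w)
  have h6 : (g v) ^ 2 ≤ 1 := by nlinarith
  have h7 : (g w) ^ 2 ≤ 1 := by nlinarith
  have h8 : (g v) ^ 2 * (g w) ^ 2 ≤ 1 := by nlinarith [sq_nonneg (g v), sq_nonneg (g w)]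
  calc (g v * g w * (cod χ v w - dens χ)) ^ 2 = (g v) ^ 2 * (g w) ^ 2 * (cod χ v w - dens χ) ^ 2 := by ring
    _ ≤ 1 * (cod χ v w - dens χ) ^ 2 := mul_le_mul_of_nonneg_right h8 (sq_nonneg _)
    _ = _ := one_mul _

theorem av4_comm {Γ : Type} [Fintype Γ] (F : Γ → V → V → V → V → ℝ) :
    (av fun γ => av fun v => av fun w => av fun v' => av fun w' => F γ v w v' w')
      = av fun v => av fun w => av fun v' => av fun w' => av fun γ => F γ v w v' w' := by
  rw [av_comm]
  refine av_congr fun v => ?_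
  rw [av_comm]
  refine av_congr fun w => ?_
  rw [av_comm]
  refine av_congr fun v' => ?_
  exact av_comm _

/-- the error term of an index of the first family -/
theorem err_inl (hRAD : S_RAD) (hχ : Ker χ) {θ : ℝ} {k : ℕ} (hk : 0 < k) (i : Fin k) :
    |av fun γ : Ix k → V × V => av fun v => av fun w => gg χ θ k γ v * gg χ θ k γ w * χ (γ (Sum.inl i)).1 v w|
      ≤ √(varc χ) + 16 * θ ^ 2 / k := by
  have hk' : (0 : ℝ) < k := by exact_mod_cast hk
  have e1 : (av fun γ : Ix k → V × V => av fun v => av fun w => gg χ θ k γ v * gg χ θ k γ w * χ (γ (Sum.inl i)).1 v w)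
      = av fun v => av fun w => av fun v' => av fun w' => av fun γ : Ix k → V × V =>
        χ (γ (Sum.inl i)).1 v w * SS θ (uu χ k γ v - uu χ k γ v') (uu χ k γ w - uu χ k γ w') := by
    rw [← av4_comm]
    refine av_congr fun γ => ?_
    exact ga_ga θ (uu χ k γ) (fun v w => χ (γ (Sum.inl i)).1 v w)
  have e2 : (av fun γ : Ix k → V × V => av fun v => av fun w =>
        ga θ (ub χ k i γ) v * ga θ (ub χ k i γ) w * cod χ v w)
      = av fun v => av fun w => av fun v' => av fun w' =>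
        cod χ v w * av fun γ : Ix k → V × V => SS θ (ub χ k i γ v - ub χ k i γ v') (ub χ k i γ w - ub χ k i γ w') := by
    have h := av4_comm (fun (γ : Ix k → V × V) v w v' w' =>
      cod χ v w * SS θ (ub χ k i γ v - ub χ k i γ v') (ub χ k i γ w - ub χ k i γ w'))
    simp only [av_mul_left] at h ⊢
    rw [← h]
    refine av_congr fun γ => ?_
    have := ga_ga θ (ub χ k i γ) (fun v w => cod χ v w)
    simp only [av_mul_left] at this
    exact this
  have h1 : |(av fun γ : Ix k → V × V => av fun v => av fun w => gg χ θ k γ v * gg χ θ k γ w * χ (γ (Sum.inl i)).1 v w)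
      - av fun γ : Ix k → V × V => av fun v => av fun w =>
        ga θ (ub χ k i γ) v * ga θ (ub χ k i γ) w * cod χ v w| ≤ 16 * θ ^ 2 / k := by
    rw [e1, e2]
    simp only [← av_sub]
    refine (abs_av_le _).trans (av_le_of_le fun v => (abs_av_le _).trans (av_le_of_le fun w =>
      (abs_av_le _).trans (av_le_of_le fun v' => (abs_av_le _).trans (av_le_of_le fun w' => ?_))))
    refine (fixed hχ i v w v' w').trans ?_
    have g1 := ui_sq hRAD hχ hk i v v'
    have g2 := ui_sq hRAD hχ hk i w w'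
    have g3 : θ ^ 2 / 2 * (16 / k + 16 / k) = 16 * θ ^ 2 / (k : ℝ) := by ring
    rw [← g3]
    exact mul_le_mul_of_nonneg_left (add_le_add g1 g2) (by positivity)
  have h2 : |av fun γ : Ix k → V × V => av fun v => av fun w =>
        ga θ (ub χ k i γ) v * ga θ (ub χ k i γ) w * cod χ v w| ≤ √(varc χ) :=
    (abs_av_le _).trans (av_le_of_le fun γ => cod_form _ (fun v => abs_ga_le _ _ _) (av_ga _ _))
  have h3 := abs_add_le
    ((av fun γ : Ix k → V × V => av fun v => av fun w => gg χ θ k γ v * gg χ θ k γ w * χ (γ (Sum.inl i)).1 v w)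
      - av fun γ : Ix k → V × V => av fun v => av fun w =>
        ga θ (ub χ k i γ) v * ga θ (ub χ k i γ) w * cod χ v w)
    (av fun γ : Ix k → V × V => av fun v => av fun w =>
        ga θ (ub χ k i γ) v * ga θ (ub χ k i γ) w * cod χ v w)
  rw [sub_add_cancel] at h3
  linarith

/-- exchange of the two families -/
def swapEquiv (k : ℕ) : (Ix k → V × V) ≃ (Ix k → V × V) where
  toFun γ := fun x => γ x.swap
  invFun γ := fun x => γ x.swap
  left_inv γ := by funext x; simp
  right_inv γ := by funext x; simp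

theorem uu_swap (hχ : Ker χ) {k : ℕ} (γ : Ix k → V × V) (v : V) : uu χ k (swapEquiv k γ) v = uu χ k γ v := by
  unfold uu
  congr 1
  rw [sum_comm]
  refine sum_congr rfl fun i _ => sum_congr rfl fun j _ => ?_
  show dd χ (γ (Sum.inr j)) (γ (Sum.inl i)) v = _
  exact dd_comm hχ _ _ _

theorem err_inr (hRAD : S_RAD) (hχ : Ker χ) {θ : ℝ} {k : ℕ} (hk : 0 < k) (i : Fin k) :
    |av fun γ : Ix k → V × V => av fun v => av fun w => gg χ θ k γ v * gg χ θ k γ w * χ (γ (Sum.inr i)).1 v w|
      ≤ √(varc χ) + 16 * θ ^ 2 / k := by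
  refine le_trans (le_of_eq ?_) (err_inl hRAD hχ (θ := θ) hk i)
  congr 1
  rw [← av_equiv (swapEquiv k)]
  refine av_congr fun γ => av_congr fun v => av_congr fun w => ?_
  have h : ∀ v, gg χ θ k (swapEquiv k γ) v = gg χ θ k γ v := by
    intro v
    unfold gg
    exact av_congr fun w => by rw [uu_swap hχ, uu_swap hχ]
  rw [h, h]
  rfl

/-- all indices -/
theorem err_sum (hRAD : S_RAD) (hχ : Ker χ) {θ : ℝ} {k : ℕ} (hk : 0 < k) :
    |av fun γ : Ix k → V × V => ∑ x, av fun v => av fun w => gg χ θ k γ v * gg χ θ k γ w * χ (γ x).1 v w|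
      ≤ 2 * (k * √(varc χ) + 16 * θ ^ 2) := by
  have hk' : (k : ℝ) ≠ 0 := by exact_mod_cast hk.ne'
  rw [av_sum]
  refine (abs_sum_le_sum_abs _ _).trans ?_
  rw [Fintype.sum_sum_type]
  have h1 : ∑ i : Fin k, |av fun γ : Ix k → V × V => av fun v => av fun w => gg χ θ k γ v * gg χ θ k γ w * χ (γ (Sum.inl i)).1 v w|
      ≤ ∑ _i : Fin k, (√(varc χ) + 16 * θ ^ 2 / k) := sum_le_sum fun i _ => err_inl hRAD hχ hk i
  have h2 : ∑ i : Fin k, |av fun γ : Ix k → V × V => av fun v => av fun w => gg χ θ k γ v * gg χ θ k γ w * χ (γ (Sum.inr i)).1 v w|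
      ≤ ∑ _i : Fin k, (√(varc χ) + 16 * θ ^ 2 / k) := sum_le_sum fun i _ => err_inr hRAD hχ hk i
  have h3 : ∑ _i : Fin k, (√(varc χ) + 16 * θ ^ 2 / k) = k * √(varc χ) + 16 * θ ^ 2 := by
    rw [sum_const, card_univ, Fintype.card_fin, nsmul_eq_mul]
    field_simp
  rw [h3] at h1 h2
  linarith

theorem dens_nonneg (hχ : Ker χ) : 0 ≤ dens χ :=
  av_nonneg fun _ => av_nonneg fun _ => av_nonneg fun _ => hχ.nonneg _ _ _

theorem sB (hRAD : S_RAD) (hMD : S_MD) : S_B := by
  intro V _ _ χ hχ k m M hk hM θ hθ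
  have h := masterB hMD hχ hM (gg χ θ k) (abs_gg_le θ k) (av_gg θ k) (fun γ v => gg_flipA γ v) (fun γ v => gg_flipB γ v)
  have h1 := main_lower (χ := χ) hRAD hχ hθ hk
  have h2 := (abs_le.1 (err_sum (χ := χ) hRAD hχ (θ := θ) hk)).1
  have h3 : -√(varc χ) ≤ av fun γ : Ix k → V × V => av fun u => av fun v => gg χ θ k γ u * gg χ θ k γ v * cod χ u v :=
    le_av_of_le fun γ => (abs_le.1 (cod_form _ (abs_gg_le θ k γ) (av_gg θ k γ))).1
  have hQ : dens χ * (1 - dens χ) - 6 * varc χ ≤ QQ χ := QL.ql hχ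
  set A := av fun γ : Ix k → V × V => ∑ i, ∑ j, av fun v => gg χ θ k γ v * χ (γ (Sum.inl i)).1 (γ (Sum.inr j)).1 v with hA
  set B := av fun γ : Ix k → V × V => ∑ x, av fun v => av fun w => gg χ θ k γ v * gg χ θ k γ w * χ (γ x).1 v w with hB
  set C := av fun γ : Ix k → V × V => av fun u => av fun v => gg χ θ k γ u * gg χ θ k γ v * cod χ u v with hC
  have hm : (0 : ℝ) ≤ m := Nat.cast_nonneg m
  have hkR : (0 : ℝ) ≤ k := Nat.cast_nonneg k
  have hs := Real.sqrt_nonneg (varc χ)
  have m1 : (0 : ℝ) ≤ m * (m - 1) := by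
    rcases Nat.eq_zero_or_pos m with h0 | h0
    · subst h0; simp
    · have : (1 : ℝ) ≤ m := by exact_mod_cast h0
      exact mul_nonneg hm (by linarith)
  have m2 : (0 : ℝ) ≤ m * (m - 1) * (m - 2) := by
    rcases Nat.lt_or_ge m 3 with h0 | h0
    · interval_cases m <;> norm_num
    · have : (3 : ℝ) ≤ m := by exact_mod_cast h0
      exact mul_nonneg m1 (by linarith)
  have t1 : 3 / 4 * m * k * (θ * (dens χ * (1 - dens χ) - 6 * varc χ) - 4608 * θ ^ 3) ≤ 6 * m * A := by
    have q1 : (k : ℝ) / 8 * (θ * (dens χ * (1 - dens χ) - 6 * varc χ) - 4608 * θ ^ 3) ≤ A := by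
      refine le_trans (mul_le_mul_of_nonneg_left ?_ (by positivity)) h1
      have := mul_le_mul_of_nonneg_left hQ hθ
      linarith
    calc 3 / 4 * m * k * (θ * (dens χ * (1 - dens χ) - 6 * varc χ) - 4608 * θ ^ 3)
        = 6 * m * ((k : ℝ) / 8 * (θ * (dens χ * (1 - dens χ) - 6 * varc χ) - 4608 * θ ^ 3)) := by ring
      _ ≤ _ := mul_le_mul_of_nonneg_left q1 (by positivity)
  have t2 : -(6 * m ^ 2 * (k * √(varc χ) + 16 * θ ^ 2)) ≤ 3 * m * (m - 1) * B := by
    have q0 : 0 ≤ k * √(varc χ) + 16 * θ ^ 2 := by positivity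
    have q1 : 3 * (m * (m - 1)) * (-(2 * (k * √(varc χ) + 16 * θ ^ 2))) ≤ 3 * ((m : ℝ) * (m - 1)) * B :=
      mul_le_mul_of_nonneg_left h2 (by positivity)
    have q2 : (m : ℝ) * (m - 1) ≤ m ^ 2 := by nlinarith
    have q3 : (m : ℝ) * (m - 1) * (k * √(varc χ) + 16 * θ ^ 2) ≤ m ^ 2 * (k * √(varc χ) + 16 * θ ^ 2) :=
      mul_le_mul_of_nonneg_right q2 q0
    nlinarith
  have t3 : -(3 * m ^ 3 * √(varc χ)) ≤ 3 * m * (m - 1) * (m - 2) * C := by
    have q1 : 3 * (m * (m - 1) * (m - 2)) * (-√(varc χ)) ≤ 3 * ((m : ℝ) * (m - 1) * (m - 2)) * C :=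
      mul_le_mul_of_nonneg_left h3 (by positivity)
    have q2 : (m : ℝ) * (m - 1) * (m - 2) ≤ m ^ 3 := by nlinarith [sq_nonneg (m : ℝ)]
    have q3 : (m : ℝ) * (m - 1) * (m - 2) * √(varc χ) ≤ m ^ 3 * √(varc χ) := mul_le_mul_of_nonneg_right q2 hs
    nlinarith
  linarith

end Pool.Agent.H70.RC
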