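import Pool.Agent.H70.RC.Stm

/-! CLS: the theorem for classes of 3-graphs closed under preimages. -/

set_option autoImplicit false
open Finset

namespace Pool.Agent.H70.RC.CLS

open Pool.Agent.H70.RC

/-- indicator of the edges -/
def T {n : ℕ} (H : Finset (Finset (Fin n))) (a b c : Fin n) : ℝ :=
  if ({a, b, c} : Finset (Fin n)) ∈ H then 1 else 0

variable {n : ℕ}

theorem card_three {a b c : Fin n} (h : ({a, b, c} : Finset (Fin n)).card = 3) :
    a ≠ b ∧ a ≠ c ∧ b ≠ c := by
  refine ⟨?_, ?_, ?_⟩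
  · rintro rfl
    have : ({a, a, c} : Finset (Fin n)) = {a, c} := by simp
    rw [this] at h
    have := card_le_two (a := a) (b := c)
    omega
  · rintro rfl
    have : ({a, b, a} : Finset (Fin n)) = {b, a} := by
      ext x; simp only [mem_insert, mem_singleton]; tauto
    rw [this] at h
    have := card_le_two (a := b) (b := a)
    omega
  · rintro rfl
    have : ({a, b, b} : Finset (Fin n)) = {a, b} := by simp
    rw [this] at h
    have := card_le_two (a := a) (b := b)
    omega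

theorem card_three' {a b c : Fin n} (h : a ≠ b ∧ a ≠ c ∧ b ≠ c) :
    ({a, b, c} : Finset (Fin n)).card = 3 := by
  rw [card_insert_of_notMem (by simp [h.1, h.2.1]), card_pair h.2.2]

theorem T_ker {H : Finset (Finset (Fin n))} (hH : ∀ e ∈ H, e.card = 3) : Ker (T H) where
  zo := fun x y z => by
    unfold T
    split_ifs
    · exact Or.inr rfl
    · exact Or.inl rfl
  s1 := fun a b c => by
    unfold T
    rw [show ({a, b, c} : Finset (Fin n)) = {b, a, c} from insert_comm a b {c}]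
  s2 := fun a b c => by
    unfold T
    rw [show ({b, c} : Finset (Fin n)) = {c, b} from pair_comm b c]
  dg := fun x y => by
    unfold T
    rw [if_neg]
    intro h
    exact (card_three (hH _ h)).1 rfl

theorem triple_iff {e : Finset (Fin n)} (he : e.card = 3) (a b c : Fin n) :
    ({a, b, c} : Finset (Fin n)) = e ↔ a ∈ e ∧ b ∈ e.erase a ∧ c ∈ (e.erase a).erase b := by
  constructor
  · intro h
    have h1 := card_three (h.symm ▸ he)
    subst h
    refine ⟨by simp, ?_, ?_⟩
    · rw [mem_erase]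
      exact ⟨h1.1.symm, by simp⟩
    · rw [mem_erase, mem_erase]
      exact ⟨h1.2.2.symm, h1.2.1.symm, by simp⟩
  · rintro ⟨h1, h2, h3⟩
    rw [mem_erase] at h2
    rw [mem_erase, mem_erase] at h3
    refine eq_of_subset_of_card_le ?_ ?_
    · intro x hx
      simp only [mem_insert, mem_singleton] at hx
      rcases hx with rfl | rfl | rfl
      · exact h1
      · exact h2.2
      · exact h3.2.2
    · rw [he, card_three' ⟨h2.1.symm, h3.2.1.symm, h3.1.symm⟩]

theorem sum_triple {e : Finset (Fin n)} (he : e.card = 3) :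
    ∑ a, ∑ b, ∑ c, (if ({a, b, c} : Finset (Fin n)) = e then (1 : ℝ) else 0) = 6 := by
  have h1 : ∀ a b : Fin n, ∑ c, (if ({a, b, c} : Finset (Fin n)) = e then (1 : ℝ) else 0) =
      if b ∈ e.erase a then (if a ∈ e then 1 else 0) else 0 := by
    intro a b
    by_cases ha : a ∈ e
    · by_cases hb : b ∈ e.erase a
      · rw [if_pos hb, if_pos ha]
        have h2 : ∀ c, (if ({a, b, c} : Finset (Fin n)) = e then (1 : ℝ) else 0) =
            if c ∈ (e.erase a).erase b then 1 else 0 := by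
          intro c
          simp only [triple_iff he, ha, hb, true_and]
        simp only [h2]
        rw [Finset.sum_ite_mem, univ_inter, sum_const, card_erase_of_mem hb,
          card_erase_of_mem ha, he]
        norm_num
      · rw [if_neg hb]
        exact sum_eq_zero fun c _ => if_neg fun h => hb ((triple_iff he a b c).1 h).2.1
    · rw [if_neg ha]
      have h2 : ∑ c, (if ({a, b, c} : Finset (Fin n)) = e then (1 : ℝ) else 0) = 0 :=
        sum_eq_zero fun c _ => if_neg fun h => ha ((triple_iff he a b c).1 h).1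
      rw [h2]
      split_ifs <;> rfl
  have h3 : ∀ a : Fin n, ∑ b, ∑ c, (if ({a, b, c} : Finset (Fin n)) = e then (1 : ℝ) else 0) =
      if a ∈ e then 2 else 0 := by
    intro a
    simp only [h1]
    rw [Finset.sum_ite_mem, univ_inter, sum_const]
    by_cases ha : a ∈ e
    · rw [if_pos ha, if_pos ha, card_erase_of_mem ha, he]
      norm_num
    · rw [if_neg ha, if_neg ha, smul_zero]
  simp only [h3]
  rw [Finset.sum_ite_mem, univ_inter, sum_const, he]
  norm_num

theorem sum_T {H : Finset (Finset (Fin n))} (hH : ∀ e ∈ H, e.card = 3) :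
    ∑ a, ∑ b, ∑ c, T H a b c = 6 * (H.card : ℝ) := by
  have h1 : ∀ a b c : Fin n, T H a b c =
      ∑ e ∈ H, if ({a, b, c} : Finset (Fin n)) = e then (1 : ℝ) else 0 := by
    intro a b c
    unfold T
    rw [Finset.sum_ite_eq]
  simp only [h1]
  have h2 : ∑ a : Fin n, ∑ b : Fin n, ∑ c : Fin n,
      ∑ e ∈ H, (if ({a, b, c} : Finset (Fin n)) = e then (1 : ℝ) else 0) =
      ∑ e ∈ H, ∑ a : Fin n, ∑ b : Fin n, ∑ c : Fin n,
        (if ({a, b, c} : Finset (Fin n)) = e then (1 : ℝ) else 0) := by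
    have e1 : ∀ a b : Fin n, ∑ c : Fin n,
        ∑ e ∈ H, (if ({a, b, c} : Finset (Fin n)) = e then (1 : ℝ) else 0) =
        ∑ e ∈ H, ∑ c : Fin n, (if ({a, b, c} : Finset (Fin n)) = e then (1 : ℝ) else 0) :=
      fun a b => sum_comm
    simp only [e1]
    have e2 : ∀ a : Fin n, ∑ b : Fin n, ∑ e ∈ H, ∑ c : Fin n,
        (if ({a, b, c} : Finset (Fin n)) = e then (1 : ℝ) else 0) =
        ∑ e ∈ H, ∑ b : Fin n, ∑ c : Fin n,
          (if ({a, b, c} : Finset (Fin n)) = e then (1 : ℝ) else 0) := fun a => sum_comm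
    simp only [e2]
    rw [sum_comm]
  rw [h2, sum_congr rfl fun e he => sum_triple (hH e he), sum_const, nsmul_eq_mul, mul_comm]

theorem mem_pull {m : ℕ} {H : Finset (Finset (Fin n))} {φ : Fin m → Fin n}
    {e : Finset (Fin m)} : e ∈ pull H φ ↔ e.card = 3 ∧ e.image φ ∈ H := by
  unfold pull
  rw [mem_filter, mem_powersetCard]
  simp

theorem T_pull {m : ℕ} {H : Finset (Finset (Fin n))} (hH : ∀ e ∈ H, e.card = 3)
    (φ : Fin m → Fin n) (a b c : Fin m) : T (pull H φ) a b c = T H (φ a) (φ b) (φ c) := by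
  unfold T
  have h1 : (({a, b, c} : Finset (Fin m)) ∈ pull H φ) ↔
      ({φ a, φ b, φ c} : Finset (Fin n)) ∈ H := by
    rw [mem_pull, image_insert, image_insert, image_singleton]
    refine ⟨fun h2 => h2.2, fun h2 => ⟨card_three' ?_, h2⟩⟩
    have h3 := card_three (hH _ h2)
    exact ⟨fun h => h3.1 (by rw [h]), fun h => h3.2.1 (by rw [h]), fun h => h3.2.2 (by rw [h])⟩
  simp only [h1]

theorem pull_uni {m : ℕ} {H : Finset (Finset (Fin n))} (φ : Fin m → Fin n) :
    ∀ e ∈ pull H φ, e.card = 3 := fun _ he => (mem_pull.1 he).1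

theorem sum_pull {m : ℕ} {H : Finset (Finset (Fin n))} (hH : ∀ e ∈ H, e.card = 3)
    (φ : Fin m → Fin n) :
    ∑ i, ∑ j, ∑ l, T H (φ i) (φ j) (φ l) = 6 * ((pull H φ).card : ℝ) := by
  rw [← sum_T (pull_uni φ)]
  simp only [T_pull hH]

theorem dens_T {H : Finset (Finset (Fin n))} (hH : ∀ e ∈ H, e.card = 3) :
    dens (T H) = 6 * (H.card : ℝ) / (n : ℝ) ^ 3 := by
  rw [← sum_T hH]
  unfold dens av
  simp only [← Finset.sum_div, Fintype.card_fin]
  rw [div_div, div_div]
  congr 1
  ring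

/-- deletion of a vertex -/
theorem del_card {H : Finset (Finset (Fin (n + 1)))} (hH : ∀ e ∈ H, e.card = 3)
    (i : Fin (n + 1)) :
    (H.filter fun e => i ∉ e).card ≤ (pull H (Fin.succAbove i)).card := by
  refine le_trans (card_le_card ?_) (card_image_le (f := fun e' => e'.image (Fin.succAbove i)))
  intro e he
  rw [mem_filter] at he
  rw [mem_image]
  have h1 : (univ.filter fun x => Fin.succAbove i x ∈ e).image (Fin.succAbove i) = e := by
    ext y
    rw [mem_image]
    constructor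
    · rintro ⟨x, hx, rfl⟩
      exact (mem_filter.1 hx).2
    · intro hy
      have hyi : y ≠ i := fun h => he.2 (h ▸ hy)
      obtain ⟨x, hx⟩ := Fin.exists_succAbove_eq hyi
      exact ⟨x, mem_filter.2 ⟨mem_univ _, hx ▸ hy⟩, hx⟩
  refine ⟨univ.filter fun x => Fin.succAbove i x ∈ e, ?_, h1⟩
  rw [mem_pull, h1]
  refine ⟨?_, he.1⟩
  rw [← hH e he.1]
  conv_rhs => rw [← h1]
  rw [card_image_of_injective _ (Fin.succAbove_right_injective)]

theorem del_sum {H : Finset (Finset (Fin (n + 1)))} (hH : ∀ e ∈ H, e.card = 3) :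
    (n + 1 - 3) * H.card ≤ ∑ i, (pull H (Fin.succAbove i)).card := by
  refine le_trans (le_of_eq ?_) (sum_le_sum fun i _ => del_card hH i)
  simp only [card_filter]
  rw [sum_comm]
  have h1 : ∀ e ∈ H, ∑ i : Fin (n + 1), (if i ∉ e then 1 else 0) = n + 1 - 3 := by
    intro e he
    rw [← card_filter, ← hH e he, filter_not, card_sdiff_of_subset (filter_subset _ _)]
    simp
  rw [sum_congr rfl h1, sum_const, smul_eq_mul, mul_comm]

theorem choose3 (n : ℕ) : 6 * (n.choose 3 : ℝ) = n * (n - 1) * (n - 2) := by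
  induction n with
  | zero => simp
  | succ n ih =>
    rw [Nat.choose_succ_succ' n 2]
    push_cast
    rw [mul_add, ih, Nat.cast_choose_two]
    ring

open Filter Topology

theorem cls (hMD : S_MD) (hREG : S_REG) (hA : S_A) (hB : S_B) (hFIN : S_FIN) : S_CLS := by
  intro P hP a ha ha1 hlim
  -- the class is not empty
  have hex : ∃ n, 0 < n ∧ ∃ H, P n H := by
    have h1 : ∀ᶠ n : ℕ in atTop, 0 < (exP P n : ℝ) / (n.choose 3 : ℝ) :=
      hlim.eventually (lt_mem_nhds ha)
    obtain ⟨n, h2, h3⟩ := (h1.and (eventually_ge_atTop 1)).exists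
    refine ⟨n, h3, ?_⟩
    by_contra hcon
    push Not at hcon
    have h4 : exP P n = 0 := by
      unfold exP
      have h5 : {m : ℕ | ∃ H : Finset (Finset (Fin n)), P n H ∧ H.card = m} = ∅ := by
        rw [Set.eq_empty_iff_forall_notMem]
        rintro m ⟨H, hH, -⟩
        exact hcon H hH
      rw [h5]
      exact csSup_empty
    rw [h4] at h2
    simp at h2
  obtain ⟨n₁, hn₁, H₁, hH₁⟩ := hex
  have hne : ∀ m, ∃ H, P m H := fun m =>
    ⟨pull H₁ (fun _ => ⟨0, hn₁⟩), hP.pull n₁ m _ H₁ hH₁⟩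
  have hbdd : ∀ m, BddAbove {k : ℕ | ∃ H : Finset (Finset (Fin m)), P m H ∧ H.card = k} := by
    intro m
    refine ⟨m.choose 3, ?_⟩
    rintro _ ⟨H, hH, rfl⟩
    have h1 : H ⊆ (univ : Finset (Fin m)).powersetCard 3 := fun e he =>
      mem_powersetCard.2 ⟨subset_univ _, hP.uni m H hH e he⟩
    have h2 := card_le_card h1
    rwa [card_powersetCard, card_univ, Fintype.card_fin] at h2
  have hmax : ∀ m, ∃ H, P m H ∧ H.card = exP P m := by
    intro m
    obtain ⟨H, hH⟩ := hne m
    exact Nat.sSup_mem (s := {k : ℕ | ∃ H : Finset (Finset (Fin m)), P m H ∧ H.card = k})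
      ⟨_, H, hH, rfl⟩ (hbdd m)
  have hle : ∀ m H, P m H → H.card ≤ exP P m := fun m H hH => le_csSup (hbdd m) ⟨H, hH, rfl⟩
  choose G hG hGc using hmax
  have huni : ∀ N, ∀ e ∈ G N, e.card = 3 := fun N => hP.uni N _ (hG N)
  have hker : ∀ N, Ker (T (G N)) := fun N => T_ker (huni N)
  have hBd : ∀ N n, Bd (T (G N)) n (6 * (exP P n : ℝ)) := by
    intro N n φ
    rw [sum_pull (huni N) φ]
    have h1 : ((pull (G N) φ).card : ℝ) ≤ exP P n := by
      exact_mod_cast hle n _ (hP.pull N n φ _ (hG N))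
    linarith
  have hdens : ∀ N, dens (T (G N)) = 6 * (exP P N : ℝ) / (N : ℝ) ^ 3 := by
    intro N
    rw [dens_T (huni N), hGc]
  have hch : ∀ m : ℕ, 3 ≤ m → (0 : ℝ) < m.choose 3 := fun m hm => by
    exact_mod_cast Nat.choose_pos hm
  -- all the weighted densities are at most a
  have hρ : ∀ N, 0 < N → ∀ ρ : Fin N → ℝ, (∀ v, 0 ≤ ρ v) → av ρ = 1 →
      (av fun u => av fun v => av fun w => ρ u * ρ v * ρ w * T (G N) u v w) ≤ a := by
    intro N hN ρ h0 h1
    have : Nonempty (Fin N) := ⟨⟨0, hN⟩⟩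
    refine ge_of_tendsto hlim ?_
    filter_upwards [eventually_ge_atTop 3] with m hm
    have h2 := hMD (Fin N) (Fin 0) (T (G N)) (hker N) m (6 * (exP P m : ℝ))
      (by rw [Fintype.card_fin, zero_add]; exact hBd N m) (fun x => x.elim0) ρ h0 h1
    simp only [univ_eq_empty, sum_empty, mul_zero, zero_add] at h2
    rw [le_div_iff₀ (hch m hm)]
    have h3 := choose3 m
    rw [← h3] at h2
    linarith
  have hpa : ∀ N, dens (T (G N)) ≤ a := by
    intro N
    rcases Nat.eq_zero_or_pos N with h0 | h0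
    · rw [hdens, h0]
      simp [ha.le]
    · have : Nonempty (Fin N) := ⟨⟨0, h0⟩⟩
      have h1 := hρ N h0 (fun _ => 1) (fun _ => zero_le_one) (av_const 1)
      simp only [mul_one, one_mul] at h1
      exact h1
  -- the densities converge
  have hp : Tendsto (fun N => dens (T (G N))) atTop (𝓝 a) := by
    have h1 : Tendsto (fun N : ℕ => (1 - 1 * (N : ℝ)⁻¹) * (1 - 2 * (N : ℝ)⁻¹)) atTop (𝓝 1) := by
      have h2 : Tendsto (fun N : ℕ => ((N : ℝ))⁻¹) atTop (𝓝 0) := tendsto_inv_atTop_nhds_zero_nat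
      have h3 := ((tendsto_const_nhds (x := (1 : ℝ))).sub (h2.const_mul 1)).mul
        ((tendsto_const_nhds (x := (1 : ℝ))).sub (h2.const_mul 2))
      simpa using h3
    have h4 := hlim.mul h1
    rw [mul_one] at h4
    refine h4.congr' ?_
    filter_upwards [eventually_ge_atTop 3] with N hN
    have hN0 : (0 : ℝ) < N := by
      have : 0 < N := by omega
      exact_mod_cast this
    rw [hdens]
    have h5 := choose3 N
    have h6 := hch N hN
    rw [div_mul_eq_mul_div, div_eq_div_iff h6.ne' (by positivity)]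
    have h7 : (1 - 1 * (N : ℝ)⁻¹) * (1 - 2 * (N : ℝ)⁻¹) * (N : ℝ) ^ 3 = 6 * (N.choose 3 : ℝ) := by
      rw [h5]
      field_simp
    calc (exP P N : ℝ) * ((1 - 1 * (N : ℝ)⁻¹) * (1 - 2 * (N : ℝ)⁻¹)) * (N : ℝ) ^ 3
        = (exP P N : ℝ) * ((1 - 1 * (N : ℝ)⁻¹) * (1 - 2 * (N : ℝ)⁻¹) * (N : ℝ) ^ 3) := by ring
      _ = _ := by rw [h7]; ring
  -- the conclusion of FIN
  obtain ⟨c, hc, n₀, hfin⟩ := hFIN (fun n => (exP P n : ℝ)) a ha ha1 (fun N => dens (T (G N)))
    (fun N => varc (T (G N))) (fun N => vard (T (G N))) hp hpa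
    (fun N => av_nonneg fun x => av_nonneg fun y => sq_nonneg _)
    (fun N => av_nonneg fun x => sq_nonneg _)
    (fun N hN => by
      have : Nonempty (Fin N) := ⟨⟨0, hN⟩⟩
      exact hREG (Fin N) (T (G N)) (hker N) a (hρ N hN))
    (fun N k m hN τ hτ => by
      have : Nonempty (Fin N) := ⟨⟨0, hN⟩⟩
      exact hA (Fin N) (T (G N)) (hker N) k m _ (hBd N (k + m)) τ hτ)
    (fun N k m hN hk θ hθ => by
      have : Nonempty (Fin N) := ⟨⟨0, hN⟩⟩
      exact hB (Fin N) (T (G N)) (hker N) k m _ hk (hBd N (2 * k + m)) θ hθ)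
  -- monotonicity
  have hmono : ∀ n : ℕ, 3 ≤ n → (exP P (n + 1) : ℝ) / ((n + 1).choose 3 : ℝ) ≤
      (exP P n : ℝ) / (n.choose 3 : ℝ) := by
    intro n hn
    have h1 : (n + 1 - 3) * exP P (n + 1) ≤ (n + 1) * exP P n := by
      have h2 := del_sum (huni (n + 1))
      rw [hGc] at h2
      refine h2.trans ?_
      refine (sum_le_sum fun i _ => hle n _ (hP.pull (n + 1) n _ _ (hG (n + 1)))).trans ?_
      rw [sum_const, card_univ, Fintype.card_fin, smul_eq_mul]
    have h3 : ((n : ℝ) - 2) * exP P (n + 1) ≤ (n + 1) * exP P n := by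
      have h4 : ((n + 1 - 3 : ℕ) : ℝ) = (n : ℝ) - 2 := by
        rw [Nat.cast_sub (by omega)]
        push_cast
        ring
      rw [← h4]
      exact_mod_cast h1
    rw [div_le_div_iff₀ (hch _ (by omega)) (hch _ hn)]
    have h5 := choose3 n
    have h6 := choose3 (n + 1)
    push_cast at h6
    have hn' : (3 : ℝ) ≤ n := by exact_mod_cast hn
    have h7 : (0 : ℝ) ≤ (n : ℝ) * (n - 1) := by nlinarith
    have h8 := mul_le_mul_of_nonneg_left h3 h7
    nlinarith
  have hmono' : ∀ n k : ℕ, 3 ≤ n → (exP P (n + k) : ℝ) / ((n + k).choose 3 : ℝ) ≤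
      (exP P n : ℝ) / (n.choose 3 : ℝ) := by
    intro n k hn
    induction k with
    | zero => exact le_rfl
    | succ k ih => exact (hmono (n + k) (by omega)).trans ih
  have hlow : ∀ n : ℕ, n₀ ≤ n → 3 ≤ n → a + c / n ≤ (exP P n : ℝ) / (n.choose 3 : ℝ) := by
    intro n hn hn3
    have h1 := hfin n hn
    have hn' : (3 : ℝ) ≤ n := by exact_mod_cast hn3
    rw [le_div_iff₀ (hch n hn3)]
    have h2 := choose3 n
    rw [← h2] at h1
    have h3 : c / n * (6 * (n.choose 3 : ℝ)) ≤ c * (n : ℝ) ^ 2 := by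
      rw [h2, div_mul_eq_mul_div, div_le_iff₀ (by linarith)]
      have h4 : (n : ℝ) * (n - 1) * (n - 2) ≤ (n : ℝ) ^ 2 * n := by nlinarith
      calc c * ((n : ℝ) * (n - 1) * (n - 2)) ≤ c * ((n : ℝ) ^ 2 * n) :=
            mul_le_mul_of_nonneg_left h4 hc.le
        _ = _ := by ring
    nlinarith
  obtain ⟨n₂, hn₂⟩ : ∃ n₂, n₂ = max n₀ 3 := ⟨_, rfl⟩
  have hn₂3 : 3 ≤ n₂ := hn₂ ▸ le_max_right _ _
  have hn₂0 : n₀ ≤ n₂ := hn₂ ▸ le_max_left _ _
  have hn₂' : (3 : ℝ) ≤ n₂ := by exact_mod_cast hn₂3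
  refine ⟨3 * c / n₂, by positivity, ?_⟩
  intro n hn
  have hn' : (3 : ℝ) ≤ n := by exact_mod_cast hn
  constructor
  · by_cases h : n₂ ≤ n
    · refine le_trans ?_ (hlow n (hn₂0.trans h) hn)
      have h1 : 3 * c / n₂ ≤ c := by
        rw [div_le_iff₀ (by linarith)]
        nlinarith
      gcongr
    · obtain ⟨k, hk⟩ := Nat.exists_eq_add_of_lt (not_le.1 h)
      have h1 := hmono' n (k + 1) hn
      rw [← Nat.add_assoc, ← hk] at h1
      refine le_trans ?_ ((hlow n₂ hn₂0 hn₂3).trans h1)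
      have h2 : 3 * c / n₂ / n ≤ c / n₂ := by
        have h3 : 3 * c / n₂ / n = c / n₂ * (3 / n) := by ring
        have h4 : 3 / (n : ℝ) ≤ 1 := by
          rw [div_le_one (by linarith)]
          exact hn'
        have h5 : 0 ≤ c / n₂ := by positivity
        rw [h3]
        nlinarith
      linarith
  · have h1 := hpa n
    rw [hdens, div_le_iff₀ (by positivity)] at h1
    rw [div_le_iff₀ (hch n hn)]
    have h2 := choose3 n
    have h3 : a * (n : ℝ) ^ 3 ≤ (a + 11 / n) * (6 * (n.choose 3 : ℝ)) := by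
      rw [h2]
      have h4 : (a + 11 / n) * ((n : ℝ) * (n - 1) * (n - 2)) =
          a * ((n : ℝ) * (n - 1) * (n - 2)) + 11 * ((n - 1) * (n - 2)) := by
        field_simp
      rw [h4]
      have h5 : (n : ℝ) ^ 3 - (n : ℝ) * (n - 1) * (n - 2) = n * (3 * n - 2) := by ring
      have h6 : a * ((n : ℝ) * (3 * n - 2)) ≤ 1 * ((n : ℝ) * (3 * n - 2)) :=
        mul_le_mul_of_nonneg_right ha1.le (by nlinarith)
      nlinarith
    nlinarith

end Pool.Agent.H70.RC.CLS
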