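import Pool.Agent.H70.RC.Stm

/-! FIN: the conclusion from the two inequalities. -/

set_option autoImplicit false
open Finset Filter

namespace Pool.Agent.H70.RC.FIN

/-- first case: the variances of the codegrees are bounded from below -/
theorem case_one {t : ℕ → ℝ} {a v₀ : ℝ} (hv : 0 < v₀) (hv1 : v₀ ≤ 1)
    (key : ∀ k m : ℕ, ∀ τ : ℝ, 0 ≤ τ →
      a * (((k : ℝ) + m) * (k + m - 1) * (k + m - 2))
        + 3 / 2 * m * (12 * τ * k * (k - 1) ^ 2 * v₀ - 192 * τ ^ 3 * k ^ 6)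
        - 3 * m ^ 2 * (k + m) ≤ 6 * t (k + m)) :
    ∃ c : ℝ, 0 < c ∧ ∃ n₀ : ℕ, ∀ n ≥ n₀,
      a * ((n : ℝ) * (n - 1) * (n - 2)) + c * (n : ℝ) ^ 2 ≤ 6 * t n := by
  set u : ℝ := v₀ ^ 2 / 32 with hu
  set c₁ : ℝ := u / 32 with hc₁
  have hu0 : 0 < u := by positivity
  have hc0 : 0 < c₁ := by positivity
  have hu1 : u ≤ 1 / 32 := by
    have : v₀ ^ 2 ≤ 1 := pow_le_one₀ hv.le hv1
    rw [hu]
    linarith
  refine ⟨3 / 32 * u * c₁, by positivity, ⌈(2 / c₁) ^ 2⌉₊ + 4, fun n hn => ?_⟩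
  have hn4 : 4 ≤ n := by omega
  have hnR : (4 : ℝ) ≤ n := by exact_mod_cast hn4
  have hn0 : (0 : ℝ) < n := by linarith
  set r : ℝ := √(n : ℝ) with hr
  have hr0 : 0 < r := Real.sqrt_pos.2 hn0
  have hrr : r * r = n := Real.mul_self_sqrt hn0.le
  have hr1 : 2 ≤ r := by
    rw [hr]
    apply Real.le_sqrt_of_sq_le
    linarith
  have hrc : 2 ≤ c₁ * r := by
    have h1 : (2 / c₁) ^ 2 ≤ (n : ℝ) := by
      refine (Nat.le_ceil _).trans ?_
      exact_mod_cast (by omega : ⌈(2 / c₁) ^ 2⌉₊ ≤ n)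
    have h2 : 2 / c₁ ≤ r := Real.le_sqrt_of_sq_le h1
    rw [div_le_iff₀ hc0] at h2
    linarith
  set m : ℕ := ⌊c₁ * r⌋₊ with hm
  have hm1 : (m : ℝ) ≤ c₁ * r := Nat.floor_le (by positivity)
  have hm2 : c₁ * r / 2 ≤ m := by
    have := Nat.lt_floor_add_one (c₁ * r)
    rw [← hm] at this
    linarith
  have hm0 : (0 : ℝ) ≤ m := Nat.cast_nonneg m
  have hmn : (m : ℝ) ≤ n / 2 := by
    have h1 : c₁ * r ≤ r / 1024 := by
      have : c₁ ≤ 1 / 1024 := by rw [hc₁]; linarith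
      nlinarith
    nlinarith
  have hmn' : m ≤ n := by
    have : (m : ℝ) ≤ n := by linarith
    exact_mod_cast this
  set k : ℕ := n - m with hk
  have hkm : k + m = n := by omega
  have hkmR : (k : ℝ) + m = n := by exact_mod_cast hkm
  have hk2 : (n : ℝ) / 2 ≤ k := by linarith
  have hkn : (k : ℝ) ≤ n := by linarith
  have hk0 : (0 : ℝ) < k := by linarith
  have hkt : (2 : ℝ) ≤ k := by linarith
  set τ : ℝ := v₀ / 32 / (n * r) with hτ
  have hτ0 : 0 < τ := by positivity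
  have h := key k m τ hτ0.le
  rw [hkm, hkmR] at h
  -- the bracket
  have e1 : τ * (n : ℝ) ^ 3 = v₀ / 32 * (n * r) := by
    rw [hτ]
    have : (n : ℝ) ^ 3 = (n * r) * (n * r) := by
      calc (n : ℝ) ^ 3 = n * n * n := by ring
        _ = n * n * (r * r) := by rw [hrr]
        _ = _ := by ring
    rw [this]
    field_simp
  have b1 : 3 / 8 * u * (n * r) ≤ 12 * τ * k * (k - 1) ^ 2 * v₀ := by
    have h1 : (k : ℝ) ^ 2 / 4 ≤ (k - 1) ^ 2 := by nlinarith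
    have h2 : (n : ℝ) ^ 3 / 8 ≤ k ^ 3 := by
      have := pow_le_pow_left₀ (by positivity) hk2 3
      calc (n : ℝ) ^ 3 / 8 = (n / 2) ^ 3 := by ring
        _ ≤ _ := this
    calc 3 / 8 * u * (n * r) = 3 * v₀ * ((v₀ / 32 * (n * r)) / 8) := by rw [hu]; ring
      _ = 3 * v₀ * (τ * ((n : ℝ) ^ 3 / 8)) := by rw [← e1]; ring
      _ ≤ 3 * v₀ * (τ * k ^ 3) := by gcongr
      _ = 12 * τ * k * (k ^ 2 / 4) * v₀ := by ring
      _ ≤ _ := by gcongr
  have b2 : 192 * τ ^ 3 * k ^ 6 ≤ 3 / 16 * u * (n * r) := by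
    have h2 : (τ * (n : ℝ) ^ 3) ^ 2 * τ = (v₀ / 32) ^ 3 * (n * r) := by
      rw [e1, hτ]
      field_simp
    calc 192 * τ ^ 3 * (k : ℝ) ^ 6 ≤ 192 * τ ^ 3 * (n : ℝ) ^ 6 := by gcongr
      _ = 192 * ((τ * (n : ℝ) ^ 3) ^ 2 * τ) := by ring
      _ = 192 * ((v₀ / 32) ^ 3 * (n * r)) := by rw [h2]
      _ = (6 * v₀) * (v₀ ^ 2 / 32) * (n * r) / 32 := by ring
      _ ≤ 3 / 16 * u * (n * r) := by
        rw [← hu]
        have h3 : 0 ≤ u * (n * r) := by positivity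
        nlinarith
  have b3 : 3 / 16 * u * (n * r) ≤ 12 * τ * k * (k - 1) ^ 2 * v₀ - 192 * τ ^ 3 * k ^ 6 := by
    linarith
  have b4 : 3 / 2 * m * (3 / 16 * u * (n * r)) ≤
      3 / 2 * m * (12 * τ * k * (k - 1) ^ 2 * v₀ - 192 * τ ^ 3 * k ^ 6) :=
    mul_le_mul_of_nonneg_left b3 (by positivity)
  have b5 : 3 / 32 * u * c₁ * (n : ℝ) ^ 2 ≤
      3 / 2 * m * (3 / 16 * u * (n * r)) - 3 * m ^ 2 * n := by
    have h1 : 3 * (m : ℝ) ≤ 3 * (c₁ * r) := by linarith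
    have h2 : 3 / 32 * u * r = 3 * (c₁ * r) := by rw [hc₁]; ring
    have h3 : 3 / 16 * u * r ≤ 9 / 32 * u * r - 3 * m := by nlinarith
    have h4 : (m : ℝ) * n * (3 / 16 * u * r) ≤ m * n * (9 / 32 * u * r - 3 * m) :=
      mul_le_mul_of_nonneg_left h3 (by positivity)
    have h5 : c₁ * r / 2 * n * (3 / 16 * u * r) ≤ (m : ℝ) * n * (3 / 16 * u * r) := by gcongr
    calc 3 / 32 * u * c₁ * (n : ℝ) ^ 2 = c₁ / 2 * (3 / 16 * u) * (n * n) := by ring
      _ = c₁ / 2 * (3 / 16 * u) * (n * (r * r)) := by rw [hrr]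
      _ = c₁ * r / 2 * n * (3 / 16 * u * r) := by ring
      _ ≤ _ := h5
      _ ≤ _ := h4
      _ = _ := by ring
  linarith

/-- second case: the variances of the codegrees tend to zero along a sequence -/
theorem case_two {t : ℕ → ℝ} {a : ℝ} (ha : 0 < a) (ha1 : a < 1)
    (key : ∀ k m : ℕ, 1 ≤ k → ∀ θ : ℝ, 0 ≤ θ →
      a * ((2 * (k : ℝ) + m) * (2 * k + m - 1) * (2 * k + m - 2))
        + 3 / 4 * m * k * (θ * (a * (1 - a)) - 4608 * θ ^ 3) - 96 * m ^ 2 * θ ^ 2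
        ≤ 6 * t (2 * k + m)) :
    ∃ c : ℝ, 0 < c ∧ ∃ n₀ : ℕ, ∀ n ≥ n₀,
      a * ((n : ℝ) * (n - 1) * (n - 2)) + c * (n : ℝ) ^ 2 ≤ 6 * t n := by
  set q : ℝ := a * (1 - a) with hq
  have hq0 : 0 < q := mul_pos ha (by linarith)
  have hq1 : q ≤ 1 / 4 := by nlinarith [sq_nonneg (a - 1 / 2)]
  refine ⟨q ^ 2 / 50000, by positivity, 8, fun n hn => ?_⟩
  set k : ℕ := n / 3 with hk
  set m : ℕ := n - 2 * k with hm
  have hkm : 2 * k + m = n := by omega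
  have hkmR : 2 * (k : ℝ) + m = n := by exact_mod_cast hkm
  have h1 : (n : ℝ) / 4 ≤ k := by
    have : n ≤ 4 * k := by omega
    have h : (n : ℝ) ≤ 4 * k := by exact_mod_cast this
    linarith
  have h2 : (k : ℝ) ≤ n / 3 := by
    have : 3 * k ≤ n := by omega
    have h : 3 * (k : ℝ) ≤ n := by exact_mod_cast this
    linarith
  have h3 : (n : ℝ) / 3 ≤ m := by linarith
  have h4 : (m : ℝ) ≤ n / 2 := by linarith
  have hn0 : (0 : ℝ) < n := by exact_mod_cast (by omega : 0 < n)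
  have hk0 : (0 : ℝ) < k := by linarith
  have hm0 : (0 : ℝ) < m := by linarith
  set θ : ℝ := q / 1000 with hθ
  have hθ0 : 0 < θ := by positivity
  have h := key k m (by omega) θ hθ0.le
  rw [hkm, hkmR] at h
  have g1 : (n : ℝ) ^ 2 / 16 * (θ * q) ≤ 3 / 4 * m * k * (θ * q) := by
    have : (n : ℝ) ^ 2 / 16 ≤ 3 / 4 * m * k := by
      calc (n : ℝ) ^ 2 / 16 = 3 / 4 * (n / 3) * (n / 4) := by ring
        _ ≤ _ := by gcongr
    exact mul_le_mul_of_nonneg_right this (by positivity)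
  have g2 : 3 / 4 * m * k * (4608 * θ ^ 3) ≤ (n : ℝ) ^ 2 / 8 * (4608 * θ ^ 3) := by
    have : 3 / 4 * (m : ℝ) * k ≤ (n : ℝ) ^ 2 / 8 := by
      calc 3 / 4 * (m : ℝ) * k ≤ 3 / 4 * (n / 2) * (n / 3) := by gcongr
        _ = _ := by ring
    exact mul_le_mul_of_nonneg_right this (by positivity)
  have g3 : 96 * (m : ℝ) ^ 2 * θ ^ 2 ≤ 24 * (n : ℝ) ^ 2 * θ ^ 2 := by
    calc 96 * (m : ℝ) ^ 2 * θ ^ 2 ≤ 96 * ((n : ℝ) / 2) ^ 2 * θ ^ 2 := by gcongr
      _ = _ := by ring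
  have g4 : q ^ 2 / 50000 ≤ θ * q / 16 - 576 * θ ^ 3 - 24 * θ ^ 2 := by
    rw [hθ]
    have h5 : q ^ 3 ≤ q ^ 2 / 4 := by
      have : 0 ≤ q ^ 2 := by positivity
      nlinarith
    nlinarith
  have g5 : q ^ 2 / 50000 * (n : ℝ) ^ 2 ≤ (θ * q / 16 - 576 * θ ^ 3 - 24 * θ ^ 2) * (n : ℝ) ^ 2 :=
    mul_le_mul_of_nonneg_right g4 (by positivity)
  have g6 : 3 / 4 * (m : ℝ) * k * (θ * q - 4608 * θ ^ 3) =
      3 / 4 * m * k * (θ * q) - 3 / 4 * m * k * (4608 * θ ^ 3) := by ring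
  rw [g6] at h
  nlinarith

theorem fin : S_FIN := by
  intro t a ha ha1 p v w hp hpa hv hw hwp hA hB
  have hw0 : Tendsto w atTop (nhds 0) := by
    have h1 : Tendsto (fun N => 2 * (a - p N)) atTop (nhds (2 * (a - a))) :=
      (tendsto_const_nhds.sub hp).const_mul 2
    rw [sub_self, mul_zero] at h1
    refine tendsto_of_tendsto_of_tendsto_of_le_of_le' tendsto_const_nhds h1
      (Eventually.of_forall hw) ?_
    filter_upwards [eventually_ge_atTop 1] with N hN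
    exact hwp N hN
  by_cases hcase : ∃ v₁ : ℝ, 0 < v₁ ∧ ∀ᶠ N in atTop, v₁ ≤ v N
  · obtain ⟨v₁, hv₁, hev⟩ := hcase
    refine case_one (v₀ := min v₁ 1) (lt_min hv₁ one_pos) (min_le_right _ _) fun k m τ hτ => ?_
    have hl : Tendsto (fun N => p N * (((k : ℝ) + m) * (k + m - 1) * (k + m - 2))
        + 3 / 2 * m * (12 * τ * k * (k - 1) ^ 2 * (min v₁ 1 - 2 * w N) - 192 * τ ^ 3 * k ^ 6)
        - 3 * m ^ 2 * (k + m)) atTop (nhds (a * (((k : ℝ) + m) * (k + m - 1) * (k + m - 2))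
        + 3 / 2 * m * (12 * τ * k * (k - 1) ^ 2 * (min v₁ 1 - 2 * 0) - 192 * τ ^ 3 * k ^ 6)
        - 3 * m ^ 2 * (k + m))) :=
      ((hp.mul_const _).add ((((tendsto_const_nhds.sub (hw0.const_mul 2)).const_mul _).sub_const
        _).const_mul _)).sub_const _
    rw [mul_zero, sub_zero] at hl
    refine le_of_tendsto hl ?_
    filter_upwards [hev, eventually_ge_atTop 1] with N h1 h2
    refine le_trans ?_ (hA N k m h2 τ hτ)
    have h3 : min v₁ 1 - 2 * w N ≤ v N - 2 * w N := by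
      have := (min_le_left v₁ 1).trans h1
      linarith
    gcongr
  · push Not at hcase
    have hfr : ∀ j : ℕ, ∃ᶠ N in atTop, v N < 1 / ((j : ℝ) + 1) := fun j =>
      (hcase (1 / ((j : ℝ) + 1)) (by positivity)).mono fun N h => by
        exact h
    obtain ⟨φ, hφ, hφv⟩ := extraction_forall_of_frequently hfr
    have hpφ : Tendsto (p ∘ φ) atTop (nhds a) := hp.comp hφ.tendsto_atTop
    have hvφ : Tendsto (v ∘ φ) atTop (nhds 0) :=
      tendsto_of_tendsto_of_tendsto_of_le_of_le tendsto_const_nhds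
        tendsto_one_div_add_atTop_nhds_zero_nat (fun j => hv _) fun j => (hφv j).le
    have hsφ : Tendsto (fun j => √(v (φ j))) atTop (nhds 0) := by
      have := (Real.continuous_sqrt.tendsto 0).comp hvφ
      rwa [Real.sqrt_zero] at this
    refine case_two ha ha1 fun k m hk θ hθ => ?_
    have hl : Tendsto (fun j => p (φ j) * ((2 * (k : ℝ) + m) * (2 * k + m - 1) * (2 * k + m - 2))
        + 3 / 4 * m * k * (θ * (p (φ j) * (1 - p (φ j)) - 6 * v (φ j)) - 4608 * θ ^ 3)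
        - 6 * m ^ 2 * (k * √(v (φ j)) + 16 * θ ^ 2) - 3 * m ^ 3 * √(v (φ j))) atTop
        (nhds (a * ((2 * (k : ℝ) + m) * (2 * k + m - 1) * (2 * k + m - 2))
        + 3 / 4 * m * k * (θ * (a * (1 - a) - 6 * 0) - 4608 * θ ^ 3)
        - 6 * m ^ 2 * (k * 0 + 16 * θ ^ 2) - 3 * m ^ 3 * 0)) := by
      refine (((hpφ.mul_const _).add (((((hpφ.mul (tendsto_const_nhds.sub hpφ)).sub
        (hvφ.const_mul 6)).const_mul θ).sub_const _).const_mul _)).sub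
        (((hsφ.const_mul _).add_const _).const_mul _)).sub (hsφ.const_mul _)
    have hle := le_of_tendsto hl (by
      filter_upwards [hφ.tendsto_atTop.eventually (eventually_ge_atTop 1)] with j hj
      exact hB (φ j) k m hj hk θ hθ)
    have e : a * ((2 * (k : ℝ) + m) * (2 * k + m - 1) * (2 * k + m - 2))
        + 3 / 4 * m * k * (θ * (a * (1 - a) - 6 * 0) - 4608 * θ ^ 3)
        - 6 * m ^ 2 * (k * 0 + 16 * θ ^ 2) - 3 * m ^ 3 * 0 =
        a * ((2 * (k : ℝ) + m) * (2 * k + m - 1) * (2 * k + m - 2))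
        + 3 / 4 * m * k * (θ * (a * (1 - a)) - 4608 * θ ^ 3) - 96 * m ^ 2 * θ ^ 2 := by ring
    rwa [e] at hle

end Pool.Agent.H70.RC.FIN
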