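import Pool.Agent.H70.RC.Stm

/-! `K_r^3`-free 3-graphs: closure under preimages, existence of the density, complements. -/

set_option autoImplicit false
open Finset

namespace Pool.Agent.H70.RC.KR

open Pool.Agent.H70.RC

theorem mem_pull {n m : ℕ} {H : Finset (Finset (Fin n))} {φ : Fin m → Fin n} {e : Finset (Fin m)} :
    e ∈ pull H φ ↔ e.card = 3 ∧ e.image φ ∈ H := by
  unfold pull
  rw [mem_filter, mem_powersetCard]
  simp

theorem free_pull {n m r : ℕ} (hr : 3 ≤ r) {H : Finset (Finset (Fin n))} (hH : Free r n H)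
    (φ : Fin m → Fin n) : Free r m (pull H φ) := by
  refine ⟨fun e he => (mem_pull.1 he).1, fun S hS => ?_⟩
  by_contra hcon
  push Not at hcon
  have hinj : Set.InjOn φ S := by
    intro a ha b hb hab
    by_contra hne
    obtain ⟨e, he, heS, hec⟩ := Finset.exists_subsuperset_card_eq (s := {a, b}) (t := S) (n := 3)
      (by intro x hx; simp only [mem_insert, mem_singleton] at hx; rcases hx with rfl | rfl <;> assumption)
      (by rw [card_pair hne]; omega) (by omega)
    have h1 := (mem_pull.1 (hcon e heS hec)).2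
    have h2 := hH.1 _ h1
    have h3 : (e.image φ).card = e.card := by rw [h2, hec]
    exact hne ((card_image_iff.1 h3) (he (by simp)) (he (by simp)) hab)
  obtain ⟨e, he, hec, heH⟩ := hH.2 (S.image φ) (by rw [card_image_of_injOn hinj, hS])
  obtain ⟨e', he', rfl⟩ := subset_image_iff.1 he
  have hinj' : Set.InjOn φ e' := fun a ha b hb => hinj (he' ha) (he' hb)
  have h4 : e'.card = 3 := by rw [← card_image_of_injOn hinj', hec]
  exact heH (mem_pull.1 (hcon e' he' h4)).2

theorem cls_free {r : ℕ} (hr : 3 ≤ r) : Cls (Free r) :=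
  ⟨fun _ _ h => h.1, fun _ _ φ _ h => free_pull hr h φ⟩

theorem free_subset {r n : ℕ} {H : Finset (Finset (Fin n))} (h : Free r n H) :
    H ⊆ (univ : Finset (Fin n)).powersetCard 3 := fun e he => by
  rw [mem_powersetCard]; exact ⟨subset_univ _, h.1 e he⟩

theorem free_card_le {r n : ℕ} {H : Finset (Finset (Fin n))} (h : Free r n H) : H.card ≤ n.choose 3 := by
  have := card_le_card (free_subset h)
  rwa [card_powersetCard, card_univ, Fintype.card_fin] at this

theorem bddAbove (r n : ℕ) : BddAbove {m : ℕ | ∃ H : Finset (Finset (Fin n)), Free r n H ∧ H.card = m} :=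
  ⟨n.choose 3, by rintro m ⟨H, hH, rfl⟩; exact free_card_le hH⟩

theorem free_empty {r n : ℕ} (hr : 3 ≤ r) : Free r n ∅ := by
  refine ⟨by simp, fun S hS => ?_⟩
  obtain ⟨e, he, hec⟩ := exists_subset_card_eq (s := S) (n := 3) (by omega)
  exact ⟨e, he, hec, by simp⟩

theorem exists_extremal {r : ℕ} (hr : 3 ≤ r) (n : ℕ) :
    ∃ H : Finset (Finset (Fin n)), Free r n H ∧ H.card = exP (Free r) n := by
  have h : (exP (Free r) n) ∈ {m : ℕ | ∃ H : Finset (Finset (Fin n)), Free r n H ∧ H.card = m} :=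
    Nat.sSup_mem ⟨0, ∅, free_empty hr, rfl⟩ (bddAbove r n)
  exact h

theorem le_exP {r n : ℕ} {H : Finset (Finset (Fin n))} (h : Free r n H) : H.card ≤ exP (Free r) n :=
  le_csSup (bddAbove r n) ⟨H, h, rfl⟩

theorem exP_le {r : ℕ} (hr : 3 ≤ r) (n : ℕ) : exP (Free r) n ≤ n.choose 3 := by
  obtain ⟨H, hH, hc⟩ := exists_extremal hr n
  rw [← hc]; exact free_card_le hH

/-- deleting a vertex -/
theorem card_pull_succAbove {n : ℕ} {H : Finset (Finset (Fin (n + 1)))} (hH : ∀ e ∈ H, e.card = 3)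
    (i : Fin (n + 1)) : (pull H i.succAbove).card = (H.filter fun e => i ∉ e).card := by
  refine card_bij (fun e _ => e.image i.succAbove) ?_ ?_ ?_
  · intro e he
    rw [mem_pull] at he
    rw [mem_filter]
    refine ⟨he.2, ?_⟩
    rw [mem_image]
    rintro ⟨j, _, hj⟩
    exact Fin.succAbove_ne i j hj
  · intro e _ e' _ h
    exact image_injective (Fin.succAbove_right_injective) h
  · intro e he
    rw [mem_filter] at he
    refine ⟨univ.filter fun j => i.succAbove j ∈ e, ?_, ?_⟩
    · rw [mem_pull]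
      have h1 : (univ.filter fun j => i.succAbove j ∈ e).image i.succAbove = e := by
        ext x
        rw [mem_image]
        constructor
        · rintro ⟨j, hj, rfl⟩
          exact (mem_filter.1 hj).2
        · intro hx
          have hne : x ≠ i := fun h => he.2 (h ▸ hx)
          obtain ⟨j, rfl⟩ := Fin.exists_succAbove_eq hne
          exact ⟨j, by simpa using hx, rfl⟩
      refine ⟨?_, by rw [h1]; exact he.1⟩
      rw [← card_image_of_injective _ (Fin.succAbove_right_injective (p := i)), h1]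
      exact hH e he.1
    · ext x
      rw [mem_image]
      constructor
      · rintro ⟨j, hj, rfl⟩
        exact (mem_filter.1 hj).2
      · intro hx
        have hne : x ≠ i := fun h => he.2 (h ▸ hx)
        obtain ⟨j, rfl⟩ := Fin.exists_succAbove_eq hne
        exact ⟨j, by simpa using hx, rfl⟩

theorem step {r : ℕ} (hr : 3 ≤ r) {n : ℕ} (hn : 3 ≤ n) :
    (n - 2) * exP (Free r) (n + 1) ≤ (n + 1) * exP (Free r) n := by
  obtain ⟨H, hH, hc⟩ := exists_extremal hr (n + 1)
  have h1 : ∀ i : Fin (n + 1), (H.filter fun e => i ∉ e).card ≤ exP (Free r) n := fun i => by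
    rw [← card_pull_succAbove hH.1 i]
    exact le_exP (free_pull hr hH _)
  have h2 : ∑ i : Fin (n + 1), (H.filter fun e => i ∉ e).card ≤ (n + 1) * exP (Free r) n := by
    have := sum_le_sum fun i (_ : i ∈ (univ : Finset (Fin (n + 1)))) => h1 i
    rwa [sum_const, card_univ, Fintype.card_fin, smul_eq_mul] at this
  have h3 : ∑ i : Fin (n + 1), (H.filter fun e => i ∉ e).card = (n - 2) * H.card := by
    have h4 : ∀ i : Fin (n + 1), (H.filter fun e => i ∉ e).card = ∑ e ∈ H, if i ∉ e then 1 else 0 :=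
      fun i => by rw [card_filter]
    simp_rw [h4]
    rw [sum_comm]
    have h5 : ∀ e ∈ H, (∑ i : Fin (n + 1), if i ∉ e then 1 else 0) = n - 2 := by
      intro e he
      rw [← card_filter]
      have h6 : (univ.filter fun i : Fin (n + 1) => i ∉ e) = eᶜ := by
        ext x; simp
      rw [h6, card_compl, Fintype.card_fin, hH.1 e he]
      omega
    rw [sum_congr rfl h5, sum_const, smul_eq_mul, mul_comm]
  rw [← hc, ← h3]
  exact h2

theorem choose_step {n : ℕ} (_hn : 3 ≤ n) : (n - 2) * (n + 1).choose 3 = (n + 1) * n.choose 3 := by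
  have h := Nat.add_one_mul_choose_eq n 2
  have h' := Nat.choose_succ_right_eq n 2
  -- (n+1) * choose n 2 = choose (n+1) 3 * 3 ; choose n 3 * 3 = choose n 2 * (n-2)
  have e1 : (n - 2) * (n + 1).choose 3 * 3 = (n + 1) * n.choose 3 * 3 := by
    calc (n - 2) * (n + 1).choose 3 * 3 = (n - 2) * ((n + 1).choose 3 * 3) := by ring
      _ = (n - 2) * ((n + 1) * n.choose 2) := by rw [h]
      _ = (n + 1) * (n.choose 2 * (n - 2)) := by ring
      _ = (n + 1) * (n.choose 3 * 3) := by rw [h']
      _ = (n + 1) * n.choose 3 * 3 := by ring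
  exact Nat.eq_of_mul_eq_mul_right (by norm_num) e1

/-- the density -/
noncomputable def f (r n : ℕ) : ℝ := (exP (Free r) n : ℝ) / (n.choose 3 : ℝ)

theorem f_succ_le {r : ℕ} (hr : 3 ≤ r) {n : ℕ} (hn : 3 ≤ n) : f r (n + 1) ≤ f r n := by
  unfold f
  have hc1 : (0 : ℝ) < ((n + 1).choose 3 : ℝ) := by exact_mod_cast Nat.choose_pos (by omega)
  have hc2 : (0 : ℝ) < (n.choose 3 : ℝ) := by exact_mod_cast Nat.choose_pos hn
  rw [div_le_div_iff₀ hc1 hc2]
  have h1 := step hr hn
  have h2 := choose_step hn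
  have hpos : 0 < n - 2 := by omega
  have h3 : exP (Free r) (n + 1) * n.choose 3 ≤ exP (Free r) n * (n + 1).choose 3 := by
    refine Nat.le_of_mul_le_mul_left ?_ (Nat.mul_pos hpos (Nat.succ_pos n))
    calc (n - 2) * (n + 1) * (exP (Free r) (n + 1) * n.choose 3)
        = ((n - 2) * exP (Free r) (n + 1)) * ((n + 1) * n.choose 3) := by ring
      _ ≤ ((n + 1) * exP (Free r) n) * ((n + 1) * n.choose 3) := Nat.mul_le_mul_right _ h1
      _ = ((n + 1) * exP (Free r) n) * ((n - 2) * (n + 1).choose 3) := by rw [h2]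
      _ = (n - 2) * (n + 1) * (exP (Free r) n * (n + 1).choose 3) := by ring
  exact_mod_cast h3

theorem f_anti {r : ℕ} (hr : 3 ≤ r) : Antitone fun n => f r (n + 3) :=
  antitone_nat_of_succ_le fun n => f_succ_le hr (by omega)

theorem f_nonneg (r n : ℕ) : 0 ≤ f r n := div_nonneg (Nat.cast_nonneg _) (Nat.cast_nonneg _)

theorem bddBelow (r : ℕ) : BddBelow (Set.range fun n => f r (n + 3)) :=
  ⟨0, by rintro _ ⟨n, rfl⟩; exact f_nonneg _ _⟩

theorem tendsto_f {r : ℕ} (hr : 3 ≤ r) :
    Filter.Tendsto (fun n => f r n) Filter.atTop (nhds (⨅ n, f r (n + 3))) := by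
  rw [← Filter.tendsto_add_atTop_iff_nat 3]
  exact tendsto_atTop_ciInf (f_anti hr) (bddBelow r)

theorem inf_lt_one {r : ℕ} (hr : 3 ≤ r) : (⨅ n, f r (n + 3)) < 1 := by
  have h1 : (⨅ n, f r (n + 3)) ≤ f r (r - 3 + 3) := ciInf_le (bddBelow r) (r - 3)
  rw [Nat.sub_add_cancel hr] at h1
  refine lt_of_le_of_lt h1 ?_
  unfold f
  have hc : (0 : ℝ) < (r.choose 3 : ℝ) := by exact_mod_cast Nat.choose_pos hr
  rw [div_lt_one hc]
  have h2 : exP (Free r) r < r.choose 3 := by
    obtain ⟨H, hH, hcard⟩ := exists_extremal hr r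
    rw [← hcard]
    obtain ⟨e, _, hec, heH⟩ := hH.2 univ (by simp)
    have h3 : H ⊂ (univ : Finset (Fin r)).powersetCard 3 := by
      rw [ssubset_iff_of_subset (free_subset hH)]
      exact ⟨e, by rw [mem_powersetCard]; exact ⟨subset_univ _, hec⟩, heH⟩
    have := card_lt_card h3
    rwa [card_powersetCard, card_univ, Fintype.card_fin] at this
  exact_mod_cast h2

/-! the complete tripartite 3-graph -/

def res (k : ℕ) (i : Fin (3 * k)) : Fin 3 := ⟨i.1 % 3, Nat.mod_lt _ (by norm_num)⟩

def pt (k : ℕ) (a : Fin k) (j : Fin 3) : Fin (3 * k) := ⟨3 * a.1 + j.1, by have := a.2; have := j.2; omega⟩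

theorem res_pt (k : ℕ) (a : Fin k) (j : Fin 3) : res k (pt k a j) = j := by
  apply Fin.ext
  simp only [res, pt]
  have := j.2
  omega

theorem pt_inj (k : ℕ) {a b : Fin k} {j l : Fin 3} (h : pt k a j = pt k b l) : a = b ∧ j = l := by
  have h1 := congrArg (res k) h
  rw [res_pt, res_pt] at h1
  have h2 := congrArg Fin.val h
  simp only [pt] at h2
  subst h1
  refine ⟨Fin.ext ?_, rfl⟩
  omega

def tri (k : ℕ) (p : Fin k × Fin k × Fin k) : Finset (Fin (3 * k)) :=
  {pt k p.1 0, pt k p.2.1 1, pt k p.2.2 2}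

theorem tri_inj (k : ℕ) : Function.Injective (tri k) := by
  rintro ⟨a, b, c⟩ ⟨a', b', c'⟩ h
  simp only [tri] at h
  have h0 : pt k a 0 ∈ ({pt k a' 0, pt k b' 1, pt k c' 2} : Finset (Fin (3 * k))) := by
    rw [← h]; simp
  have h1 : pt k b 1 ∈ ({pt k a' 0, pt k b' 1, pt k c' 2} : Finset (Fin (3 * k))) := by
    rw [← h]; simp
  have h2 : pt k c 2 ∈ ({pt k a' 0, pt k b' 1, pt k c' 2} : Finset (Fin (3 * k))) := by
    rw [← h]; simp
  simp only [mem_insert, mem_singleton] at h0 h1 h2
  have e0 : a = a' := by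
    rcases h0 with h | h | h
    · exact (pt_inj k h).1
    · exact absurd (pt_inj k h).2 (by decide)
    · exact absurd (pt_inj k h).2 (by decide)
  have e1 : b = b' := by
    rcases h1 with h | h | h
    · exact absurd (pt_inj k h).2 (by decide)
    · exact (pt_inj k h).1
    · exact absurd (pt_inj k h).2 (by decide)
  have e2 : c = c' := by
    rcases h2 with h | h | h
    · exact absurd (pt_inj k h).2 (by decide)
    · exact absurd (pt_inj k h).2 (by decide)
    · exact (pt_inj k h).1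
  rw [e0, e1, e2]

theorem tri_mem (k : ℕ) (p : Fin k × Fin k × Fin k) :
    tri k p ∈ pull ({univ} : Finset (Finset (Fin 3))) (res k) := by
  rw [mem_pull]
  have himg : (tri k p).image (res k) = univ := by
    simp only [tri, image_insert, image_singleton, res_pt]
    decide
  refine ⟨?_, by rw [himg]; simp⟩
  have h1 : (tri k p).card ≤ 3 := card_le_three
  have h2 : 3 ≤ (tri k p).card := by
    have := card_image_le (s := tri k p) (f := res k)
    rw [himg] at this
    simpa using this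
  omega

theorem card_tripartite (k : ℕ) : k ^ 3 ≤ (pull ({univ} : Finset (Finset (Fin 3))) (res k)).card := by
  have h := card_le_card_of_injOn (s := (univ : Finset (Fin k × Fin k × Fin k)))
    (t := pull ({univ} : Finset (Finset (Fin 3))) (res k)) (tri k)
    (fun p _ => tri_mem k p) (fun _ _ _ _ h => tri_inj k h)
  rw [card_univ, Fintype.card_prod, Fintype.card_prod, Fintype.card_fin] at h
  calc k ^ 3 = k * (k * k) := by ring
    _ ≤ _ := h

theorem free_three {r : ℕ} (hr : 4 ≤ r) : Free r 3 ({univ} : Finset (Finset (Fin 3))) := by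
  refine ⟨fun e he => by rw [mem_singleton] at he; subst he; simp, fun S hS => ?_⟩
  have := card_le_univ S
  rw [Fintype.card_fin] at this
  omega

theorem pow_le_exP {r : ℕ} (hr : 4 ≤ r) (k : ℕ) : k ^ 3 ≤ exP (Free r) (3 * k) :=
  (card_tripartite k).trans (le_exP (free_pull (by omega) (free_three hr) _))

theorem choose_three (n : ℕ) : ((n.choose 3 : ℕ) : ℝ) * 6 = n * (n - 1) * (n - 2) := by
  have h := Nat.descFactorial_eq_factorial_mul_choose n 3
  have h2 : (n.descFactorial 3 : ℝ) = n * (n - 1) * (n - 2) := by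
    rcases Nat.lt_or_ge n 3 with h3 | h3
    · interval_cases n <;> norm_num [Nat.descFactorial]
    · have : n.descFactorial 3 = (n - 2) * ((n - 1) * (n * 1)) := by
        simp [Nat.descFactorial_succ]
      rw [this]
      push_cast [Nat.cast_sub (show 2 ≤ n by omega), Nat.cast_sub (show 1 ≤ n by omega)]
      ring
  have h3 : (n.descFactorial 3 : ℝ) = 6 * (n.choose 3 : ℝ) := by
    rw [h]; norm_num [Nat.factorial]
  linarith

theorem f_three {r : ℕ} (hr : 4 ≤ r) {k : ℕ} (hk : 1 ≤ k) : 2 / 9 ≤ f r (3 * k) := by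
  unfold f
  have hc : (0 : ℝ) < ((3 * k).choose 3 : ℝ) := by exact_mod_cast Nat.choose_pos (by omega)
  rw [le_div_iff₀ hc]
  have h1 : ((k ^ 3 : ℕ) : ℝ) ≤ (exP (Free r) (3 * k) : ℝ) := by exact_mod_cast pow_le_exP hr k
  have h2 := choose_three (3 * k)
  push_cast at h1 h2
  have hk' : (1 : ℝ) ≤ k := by exact_mod_cast hk
  nlinarith

theorem inf_pos {r : ℕ} (hr : 4 ≤ r) : 0 < (⨅ n, f r (n + 3)) := by
  have h : (2 / 9 : ℝ) ≤ ⨅ n, f r (n + 3) := by
    refine le_ciInf fun n => ?_
    have h1 : f r (3 * n + 3) ≤ f r (n + 3) := f_anti (r := r) (by omega) (by omega : n ≤ 3 * n)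
    have h2 : 2 / 9 ≤ f r (3 * (n + 1)) := f_three hr (by omega)
    rw [show 3 * (n + 1) = 3 * n + 3 by ring] at h2
    exact h2.trans h1
  linarith

theorem kr : S_KR := fun r hr =>
  ⟨cls_free (by omega), ⨅ n, f r (n + 3), inf_pos hr, inf_lt_one (by omega), tendsto_f (by omega)⟩

theorem cov : S_COV := by
  intro r n hr
  have hcp : ((univ : Finset (Fin n)).powersetCard 3).card = n.choose 3 := by
    rw [card_powersetCard, card_univ, Fintype.card_fin]
  -- the complement of an extremal 3-graph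
  obtain ⟨H, hH, hc⟩ := exists_extremal hr n
  have hne : ({m : ℕ | ∃ T : Finset (Finset (Fin n)), (∀ e ∈ T, e.card = 3) ∧
      (∀ S : Finset (Fin n), S.card = r → ∃ e ∈ T, e ⊆ S) ∧ T.card = m}).Nonempty := by
    refine ⟨_, (univ : Finset (Fin n)).powersetCard 3 \ H, ?_, ?_, rfl⟩
    · intro e he
      exact (mem_powersetCard.1 (mem_sdiff.1 he).1).2
    · intro S hS
      obtain ⟨e, heS, hec, heH⟩ := hH.2 S hS
      exact ⟨e, by rw [mem_sdiff, mem_powersetCard]; exact ⟨⟨subset_univ _, hec⟩, heH⟩, heS⟩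
  have h1 : Pool.Agent.H70.RC.cov r n ≤ n.choose 3 - exP (Free r) n := by
    refine Nat.sInf_le ⟨(univ : Finset (Fin n)).powersetCard 3 \ H, ?_, ?_, ?_⟩
    · intro e he
      exact (mem_powersetCard.1 (mem_sdiff.1 he).1).2
    · intro S hS
      obtain ⟨e, heS, hec, heH⟩ := hH.2 S hS
      exact ⟨e, by rw [mem_sdiff, mem_powersetCard]; exact ⟨⟨subset_univ _, hec⟩, heH⟩, heS⟩
    · rw [card_sdiff_of_subset (free_subset hH), hcp, hc]
  obtain ⟨T, hT3, hTS, hTc⟩ := Nat.sInf_mem hne
  have hTsub : T ⊆ (univ : Finset (Fin n)).powersetCard 3 := fun e he => by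
    rw [mem_powersetCard]; exact ⟨subset_univ _, hT3 e he⟩
  have h2 : n.choose 3 - Pool.Agent.H70.RC.cov r n ≤ exP (Free r) n := by
    have hfree : Free r n ((univ : Finset (Fin n)).powersetCard 3 \ T) := by
      refine ⟨fun e he => (mem_powersetCard.1 (mem_sdiff.1 he).1).2, fun S hS => ?_⟩
      obtain ⟨e, heT, heS⟩ := hTS S hS
      exact ⟨e, heS, hT3 e heT, fun h => (mem_sdiff.1 h).2 heT⟩
    have h3 := le_exP hfree
    rw [card_sdiff_of_subset hTsub, hcp, hTc] at h3
    exact h3
  have h4 := exP_le hr n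
  have h5 : Pool.Agent.H70.RC.cov r n ≤ n.choose 3 := h1.trans (Nat.sub_le _ _)
  omega

end Pool.Agent.H70.RC.KR
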