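import Pool.Agent.H70.RC.Stm

/-! Random blow-ups with independent vertices: `S_MD`, by induction on the number of the random vertices
(condition on one of the random vertices). -/

set_option autoImplicit false
open Finset

namespace Pool.Agent.H70.RC.MD

open Pool.Agent.H70.RC

variable {V : Type} [Fintype V]

omit [Fintype V] in
theorem base {χ : V → V → V → ℝ} {X : Type} [Fintype X] {M : ℝ} (h : Bd χ (Fintype.card X) M) (s : X → V) :
    ∑ x, ∑ y, ∑ z, χ (s x) (s y) (s z) ≤ M := by
  have e := Fintype.equivFin X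
  have h1 := h (s ∘ e.symm)
  refine le_trans (le_of_eq ?_) h1
  rw [← Equiv.sum_comp e.symm]
  refine sum_congr rfl fun i _ => ?_
  rw [← Equiv.sum_comp e.symm]
  refine sum_congr rfl fun j _ => ?_
  rw [← Equiv.sum_comp e.symm]
  rfl

theorem lin (c1 c2 c3 c4 : ℝ) (f g h k : V → ℝ) :
    av (fun v => c1 * f v + c2 * g v + c3 * h v + c4 * k v) = c1 * av f + c2 * av g + c3 * av h + c4 * av k := by
  rw [av_add, av_add, av_add, av_mul_left, av_mul_left, av_mul_left, av_mul_left]

/-- one more vertex -/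
def ex {X : Type} (s : X → V) (v : V) : Option X → V := fun o => o.elim v s

omit [Fintype V] in
theorem dg' {χ : V → V → V → ℝ} (hχ : Ker χ) (x v : V) : χ x v v = 0 := by
  rw [hχ.s1, hχ.s2]
  exact hχ.dg v x

omit [Fintype V] in
theorem dg'' {χ : V → V → V → ℝ} (hχ : Ker χ) (x v : V) : χ v x v = 0 := by
  rw [hχ.s2]
  exact hχ.dg v x

theorem sum3 {χ : V → V → V → ℝ} (hχ : Ker χ) {X : Type} [Fintype X] (s : X → V) (v : V) :
    ∑ x, ∑ y, ∑ z, χ (ex s v x) (ex s v y) (ex s v z) =
      (∑ x, ∑ y, ∑ z, χ (s x) (s y) (s z)) + 3 * ∑ x, ∑ y, χ (s x) (s y) v := by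
  simp only [Fintype.sum_option, ex, Option.elim]
  simp only [hχ.dg, dg' hχ, dg'' hχ, sum_const_zero, zero_add, add_zero, sum_add_distrib]
  have h1 : ∀ x y, χ v (s x) (s y) = χ (s x) (s y) v := fun x y => by rw [hχ.s1, hχ.s2]
  have h2 : ∀ x y, χ (s x) v (s y) = χ (s x) (s y) v := fun x y => by rw [hχ.s2]
  simp only [h1, h2]
  ring

theorem sum2 {χ : V → V → V → ℝ} (hχ : Ker χ) (ρ : V → ℝ) {X : Type} [Fintype X] (s : X → V) (v : V) :
    ∑ x, ∑ y, av (fun w => ρ w * χ (ex s v x) (ex s v y) w) =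
      (∑ x, ∑ y, av fun w => ρ w * χ (s x) (s y) w) + 2 * ∑ x, av fun w => ρ w * χ (s x) v w := by
  simp only [Fintype.sum_option, ex, Option.elim]
  simp only [hχ.dg, mul_zero, av_zero, zero_add, sum_add_distrib]
  have h1 : ∀ x w, χ v (s x) w = χ (s x) v w := fun x w => by rw [hχ.s1]
  simp only [h1]
  ring

theorem sum1 (χ : V → V → V → ℝ) (ρ : V → ℝ) {X : Type} [Fintype X] (s : X → V) (v : V) :
    ∑ x, av (fun u => av fun w => ρ u * ρ w * χ (ex s v x) u w) =
      (∑ x, av fun u => av fun w => ρ u * ρ w * χ (s x) u w) + av fun u => av fun w => ρ u * ρ w * χ v u w := by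
  simp only [Fintype.sum_option, ex, Option.elim]
  ring

theorem key (χ : V → V → V → ℝ) (hχ : Ker χ) (ρ : V → ℝ) (hρ : ∀ v, 0 ≤ ρ v) (h1 : av ρ = 1) (M : ℝ) (m : ℕ) :
    ∀ (X : Type) [Fintype X], Bd χ (Fintype.card X + m) M → ∀ s : X → V,
    (∑ x, ∑ y, ∑ z, χ (s x) (s y) (s z))
      + 3 * m * (∑ x, ∑ y, av fun v => ρ v * χ (s x) (s y) v)
      + 3 * m * (m - 1) * (∑ x, av fun v => av fun w => ρ v * ρ w * χ (s x) v w)
      + m * (m - 1) * (m - 2) * (av fun u => av fun v => av fun w => ρ u * ρ v * ρ w * χ u v w) ≤ M := by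
  induction m with
  | zero =>
    intro X _ hB s
    have := base (by simpa using hB) s
    simpa using this
  | succ m ih =>
    intro X _ hB s
    have hB' : Bd χ (Fintype.card (Option X) + m) M := by
      rw [Fintype.card_option]
      convert hB using 1
      omega
    set T := ∑ x, ∑ y, ∑ z, χ (s x) (s y) (s z) with hT
    set A1 := ∑ x, ∑ y, av fun v => ρ v * χ (s x) (s y) v with hA1
    set A2 := ∑ x, av fun v => av fun w => ρ v * ρ w * χ (s x) v w with hA2
    set P := av fun u => av fun v => av fun w => ρ u * ρ v * ρ w * χ u v w with hP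
    have hv : ∀ v : V, (T + 3 * ∑ x, ∑ y, χ (s x) (s y) v)
        + 3 * m * (A1 + 2 * ∑ x, av fun w => ρ w * χ (s x) v w)
        + 3 * m * (m - 1) * (A2 + av fun u => av fun w => ρ u * ρ w * χ v u w)
        + m * (m - 1) * (m - 2) * P ≤ M := by
      intro v
      have h2 := ih (Option X) hB' (ex s v)
      rw [sum3 hχ, sum2 hχ, sum1] at h2
      exact h2
    have e1 : av (fun v => ρ v * ∑ x, ∑ y, χ (s x) (s y) v) = A1 := by
      have : ∀ v, ρ v * ∑ x, ∑ y, χ (s x) (s y) v = ∑ x, ∑ y, ρ v * χ (s x) (s y) v := fun v => by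
        rw [mul_sum]
        exact sum_congr rfl fun x _ => mul_sum _ _ _
      rw [av_congr this, av_sum]
      exact sum_congr rfl fun x _ => av_sum _ _
    have e2 : av (fun v => ρ v * ∑ x, av fun w => ρ w * χ (s x) v w) = A2 := by
      have : ∀ v, ρ v * ∑ x, (av fun w => ρ w * χ (s x) v w) = ∑ x, av fun w => ρ v * ρ w * χ (s x) v w :=
        fun v => by
        rw [mul_sum]
        refine sum_congr rfl fun x _ => ?_
        rw [← av_mul_left]
        exact av_congr fun w => by ring
      rw [av_congr this, av_sum]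
    have e3 : av (fun v => ρ v * av fun u => av fun w => ρ u * ρ w * χ v u w) = P := by
      refine av_congr fun v => ?_
      rw [← av_mul_left]
      refine av_congr fun u => ?_
      rw [← av_mul_left]
      exact av_congr fun w => by ring
    have h3 : av (fun v => ρ v * ((T + 3 * ∑ x, ∑ y, χ (s x) (s y) v)
        + 3 * m * (A1 + 2 * ∑ x, av fun w => ρ w * χ (s x) v w)
        + 3 * m * (m - 1) * (A2 + av fun u => av fun w => ρ u * ρ w * χ v u w)
        + m * (m - 1) * (m - 2) * P)) ≤ av fun v => ρ v * M :=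
      av_mono fun v => mul_le_mul_of_nonneg_left (hv v) (hρ v)
    rw [av_mul_right, h1, one_mul] at h3
    have h4 : av (fun v => ρ v * ((T + 3 * ∑ x, ∑ y, χ (s x) (s y) v)
        + 3 * m * (A1 + 2 * ∑ x, av fun w => ρ w * χ (s x) v w)
        + 3 * m * (m - 1) * (A2 + av fun u => av fun w => ρ u * ρ w * χ v u w)
        + m * (m - 1) * (m - 2) * P)) =
        (T + 3 * m * A1 + 3 * m * (m - 1) * A2 + m * (m - 1) * (m - 2) * P) * av ρ +
          3 * av (fun v => ρ v * ∑ x, ∑ y, χ (s x) (s y) v) +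
          6 * m * av (fun v => ρ v * ∑ x, av fun w => ρ w * χ (s x) v w) +
          3 * m * (m - 1) * av (fun v => ρ v * av fun u => av fun w => ρ u * ρ w * χ v u w) := by
      rw [← lin]
      exact av_congr fun v => by ring
    rw [h4, e1, e2, e3, h1] at h3
    push_cast
    linarith

/-- RC-MD -/
theorem md : S_MD := by
  intro V X _ _ _ χ hχ m M hB s ρ hρ h1
  exact key χ hχ ρ hρ h1 M m X hB s

end Pool.Agent.H70.RC.MD
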