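import Pool.Agent.H70.RC.Stm

/-! Rademacher sums and chaos. -/

set_option autoImplicit false
open Finset

namespace Pool.Agent.H70.RC.RAD

open Pool.Agent.H70.RC

theorem av_bool (f : Bool → ℝ) : av f = (f true + f false) / 2 := by
  unfold av
  rw [Fintype.sum_bool, Fintype.card_bool]
  norm_num

theorem av_cons {k : ℕ} (f : (Fin (k + 1) → Bool) → ℝ) :
    av f = av fun η : Fin k → Bool => av fun b : Bool => f (Fin.cons b η) := by
  rw [← av_comm (fun (b : Bool) (η : Fin k → Bool) => f (Fin.cons b η)),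
    ← av_prod (fun (b : Bool) (η : Fin k → Bool) => f (Fin.cons b η)),
    ← av_equiv (Fin.consEquiv fun _ => Bool) f]
  rfl

theorem sum_cons {k : ℕ} (c : Fin (k + 1) → ℝ) (b : Bool) (η : Fin k → Bool) :
    ∑ i, sg ((Fin.cons b η : Fin (k + 1) → Bool) i) * c i =
      sg b * c 0 + ∑ i, sg (η i) * c i.succ := by
  rw [Fin.sum_univ_succ]
  simp

theorem two (S c : ℝ) : (av fun b : Bool => (sg b * c + S) ^ 2) = S ^ 2 + c ^ 2 := by
  rw [av_bool]
  unfold sg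
  simp
  ring

theorem four (S c : ℝ) :
    (av fun b : Bool => (sg b * c + S) ^ 4) = S ^ 4 + 6 * c ^ 2 * S ^ 2 + c ^ 4 := by
  rw [av_bool]
  unfold sg
  simp
  ring

theorem r1 (k : ℕ) : ∀ c : Fin k → ℝ,
    av (fun ε : Fin k → Bool => (∑ i, sg (ε i) * c i) ^ 2) = ∑ i, c i ^ 2 := by
  induction k with
  | zero => intro c; simp [av_zero]
  | succ k ih =>
    intro c
    rw [av_cons]
    have h : ∀ η : Fin k → Bool, (av fun b : Bool =>
        (∑ i, sg ((Fin.cons b η : Fin (k + 1) → Bool) i) * c i) ^ 2) =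
        (∑ i, sg (η i) * c i.succ) ^ 2 + c 0 ^ 2 := by
      intro η
      rw [← two]
      exact av_congr fun b => by rw [sum_cons]
    rw [av_congr h, av_add, ih (fun i => c i.succ), av_const, Fin.sum_univ_succ]
    ring

theorem r2 (k : ℕ) : ∀ c : Fin k → ℝ,
    av (fun ε : Fin k → Bool => (∑ i, sg (ε i) * c i) ^ 4) ≤ 3 * (∑ i, c i ^ 2) ^ 2 := by
  induction k with
  | zero => intro c; simp [av_zero]
  | succ k ih =>
    intro c
    rw [av_cons]
    have h : ∀ η : Fin k → Bool, (av fun b : Bool =>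
        (∑ i, sg ((Fin.cons b η : Fin (k + 1) → Bool) i) * c i) ^ 4) =
        (∑ i, sg (η i) * c i.succ) ^ 4 + 6 * c 0 ^ 2 * (∑ i, sg (η i) * c i.succ) ^ 2
          + c 0 ^ 4 := by
      intro η
      rw [← four]
      exact av_congr fun b => by rw [sum_cons]
    rw [av_congr h, av_add, av_add, av_mul_left, r1 k (fun i => c i.succ), av_const,
      Fin.sum_univ_succ]
    have h1 := ih (fun i => c i.succ)
    have h2 : 0 ≤ c 0 ^ 4 := by positivity
    nlinarith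

theorem pt (z τ : ℝ) (hτ : 0 ≤ τ) : 3 / 2 * τ * z ^ 2 - 1 / 2 * τ ^ 3 * z ^ 4 ≤ |z| := by
  rcases hτ.eq_or_lt with rfl | hpos
  · simp
  · have hz := abs_nonneg z
    have e2 : z ^ 2 = |z| ^ 2 := (sq_abs z).symm
    have e4 : z ^ 4 = |z| ^ 4 := by
      rw [show z ^ 4 = (z ^ 2) ^ 2 by ring, e2]; ring
    rw [e2, e4]
    set y := |z|
    have h : 0 ≤ τ * y * (τ * y - 1) ^ 2 * (τ * y + 2) / 2 := by positivity
    have e : τ * y * (τ * y - 1) ^ 2 * (τ * y + 2) / 2 =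
        τ * (y - (3 / 2 * τ * y ^ 2 - 1 / 2 * τ ^ 3 * y ^ 4)) := by ring
    rw [e] at h
    have := (mul_nonneg_iff_of_pos_left hpos).1 h
    linarith

theorem r3 (k : ℕ) (c : Fin k → ℝ) (τ : ℝ) (hτ : 0 ≤ τ) :
    3 / 2 * τ * (∑ i, c i ^ 2) - 3 / 2 * τ ^ 3 * (∑ i, c i ^ 2) ^ 2
      ≤ av fun ε : Fin k → Bool => |∑ i, sg (ε i) * c i| := by
  have h1 := av_mono fun ε : Fin k → Bool => pt (∑ i, sg (ε i) * c i) τ hτ
  rw [av_sub, av_mul_left, av_mul_left, r1] at h1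
  have h2 := r2 k c
  have h3 : 0 ≤ τ ^ 3 := by positivity
  nlinarith

theorem inner (k : ℕ) (X : Fin k → Fin k → ℝ) (ε η : Fin k → Bool) :
    ∑ i, ∑ j, sg (ε i) * sg (η j) * X i j = ∑ i, sg (ε i) * ∑ j, sg (η j) * X i j := by
  refine sum_congr rfl fun i _ => ?_
  rw [mul_sum]
  exact sum_congr rfl fun j _ => by ring

theorem r4 (k : ℕ) (X : Fin k → Fin k → ℝ) :
    av (fun ε : Fin k → Bool => av fun η : Fin k → Bool =>
      (∑ i, ∑ j, sg (ε i) * sg (η j) * X i j) ^ 2) = ∑ i, ∑ j, X i j ^ 2 := by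
  rw [av_comm]
  have h : ∀ η : Fin k → Bool, (av fun ε : Fin k → Bool =>
      (∑ i, ∑ j, sg (ε i) * sg (η j) * X i j) ^ 2) = ∑ i, (∑ j, sg (η j) * X i j) ^ 2 := by
    intro η
    rw [← r1 k fun i => ∑ j, sg (η j) * X i j]
    exact av_congr fun ε => by rw [inner]
  rw [av_congr h, av_sum]
  exact sum_congr rfl fun i _ => r1 k (X i)

theorem r5 (k : ℕ) (X : Fin k → Fin k → ℝ) (B : ℝ) (hB : ∀ i j, |X i j| ≤ B) :
    av (fun ε : Fin k → Bool => av fun η : Fin k → Bool =>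
      (∑ i, ∑ j, sg (ε i) * sg (η j) * X i j) ^ 4) ≤ 9 * (k : ℝ) ^ 4 * B ^ 4 := by
  rw [av_comm]
  have h : ∀ η : Fin k → Bool, (av fun ε : Fin k → Bool =>
      (∑ i, ∑ j, sg (ε i) * sg (η j) * X i j) ^ 4) ≤
      3 * k * ∑ i, (∑ j, sg (η j) * X i j) ^ 4 := by
    intro η
    have h1 := r2 k fun i => ∑ j, sg (η j) * X i j
    have h2 : (av fun ε : Fin k → Bool => (∑ i, ∑ j, sg (ε i) * sg (η j) * X i j) ^ 4) =
        av (fun ε : Fin k → Bool => (∑ i, sg (ε i) * ∑ j, sg (η j) * X i j) ^ 4) :=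
      av_congr fun ε => by rw [inner]
    rw [h2]
    refine h1.trans ?_
    have h3 := sq_sum_le_card_mul_sum_sq (s := (univ : Finset (Fin k)))
      (f := fun i => (∑ j, sg (η j) * X i j) ^ 2)
    rw [card_univ, Fintype.card_fin] at h3
    have h4 : ∑ i : Fin k, ((∑ j, sg (η j) * X i j) ^ 2) ^ 2 =
        ∑ i : Fin k, (∑ j, sg (η j) * X i j) ^ 4 := sum_congr rfl fun i _ => by ring
    rw [h4] at h3
    linarith
  refine (av_mono h).trans ?_
  rw [av_mul_left, av_sum]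
  have h5 : ∀ i, (av fun η : Fin k → Bool => (∑ j, sg (η j) * X i j) ^ 4) ≤
      3 * ((k : ℝ) * B ^ 2) ^ 2 := by
    intro i
    refine (r2 k (X i)).trans ?_
    have h6 : ∑ j, X i j ^ 2 ≤ (k : ℝ) * B ^ 2 := by
      have h7 : ∀ j ∈ (univ : Finset (Fin k)), X i j ^ 2 ≤ B ^ 2 := fun j _ =>
        sq_le_sq' (abs_le.1 (hB i j)).1 (abs_le.1 (hB i j)).2
      have := sum_le_card_nsmul _ _ _ h7
      rwa [card_univ, Fintype.card_fin, nsmul_eq_mul] at this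
    have h8 : 0 ≤ ∑ j, X i j ^ 2 := sum_nonneg fun j _ => sq_nonneg _
    have := pow_le_pow_left₀ h8 h6 2
    linarith
  have h9 : ∑ i : Fin k, (av fun η : Fin k → Bool => (∑ j, sg (η j) * X i j) ^ 4) ≤
      (k : ℝ) * (3 * ((k : ℝ) * B ^ 2) ^ 2) := by
    have := sum_le_card_nsmul (univ : Finset (Fin k)) _ _ fun i _ => h5 i
    rwa [card_univ, Fintype.card_fin, nsmul_eq_mul] at this
  have h10 : (0 : ℝ) ≤ 3 * k := by positivity
  calc 3 * (k : ℝ) * ∑ i : Fin k, (av fun η : Fin k → Bool => (∑ j, sg (η j) * X i j) ^ 4)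
      ≤ 3 * (k : ℝ) * ((k : ℝ) * (3 * ((k : ℝ) * B ^ 2) ^ 2)) := mul_le_mul_of_nonneg_left h9 h10
    _ = 9 * (k : ℝ) ^ 4 * B ^ 4 := by ring

theorem rad : S_RAD := ⟨r1, r2, r3, r4, r5⟩

end Pool.Agent.H70.RC.RAD
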