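import Pool.Agent.H70.RC.Stm

/-!
RC/REG (helper680 for helper70): the quadratic inequality for the degrees.
-/

set_option autoImplicit false
open Finset

namespace Pool.Agent.H70.RC.REG

variable {V : Type} [Fintype V]

/-- triple averages -/
noncomputable def A3 (F : V → V → V → ℝ) : ℝ := av fun u => av fun v => av fun w => F u v w

theorem A3_congr {F G : V → V → V → ℝ} (h : ∀ u v w, F u v w = G u v w) : A3 F = A3 G := by
  have : F = G := by funext u v w; exact h u v w
  rw [this]

theorem A3_add (F G : V → V → V → ℝ) :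
    A3 (fun u v w => F u v w + G u v w) = A3 F + A3 G := by
  unfold A3
  simp only [av_add]

theorem A3_mul (c : ℝ) (F : V → V → V → ℝ) : A3 (fun u v w => c * F u v w) = c * A3 F := by
  unfold A3
  simp only [av_mul_left]

theorem A3_mono {F G : V → V → V → ℝ} (h : ∀ u v w, F u v w ≤ G u v w) : A3 F ≤ A3 G :=
  av_mono fun u => av_mono fun v => av_mono fun w => h u v w

theorem A3_s1 (F : V → V → V → ℝ) : A3 (fun u v w => F v u w) = A3 F := by
  unfold A3
  exact av_comm (fun u v => av fun w => F v u w)

theorem A3_s2 (F : V → V → V → ℝ) : A3 (fun u v w => F u w v) = A3 F := by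
  unfold A3
  exact av_congr fun u => av_comm (fun v w => F u w v)

theorem A3_prod (f g h : V → ℝ) : A3 (fun u v w => f u * g v * h w) = av f * av g * av h := by
  unfold A3
  simp only [av_mul_left, av_mul_right]

end Pool.Agent.H70.RC.REG

namespace Pool.Agent.H70.RC.REG

theorem reg : S_REG := by
  intro V _ _ χ hχ p hp
  have c0 : ∀ x y z, 0 ≤ χ x y z := fun x y z => by
    rcases hχ.zo x y z with h | h <;> rw [h] <;> norm_num
  have c1 : ∀ x y z, χ x y z ≤ 1 := fun x y z => by
    rcases hχ.zo x y z with h | h <;> rw [h] <;> norm_num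
  have g0 : ∀ x, 0 ≤ deg χ x := fun x => av_nonneg fun y => av_nonneg fun z => c0 x y z
  have g1 : ∀ x, deg χ x ≤ 1 := fun x => av_le_of_le fun y => av_le_of_le fun z => c1 x y z
  have D0 : 0 ≤ dens χ := av_nonneg g0
  have D1 : dens χ ≤ 1 := av_le_of_le g1
  set D := dens χ with hD
  let d : V → ℝ := fun x => deg χ x - D
  have hd : ∀ x, |d x| ≤ 1 := fun x => by
    rw [abs_le]
    constructor
    · have := g0 x; simp only [d]; linarith
    · have := g1 x; simp only [d]; linarith
  have hav : av d = 0 := by
    have : av d = av (fun x => deg χ x) - av (fun _ : V => D) := av_sub _ _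
    rw [this, av_const]
    exact sub_self _
  have hv : vard χ = av fun x => d x ^ 2 := rfl
  have hv0 : 0 ≤ vard χ := by rw [hv]; exact av_nonneg fun x => sq_nonneg _
  -- the average of `|d|`
  set m := av (fun x => |d x|) with hm
  have m0 : 0 ≤ m := av_nonneg fun x => abs_nonneg _
  have m1 : m ≤ 1 := av_le_of_le hd
  have m2 : m ^ 2 ≤ vard χ := by
    have := av_sq_le (fun x => |d x|)
    simp only [sq_abs] at this
    exact this
  -- the test function
  have h1 := hp (fun x => 1 + d x / 2) (fun x => by
      have := (abs_le.1 (hd x)).1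
      linarith) (by
      have e : av (fun x => 1 + d x / 2) = av (fun _ : V => (1 : ℝ)) + av (fun x => 1 / 2 * d x) := by
        rw [← av_add]
        exact av_congr fun x => by ring
      rw [e, av_const, av_mul_left, hav]
      ring)
  -- expansion
  have hexp : (av fun u => av fun v => av fun w =>
      (1 + d u / 2) * (1 + d v / 2) * (1 + d w / 2) * χ u v w) =
      A3 χ + 1 / 2 * A3 (fun u v w => d u * χ u v w) + 1 / 2 * A3 (fun u v w => d v * χ u v w)
      + 1 / 2 * A3 (fun u v w => d w * χ u v w)
      + 1 / 4 * A3 (fun u v w => d u * d v * χ u v w)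
      + 1 / 4 * A3 (fun u v w => d u * d w * χ u v w)
      + 1 / 4 * A3 (fun u v w => d v * d w * χ u v w)
      + 1 / 8 * A3 (fun u v w => d u * d v * d w * χ u v w) := by
    simp only [← A3_mul, ← A3_add]
    exact A3_congr fun u v w => by ring
  have e1 : A3 (fun u v w => d u * χ u v w) = vard χ := by
    have h2 : A3 (fun u v w => d u * χ u v w) = av fun u => d u * deg χ u := by
      unfold A3 deg cod
      simp only [av_mul_left]
    have h3 : (av fun u => d u * deg χ u) = (av fun x => d x ^ 2) + av (fun x => D * d x) := by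
      rw [← av_add]
      exact av_congr fun x => by simp only [d]; ring
    rw [h2, h3, av_mul_left, hav, hv]
    ring
  have e2 : A3 (fun u v w => d v * χ u v w) = vard χ := by
    rw [← e1, ← A3_s1 (fun u v w => d u * χ u v w)]
    exact A3_congr fun u v w => by rw [hχ.s1 u v w]
  have e3 : A3 (fun u v w => d w * χ u v w) = vard χ := by
    rw [← e2, ← A3_s2 (fun u v w => d v * χ u v w)]
    exact A3_congr fun u v w => by rw [hχ.s2 u v w]
  have f1 : -(vard χ) ≤ A3 (fun u v w => d u * d v * χ u v w) := by
    have h2 : A3 (fun u v w => (-1) * (|d u| * |d v| * 1)) ≤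
        A3 (fun u v w => d u * d v * χ u v w) := by
      apply A3_mono
      intro u v w
      have h3 : |d u * d v * χ u v w| ≤ |d u| * |d v| * 1 := by
        rw [abs_mul, abs_mul, abs_of_nonneg (c0 u v w)]
        exact mul_le_mul_of_nonneg_left (c1 u v w) (mul_nonneg (abs_nonneg _) (abs_nonneg _))
      have := (abs_le.1 h3).1
      linarith
    rw [A3_mul, A3_prod (fun u => |d u|) (fun u => |d u|) (fun _ => 1), av_const] at h2
    have : av (fun u => |d u|) * av (fun u => |d u|) * 1 = m ^ 2 := by rw [← hm]; ring
    rw [this] at h2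
    linarith
  have e4 : A3 (fun u v w => d u * d w * χ u v w) = A3 (fun u v w => d u * d v * χ u v w) := by
    rw [← A3_s2 (fun u v w => d u * d v * χ u v w)]
    exact A3_congr fun u v w => by rw [hχ.s2 u v w]
  have e5 : A3 (fun u v w => d v * d w * χ u v w) = A3 (fun u v w => d u * d w * χ u v w) := by
    rw [← A3_s1 (fun u v w => d u * d w * χ u v w)]
    exact A3_congr fun u v w => by rw [hχ.s1 u v w]
  have f2 : -(vard χ) ≤ A3 (fun u v w => d u * d v * d w * χ u v w) := by
    have h2 : A3 (fun u v w => (-1) * (|d u| * |d v| * |d w|)) ≤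
        A3 (fun u v w => d u * d v * d w * χ u v w) := by
      apply A3_mono
      intro u v w
      have h3 : |d u * d v * d w * χ u v w| ≤ |d u| * |d v| * |d w| := by
        rw [abs_mul, abs_mul, abs_mul, abs_of_nonneg (c0 u v w)]
        exact mul_le_of_le_one_right (mul_nonneg (mul_nonneg (abs_nonneg _) (abs_nonneg _))
          (abs_nonneg _)) (c1 u v w)
      have := (abs_le.1 h3).1
      linarith
    rw [A3_mul, A3_prod (fun u => |d u|) (fun u => |d u|) (fun u => |d u|)] at h2
    have h4 : av (fun u => |d u|) * av (fun u => |d u|) * av (fun u => |d u|) ≤ m ^ 2 := by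
      rw [← hm]
      nlinarith [mul_nonneg (mul_nonneg m0 m0) (sub_nonneg.2 m1)]
    linarith
  rw [hexp, e1, e2, e3, e5, e4] at h1
  have e0 : A3 χ = D := rfl
  rw [e0] at h1
  linarith

end Pool.Agent.H70.RC.REG
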