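import Pool.Agent.H70.RC.A
import Pool.Agent.H70.RC.B5
import Pool.Agent.H70.RC.RAD
import Pool.Agent.H70.RC.MD
import Pool.Agent.H70.RC.REG
import Pool.Agent.H70.RC.FIN
import Pool.Agent.H70.RC.CLS
import Pool.Agent.H70.RC.KR

/-! Rate of convergence: the theorem. -/

set_option autoImplicit false
open Finset

namespace Pool.Agent.H70.RC

theorem main_cls : S_CLS :=
  CLS.cls MD.md REG.reg (A.sA RAD.rad MD.md) (sB RAD.rad MD.md) FIN.fin

end Pool.Agent.H70.RC
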