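import Pool.Agent.H70.RC.Samp

/-! Case B: the averaged inequality. -/

set_option autoImplicit false
set_option linter.unusedSectionVars false
open Finset

namespace Pool.Agent.H70.RC

variable {V : Type} [Fintype V] [Nonempty V] {χ : V → V → V → ℝ}

abbrev Ix (k : ℕ) : Type := Fin k ⊕ Fin k

def epsA (k : ℕ) : Ix k → Bool := Sum.elim (fun _ => true) (fun _ => false)
def epsB (k : ℕ) : Ix k → Bool := Sum.elim (fun _ => false) (fun _ => true)

theorem flipA_inl {k : ℕ} (γ : Ix k → V × V) (i : Fin k) : flipBy (epsA k) γ (Sum.inl i) = (γ (Sum.inl i)).swap := rfl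
theorem flipA_inr {k : ℕ} (γ : Ix k → V × V) (i : Fin k) : flipBy (epsA k) γ (Sum.inr i) = γ (Sum.inr i) := rfl
theorem flipB_inl {k : ℕ} (γ : Ix k → V × V) (i : Fin k) : flipBy (epsB k) γ (Sum.inl i) = γ (Sum.inl i) := rfl
theorem flipB_inr {k : ℕ} (γ : Ix k → V × V) (i : Fin k) : flipBy (epsB k) γ (Sum.inr i) = (γ (Sum.inr i)).swap := rfl

theorem deg_eq (χ : V → V → V → ℝ) (x : V) : deg χ x = av fun y => av fun z => χ x y z := rfl

/-- expansion of the cubic term -/
theorem cubic (hχ : Ker χ) (g : V → ℝ) :
    (av fun u => av fun v => av fun w => (1 + g u) * (1 + g v) * (1 + g w) * χ u v w)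
      = dens χ + 3 * (av fun u => g u * deg χ u) + 3 * (av fun u => av fun v => g u * g v * cod χ u v)
        + av fun u => av fun v => av fun w => g u * g v * g w * χ u v w := by
  have e : ∀ u v w, (1 + g u) * (1 + g v) * (1 + g w) * χ u v w
      = χ u v w + g u * χ u v w + g v * χ u v w + g w * χ u v w + g u * g v * χ u v w + g u * g w * χ u v w
        + g v * g w * χ u v w + g u * g v * g w * χ u v w := by intro u v w; ring
  simp only [e, av_add]
  have a1 : (av fun u => av fun v => av fun w => g u * χ u v w) = av fun u => g u * deg χ u := by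
    refine av_congr fun u => ?_
    simp only [av_mul_left]
    rfl
  have a2 : (av fun u => av fun v => av fun w => g v * χ u v w) = av fun u => g u * deg χ u := by
    rw [← a1, av_comm]
    refine av_congr fun u => av_congr fun v => av_congr fun w => ?_
    rw [hχ.s1]
  have a3 : (av fun u => av fun v => av fun w => g w * χ u v w) = av fun u => g u * deg χ u := by
    rw [← a2]
    refine av_congr fun u => ?_
    rw [av_comm]
    refine av_congr fun v => av_congr fun w => ?_
    rw [hχ.s2]
  have b1 : (av fun u => av fun v => av fun w => g u * g v * χ u v w) = av fun u => av fun v => g u * g v * cod χ u v := by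
    refine av_congr fun u => av_congr fun v => ?_
    rw [av_mul_left]
    rfl
  have b2 : (av fun u => av fun v => av fun w => g u * g w * χ u v w) = av fun u => av fun v => g u * g v * cod χ u v := by
    rw [← b1]
    refine av_congr fun u => ?_
    rw [av_comm]
    refine av_congr fun v => av_congr fun w => ?_
    rw [hχ.s2]
  have b3 : (av fun u => av fun v => av fun w => g v * g w * χ u v w) = av fun u => av fun v => g u * g v * cod χ u v := by
    rw [← b2, av_comm]
    refine av_congr fun u => av_congr fun v => av_congr fun w => ?_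
    rw [hχ.s1]
  rw [a1, a2, a3, b1, b2, b3]
  unfold dens
  ring

/-- expansion of the quadratic term -/
theorem quadratic (hχ : Ker χ) (g : V → ℝ) (x : V) :
    (av fun v => av fun w => (1 + g v) * (1 + g w) * χ x v w)
      = (av fun v => av fun w => χ x v w) + 2 * (av fun v => av fun w => g v * χ x v w)
        + av fun v => av fun w => g v * g w * χ x v w := by
  have e : ∀ v w, (1 + g v) * (1 + g w) * χ x v w
      = χ x v w + g v * χ x v w + g w * χ x v w + g v * g w * χ x v w := by intro v w; ring
  simp only [e, av_add]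
  have a2 : (av fun v => av fun w => g w * χ x v w) = av fun v => av fun w => g v * χ x v w := by
    rw [av_comm]
    refine av_congr fun v => av_congr fun w => ?_
    rw [hχ.s2]
  rw [a2]
  ring

/-- the averaged inequality -/
theorem masterB (hMD : S_MD) (hχ : Ker χ) {k m : ℕ} {M : ℝ} (hM : Bd χ (2 * k + m) M)
    (g : (Ix k → V × V) → V → ℝ) (hg1 : ∀ γ v, |g γ v| ≤ 1) (hg0 : ∀ γ, av (g γ) = 0)
    (hgA : ∀ γ v, g (flipBy (epsA k) γ) v = - g γ v) (hgB : ∀ γ v, g (flipBy (epsB k) γ) v = - g γ v) :
    dens χ * ((2 * k + m) * (2 * k + m - 1) * (2 * k + m - 2))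
      + 6 * m * (av fun γ : Ix k → V × V => ∑ i, ∑ j, av fun v => g γ v * χ (γ (Sum.inl i)).1 (γ (Sum.inr j)).1 v)
      + 3 * m * (m - 1) * (av fun γ : Ix k → V × V => ∑ x, av fun v => av fun w => g γ v * g γ w * χ (γ x).1 v w)
      + 3 * m * (m - 1) * (m - 2) * (av fun γ : Ix k → V × V => av fun u => av fun v => g γ u * g γ v * cod χ u v)
      ≤ M := by
  have hcard : Fintype.card (Ix k) + m = 2 * k + m := by
    simp [two_mul]
  have hcardR : (Fintype.card (Ix k) : ℝ) = 2 * k := by
    simp [two_mul]
  have h : ∀ γ : Ix k → V × V, _ ≤ M := fun γ => hMD V (Ix k) χ hχ m M (by rw [hcard]; exact hM)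
    (fun x => (γ x).1) (fun v => 1 + g γ v) (fun v => by have := (abs_le.1 (hg1 γ v)).1; linarith)
    (by rw [av_add, av_const, hg0, add_zero])
  have h2 := av_le_of_le h
  simp only [av_add, av_mul_left] at h2
  -- the linear terms
  have e1 : (av fun γ : Ix k → V × V => ∑ x, ∑ y, av fun v => (1 + g γ v) * χ (γ x).1 (γ y).1 v)
      = Fintype.card (Ix k) * (Fintype.card (Ix k) - 1) * dens χ
        + 2 * av fun γ : Ix k → V × V => ∑ i, ∑ j, av fun v => g γ v * χ (γ (Sum.inl i)).1 (γ (Sum.inr j)).1 v := by
    rw [← av_sample2 (X := Ix k) hχ]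
    have e : ∀ (γ : Ix k → V × V) x y, (av fun v => (1 + g γ v) * χ (γ x).1 (γ y).1 v)
        = (av fun v => χ (γ x).1 (γ y).1 v) + av fun v => g γ v * χ (γ x).1 (γ y).1 v := by
      intro γ x y
      rw [← av_add]
      exact av_congr fun v => by ring
    simp only [e, sum_add_distrib, av_add]
    congr 1
    -- AA and BB vanish
    have hAA : ∀ i j : Fin k, av (fun γ : Ix k → V × V => av fun v => g γ v * χ (γ (Sum.inl i)).1 (γ (Sum.inl j)).1 v) = 0 := by
      intro i j
      refine av_flip_neg (epsB k) _ fun γ => ?_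
      simp only [flipB_inl, hgB]
      rw [← av_neg]
      exact av_congr fun v => by ring
    have hBB : ∀ i j : Fin k, av (fun γ : Ix k → V × V => av fun v => g γ v * χ (γ (Sum.inr i)).1 (γ (Sum.inr j)).1 v) = 0 := by
      intro i j
      refine av_flip_neg (epsA k) _ fun γ => ?_
      simp only [flipA_inr, hgA]
      rw [← av_neg]
      exact av_congr fun v => by ring
    have hsplit : ∀ γ : Ix k → V × V, (∑ x, ∑ y, av fun v => g γ v * χ (γ x).1 (γ y).1 v)
        = (∑ i, ∑ j, av fun v => g γ v * χ (γ (Sum.inl i)).1 (γ (Sum.inl j)).1 v)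
          + (∑ i, ∑ j, av fun v => g γ v * χ (γ (Sum.inr i)).1 (γ (Sum.inr j)).1 v)
          + 2 * (∑ i, ∑ j, av fun v => g γ v * χ (γ (Sum.inl i)).1 (γ (Sum.inr j)).1 v) := by
      intro γ
      simp only [Fintype.sum_sum_type, sum_add_distrib]
      have : (∑ i : Fin k, ∑ j : Fin k, av fun v => g γ v * χ (γ (Sum.inr i)).1 (γ (Sum.inl j)).1 v)
          = ∑ i, ∑ j, av fun v => g γ v * χ (γ (Sum.inl i)).1 (γ (Sum.inr j)).1 v := by
        rw [sum_comm]
        refine sum_congr rfl fun i _ => sum_congr rfl fun j _ => av_congr fun v => ?_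
        rw [hχ.s1]
      rw [this]
      ring
    simp only [hsplit, av_add, av_mul_left]
    have z1 : (av fun γ : Ix k → V × V => ∑ i, ∑ j, av fun v => g γ v * χ (γ (Sum.inl i)).1 (γ (Sum.inl j)).1 v) = 0 := by
      rw [av_sum]
      refine sum_eq_zero fun i _ => ?_
      rw [av_sum]
      exact sum_eq_zero fun j _ => hAA i j
    have z2 : (av fun γ : Ix k → V × V => ∑ i, ∑ j, av fun v => g γ v * χ (γ (Sum.inr i)).1 (γ (Sum.inr j)).1 v) = 0 := by
      rw [av_sum]
      refine sum_eq_zero fun i _ => ?_
      rw [av_sum]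
      exact sum_eq_zero fun j _ => hBB i j
    rw [z1, z2]
    ring
  have e2 : (av fun γ : Ix k → V × V => ∑ x, av fun v => av fun w => (1 + g γ v) * (1 + g γ w) * χ (γ x).1 v w)
      = Fintype.card (Ix k) * dens χ
        + av fun γ : Ix k → V × V => ∑ x, av fun v => av fun w => g γ v * g γ w * χ (γ x).1 v w := by
    rw [← av_sample1 (X := Ix k) (χ := χ)]
    simp only [quadratic hχ, sum_add_distrib, av_add]
    have z : (av fun γ : Ix k → V × V => ∑ x, 2 * av fun v => av fun w => g γ v * χ (γ x).1 v w) = 0 := by
      rw [av_sum]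
      refine sum_eq_zero fun x _ => ?_
      rw [av_mul_left]
      have : av (fun γ : Ix k → V × V => av fun v => av fun w => g γ v * χ (γ x).1 v w) = 0 := by
        rcases x with i | i
        · refine av_flip_neg (epsB k) _ fun γ => ?_
          simp only [flipB_inl, hgB]
          rw [← av_neg]
          refine av_congr fun v => ?_
          rw [← av_neg]
          exact av_congr fun w => by ring
        · refine av_flip_neg (epsA k) _ fun γ => ?_
          simp only [flipA_inr, hgA]
          rw [← av_neg]
          refine av_congr fun v => ?_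
          rw [← av_neg]
          exact av_congr fun w => by ring
      rw [this, mul_zero]
    rw [z]
    ring
  have e3 : (av fun γ : Ix k → V × V => av fun u => av fun v => av fun w =>
        (1 + g γ u) * (1 + g γ v) * (1 + g γ w) * χ u v w)
      = dens χ + 3 * av fun γ : Ix k → V × V => av fun u => av fun v => g γ u * g γ v * cod χ u v := by
    simp only [cubic hχ, av_add, av_const, av_mul_left]
    have z1 : (av fun γ : Ix k → V × V => av fun u => g γ u * deg χ u) = 0 := by
      refine av_flip_neg (epsB k) _ fun γ => ?_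
      simp only [hgB]
      rw [← av_neg]
      exact av_congr fun v => by ring
    have z2 : (av fun γ : Ix k → V × V => av fun u => av fun v => av fun w => g γ u * g γ v * g γ w * χ u v w) = 0 := by
      refine av_flip_neg (epsB k) _ fun γ => ?_
      simp only [hgB]
      rw [← av_neg]
      refine av_congr fun u => ?_
      rw [← av_neg]
      refine av_congr fun v => ?_
      rw [← av_neg]
      exact av_congr fun w => by ring
    rw [z1, z2]
    ring
  rw [e1, e2, e3, av_sample3 hχ, hcardR] at h2
  refine le_trans (le_of_eq ?_) h2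
  ring

end Pool.Agent.H70.RC
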