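import Pool.Agent.H70.RC.B1

/-! Case B: the density and the main term. -/

set_option autoImplicit false
set_option linter.unusedSectionVars false
open Finset

namespace Pool.Agent.H70.RC

variable {V : Type} [Fintype V] [Nonempty V] {χ : V → V → V → ℝ}

/-- double difference -/
def dd (χ : V → V → V → ℝ) (p q : V × V) (v : V) : ℝ := χ p.1 q.1 v - χ p.2 q.1 v - χ p.1 q.2 v + χ p.2 q.2 v

theorem dd_swap1 (p q : V × V) (v : V) : dd χ p.swap q v = - dd χ p q v := by
  unfold dd; simp only [Prod.fst_swap, Prod.snd_swap]; ring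

theorem dd_swap2 (p q : V × V) (v : V) : dd χ p q.swap v = - dd χ p q v := by
  unfold dd; simp only [Prod.fst_swap, Prod.snd_swap]; ring

theorem dd_comm (hχ : Ker χ) (p q : V × V) (v : V) : dd χ p q v = dd χ q p v := by
  unfold dd
  rw [hχ.s1 p.1 q.1, hχ.s1 p.2 q.1, hχ.s1 p.1 q.2, hχ.s1 p.2 q.2]
  ring

theorem abs_dd_le (hχ : Ker χ) (p q : V × V) (v : V) : |dd χ p q v| ≤ 2 := by
  unfold dd
  have h1 := hχ.nonneg p.1 q.1 v
  have h2 := hχ.nonneg p.2 q.1 v
  have h3 := hχ.nonneg p.1 q.2 v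
  have h4 := hχ.nonneg p.2 q.2 v
  have g1 := hχ.le_one p.1 q.1 v
  have g2 := hχ.le_one p.2 q.1 v
  have g3 := hχ.le_one p.1 q.2 v
  have g4 := hχ.le_one p.2 q.2 v
  rw [abs_le]
  constructor <;> linarith

/-- the function `u` -/
noncomputable def uu (χ : V → V → V → ℝ) (k : ℕ) (γ : Ix k → V × V) (v : V) : ℝ :=
  (∑ i, ∑ j, dd χ (γ (Sum.inl i)) (γ (Sum.inr j)) v) / k

theorem uu_flipA {k : ℕ} (γ : Ix k → V × V) (v : V) : uu χ k (flipBy (epsA k) γ) v = - uu χ k γ v := by
  unfold uu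
  simp only [flipA_inl, flipA_inr, dd_swap1, sum_neg_distrib]
  ring

theorem uu_flipB {k : ℕ} (γ : Ix k → V × V) (v : V) : uu χ k (flipBy (epsB k) γ) v = - uu χ k γ v := by
  unfold uu
  simp only [flipB_inl, flipB_inr, dd_swap2, sum_neg_distrib]
  ring

/-- the density -/
noncomputable def gg (χ : V → V → V → ℝ) (θ : ℝ) (k : ℕ) (γ : Ix k → V × V) (v : V) : ℝ :=
  av fun w => Real.sin (θ * (uu χ k γ v - uu χ k γ w))

theorem abs_gg_le (θ : ℝ) (k : ℕ) (γ : Ix k → V × V) (v : V) : |gg χ θ k γ v| ≤ 1 :=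
  (abs_av_le _).trans (av_le_of_le fun _ => Real.abs_sin_le_one _)

theorem av_gg (θ : ℝ) (k : ℕ) (γ : Ix k → V × V) : av (gg χ θ k γ) = 0 := by
  have h : av (gg χ θ k γ) = - av (gg χ θ k γ) := by
    unfold gg
    conv_rhs => rw [av_comm, ← av_neg]
    refine av_congr fun v => ?_
    rw [← av_neg]
    refine av_congr fun w => ?_
    rw [← Real.sin_neg]
    congr 1
    ring
  linarith

theorem gg_neg {θ : ℝ} {k : ℕ} {γ γ' : Ix k → V × V} (h : ∀ v, uu χ k γ' v = - uu χ k γ v) (v : V) :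
    gg χ θ k γ' v = - gg χ θ k γ v := by
  unfold gg
  rw [← av_neg]
  refine av_congr fun w => ?_
  rw [h, h, ← Real.sin_neg]
  congr 1
  ring

theorem gg_flipA {θ : ℝ} {k : ℕ} (γ : Ix k → V × V) (v : V) :
    gg χ θ k (flipBy (epsA k) γ) v = - gg χ θ k γ v := gg_neg (fun v => uu_flipA γ v) v

theorem gg_flipB {θ : ℝ} {k : ℕ} (γ : Ix k → V × V) (v : V) :
    gg χ θ k (flipBy (epsB k) γ) v = - gg χ θ k γ v := gg_neg (fun v => uu_flipB γ v) v

/-- the main term -/
theorem main_eq {θ : ℝ} {k : ℕ} (hk : 0 < k) :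
    (av fun γ : Ix k → V × V => ∑ i, ∑ j, av fun v => gg χ θ k γ v * χ (γ (Sum.inl i)).1 (γ (Sum.inr j)).1 v)
      = k / 8 * av fun γ : Ix k → V × V => av fun v => av fun w =>
          (uu χ k γ v - uu χ k γ w) * Real.sin (θ * (uu χ k γ v - uu χ k γ w)) := by
  have hk' : (k : ℝ) ≠ 0 := by exact_mod_cast hk.ne'
  -- symmetrise over the flips
  have h1 : ∀ i j : Fin k, (av fun γ : Ix k → V × V => av fun v => gg χ θ k γ v * χ (γ (Sum.inl i)).1 (γ (Sum.inr j)).1 v)
      = 1 / 4 * av fun γ : Ix k → V × V => av fun v => gg χ θ k γ v * dd χ (γ (Sum.inl i)) (γ (Sum.inr j)) v := by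
    intro i j
    have a1 : (av fun γ : Ix k → V × V => av fun v => gg χ θ k γ v * χ (γ (Sum.inl i)).1 (γ (Sum.inr j)).1 v)
        = av fun γ : Ix k → V × V => av fun v => - (gg χ θ k γ v * χ (γ (Sum.inl i)).2 (γ (Sum.inr j)).1 v) := by
      rw [av_flip (epsA k)]
      refine av_congr fun γ => av_congr fun v => ?_
      rw [gg_flipA, flipA_inl, flipA_inr, Prod.fst_swap]
      ring
    have a2 : (av fun γ : Ix k → V × V => av fun v => gg χ θ k γ v * χ (γ (Sum.inl i)).1 (γ (Sum.inr j)).1 v)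
        = av fun γ : Ix k → V × V => av fun v => - (gg χ θ k γ v * χ (γ (Sum.inl i)).1 (γ (Sum.inr j)).2 v) := by
      rw [av_flip (epsB k)]
      refine av_congr fun γ => av_congr fun v => ?_
      rw [gg_flipB, flipB_inl, flipB_inr, Prod.fst_swap]
      ring
    have a3 : (av fun γ : Ix k → V × V => av fun v => gg χ θ k γ v * χ (γ (Sum.inl i)).1 (γ (Sum.inr j)).1 v)
        = av fun γ : Ix k → V × V => av fun v => gg χ θ k γ v * χ (γ (Sum.inl i)).2 (γ (Sum.inr j)).2 v := by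
      rw [a2, av_flip (epsA k)]
      refine av_congr fun γ => av_congr fun v => ?_
      rw [gg_flipA, flipA_inl, flipA_inr, Prod.fst_swap]
      ring
    have a4 : (av fun γ : Ix k → V × V => av fun v => gg χ θ k γ v * dd χ (γ (Sum.inl i)) (γ (Sum.inr j)) v)
        = (av fun γ : Ix k → V × V => av fun v => gg χ θ k γ v * χ (γ (Sum.inl i)).1 (γ (Sum.inr j)).1 v)
          + (av fun γ : Ix k → V × V => av fun v => - (gg χ θ k γ v * χ (γ (Sum.inl i)).2 (γ (Sum.inr j)).1 v))
          + (av fun γ : Ix k → V × V => av fun v => - (gg χ θ k γ v * χ (γ (Sum.inl i)).1 (γ (Sum.inr j)).2 v))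
          + (av fun γ : Ix k → V × V => av fun v => gg χ θ k γ v * χ (γ (Sum.inl i)).2 (γ (Sum.inr j)).2 v) := by
      simp only [← av_add]
      refine av_congr fun γ => av_congr fun v => ?_
      unfold dd
      ring
    rw [a4, ← a1, ← a2, ← a3]
    ring
  have h2 : (av fun γ : Ix k → V × V => ∑ i, ∑ j, av fun v => gg χ θ k γ v * χ (γ (Sum.inl i)).1 (γ (Sum.inr j)).1 v)
      = 1 / 4 * av fun γ : Ix k → V × V => av fun v => gg χ θ k γ v * (k * uu χ k γ v) := by
    rw [av_sum]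
    have : ∀ i : Fin k, (av fun γ : Ix k → V × V => ∑ j, av fun v => gg χ θ k γ v * χ (γ (Sum.inl i)).1 (γ (Sum.inr j)).1 v)
        = 1 / 4 * av fun γ : Ix k → V × V => ∑ j, av fun v => gg χ θ k γ v * dd χ (γ (Sum.inl i)) (γ (Sum.inr j)) v := by
      intro i
      rw [av_sum, av_sum, mul_sum]
      exact sum_congr rfl fun j _ => h1 i j
    rw [sum_congr rfl fun i _ => this i, ← mul_sum, ← av_sum]
    congr 1
    refine av_congr fun γ => ?_
    have h3 : ∀ i : Fin k, (∑ j, av fun v => gg χ θ k γ v * dd χ (γ (Sum.inl i)) (γ (Sum.inr j)) v)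
        = av fun v => ∑ j, gg χ θ k γ v * dd χ (γ (Sum.inl i)) (γ (Sum.inr j)) v := fun i => (av_sum _ _).symm
    rw [sum_congr rfl fun i _ => h3 i, ← av_sum]
    refine av_congr fun v => ?_
    simp_rw [← mul_sum]
    congr 1
    unfold uu
    field_simp
  rw [h2]
  have h4 : ∀ γ : Ix k → V × V, (av fun v => gg χ θ k γ v * (k * uu χ k γ v))
      = k / 2 * av fun v => av fun w =>
          (uu χ k γ v - uu χ k γ w) * Real.sin (θ * (uu χ k γ v - uu χ k γ w)) := by
    intro γ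
    have b1 : (av fun v => gg χ θ k γ v * (k * uu χ k γ v))
        = k * av fun v => av fun w => uu χ k γ v * Real.sin (θ * (uu χ k γ v - uu χ k γ w)) := by
      rw [← av_mul_left]
      refine av_congr fun v => ?_
      unfold gg
      rw [← av_mul_right, ← av_mul_left]
      exact av_congr fun w => by ring
    have b2 : (av fun v => av fun w => uu χ k γ w * Real.sin (θ * (uu χ k γ v - uu χ k γ w)))
        = - av fun v => av fun w => uu χ k γ v * Real.sin (θ * (uu χ k γ v - uu χ k γ w)) := by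
      rw [av_comm, ← av_neg]
      refine av_congr fun v => ?_
      rw [← av_neg]
      refine av_congr fun w => ?_
      rw [show θ * (uu χ k γ w - uu χ k γ v) = -(θ * (uu χ k γ v - uu χ k γ w)) by ring, Real.sin_neg]
      ring
    have b3 : (av fun v => av fun w => (uu χ k γ v - uu χ k γ w) * Real.sin (θ * (uu χ k γ v - uu χ k γ w)))
        = (av fun v => av fun w => uu χ k γ v * Real.sin (θ * (uu χ k γ v - uu χ k γ w)))
          - av fun v => av fun w => uu χ k γ w * Real.sin (θ * (uu χ k γ v - uu χ k γ w)) := by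
      simp only [← av_sub]
      exact av_congr fun v => av_congr fun w => by ring
    rw [b1, b3, b2]
    ring
  simp only [h4, av_mul_left]
  ring

theorem sin_lower (y : ℝ) : y ^ 2 - 2 * y ^ 4 ≤ y * Real.sin y := by
  have key : ∀ x : ℝ, 0 < x → x ^ 2 - 2 * x ^ 4 ≤ x * Real.sin x := by
    intro x hx
    have h1 := Real.sin_gt_sub_cube hx
    have h2 : x * (x - x ^ 3 / 6) ≤ x * Real.sin x := mul_le_mul_of_nonneg_left h1.le hx.le
    nlinarith [pow_nonneg hx.le 4]
  rcases lt_trichotomy y 0 with h | h | h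
  · have := key (-y) (by linarith)
    rw [Real.sin_neg] at this
    nlinarith
  · subst h; simp
  · exact key y h

theorem main_pointwise {θ : ℝ} (hθ : 0 ≤ θ) (x : ℝ) : θ * x ^ 2 - 2 * θ ^ 3 * x ^ 4 ≤ x * Real.sin (θ * x) := by
  rcases hθ.eq_or_lt with h | h
  · subst h; simp
  · have h1 := sin_lower (θ * x)
    have h2 : θ * (θ * x ^ 2 - 2 * θ ^ 3 * x ^ 4) ≤ θ * (x * Real.sin (θ * x)) := by
      calc θ * (θ * x ^ 2 - 2 * θ ^ 3 * x ^ 4) = (θ * x) ^ 2 - 2 * (θ * x) ^ 4 := by ring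
        _ ≤ θ * x * Real.sin (θ * x) := h1
        _ = _ := by ring
    exact le_of_mul_le_mul_left h2 h

end Pool.Agent.H70.RC
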