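import Pool.Agent.H70.RC.B2

/-! Case B: moments of the differences. -/

set_option autoImplicit false
set_option linter.unusedSectionVars false
open Finset

namespace Pool.Agent.H70.RC

variable {V : Type} [Fintype V] [Nonempty V] {χ : V → V → V → ℝ}

theorem dd_flip {k : ℕ} (ε η : Fin k → Bool) (γ : Ix k → V × V) (i j : Fin k) (v : V) :
    dd χ (flipBy (Sum.elim ε η) γ (Sum.inl i)) (flipBy (Sum.elim ε η) γ (Sum.inr j)) v
      = sg (ε i) * sg (η j) * dd χ (γ (Sum.inl i)) (γ (Sum.inr j)) v := by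
  unfold flipBy sg
  simp only [Sum.elim_inl, Sum.elim_inr]
  by_cases h1 : ε i <;> by_cases h2 : η j <;> simp [h1, h2, dd_swap1, dd_swap2]

/-- average over both families of flips -/
theorem av_flip2 {k : ℕ} (F : (Ix k → V × V) → ℝ) :
    av F = av fun γ : Ix k → V × V => av fun ε : Fin k → Bool => av fun η : Fin k → Bool =>
      F (flipBy (Sum.elim ε η) γ) := by
  rw [av_comm]
  have h : ∀ ε : Fin k → Bool, (av fun γ : Ix k → V × V => av fun η : Fin k → Bool =>
      F (flipBy (Sum.elim ε η) γ)) = av F := by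
    intro ε
    rw [av_comm]
    have h' : ∀ η : Fin k → Bool, (av fun γ : Ix k → V × V => F (flipBy (Sum.elim ε η) γ)) = av F :=
      fun η => (av_flip (Sum.elim ε η) F).symm
    rw [av_congr h', av_const]
  rw [av_congr h, av_const]

/-- the difference of `u` -/
theorem uu_sub_flip {k : ℕ} (ε η : Fin k → Bool) (γ : Ix k → V × V) (v w : V) :
    uu χ k (flipBy (Sum.elim ε η) γ) v - uu χ k (flipBy (Sum.elim ε η) γ) w
      = (∑ i, ∑ j, sg (ε i) * sg (η j) *
          (dd χ (γ (Sum.inl i)) (γ (Sum.inr j)) v - dd χ (γ (Sum.inl i)) (γ (Sum.inr j)) w)) / k := by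
  unfold uu
  rw [← sub_div, ← sum_sub_distrib]
  congr 1
  refine sum_congr rfl fun i _ => ?_
  rw [← sum_sub_distrib]
  refine sum_congr rfl fun j _ => ?_
  rw [dd_flip, dd_flip]
  ring

/-- the mean square of a triple difference -/
noncomputable def QQ (χ : V → V → V → ℝ) : ℝ :=
  av fun p : V × V => av fun q : V × V => av fun v => av fun w => (dd χ p q v - dd χ p q w) ^ 2

theorem second_moment (hRAD : S_RAD) {k : ℕ} (hk : 0 < k) :
    (av fun γ : Ix k → V × V => av fun v => av fun w => (uu χ k γ v - uu χ k γ w) ^ 2) = QQ χ := by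
  have hk' : (k : ℝ) ≠ 0 := by exact_mod_cast hk.ne'
  rw [av_flip2]
  have h : ∀ γ : Ix k → V × V, (av fun ε : Fin k → Bool => av fun η : Fin k → Bool => av fun v => av fun w =>
      (uu χ k (flipBy (Sum.elim ε η) γ) v - uu χ k (flipBy (Sum.elim ε η) γ) w) ^ 2)
      = ∑ i, ∑ j, 1 / (k : ℝ) ^ 2 * av fun v => av fun w =>
        (dd χ (γ (Sum.inl i)) (γ (Sum.inr j)) v - dd χ (γ (Sum.inl i)) (γ (Sum.inr j)) w) ^ 2 := by
    intro γ
    have h1 : (av fun ε : Fin k → Bool => av fun η : Fin k → Bool => av fun v => av fun w =>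
      (uu χ k (flipBy (Sum.elim ε η) γ) v - uu χ k (flipBy (Sum.elim ε η) γ) w) ^ 2)
      = av fun v => av fun w => av fun ε : Fin k → Bool => av fun η : Fin k → Bool =>
      (uu χ k (flipBy (Sum.elim ε η) γ) v - uu χ k (flipBy (Sum.elim ε η) γ) w) ^ 2 := by
      have s1 : ∀ ε : Fin k → Bool, (av fun η : Fin k → Bool => av fun v => av fun w =>
        (uu χ k (flipBy (Sum.elim ε η) γ) v - uu χ k (flipBy (Sum.elim ε η) γ) w) ^ 2)
        = av fun v => av fun η : Fin k → Bool => av fun w =>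
        (uu χ k (flipBy (Sum.elim ε η) γ) v - uu χ k (flipBy (Sum.elim ε η) γ) w) ^ 2 := fun ε => av_comm _
      rw [av_congr s1, av_comm]
      refine av_congr fun v => ?_
      have s2 : ∀ ε : Fin k → Bool, (av fun η : Fin k → Bool => av fun w =>
        (uu χ k (flipBy (Sum.elim ε η) γ) v - uu χ k (flipBy (Sum.elim ε η) γ) w) ^ 2)
        = av fun w => av fun η : Fin k → Bool =>
        (uu χ k (flipBy (Sum.elim ε η) γ) v - uu χ k (flipBy (Sum.elim ε η) γ) w) ^ 2 := fun ε => av_comm _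
      rw [av_congr s2, av_comm]
    rw [h1]
    have h2 : ∀ v w : V, (av fun ε : Fin k → Bool => av fun η : Fin k → Bool =>
      (uu χ k (flipBy (Sum.elim ε η) γ) v - uu χ k (flipBy (Sum.elim ε η) γ) w) ^ 2)
      = ∑ i, ∑ j, 1 / (k : ℝ) ^ 2 *
        (dd χ (γ (Sum.inl i)) (γ (Sum.inr j)) v - dd χ (γ (Sum.inl i)) (γ (Sum.inr j)) w) ^ 2 := by
      intro v w
      have h3 := hRAD.2.2.2.1 k fun i j =>
        dd χ (γ (Sum.inl i)) (γ (Sum.inr j)) v - dd χ (γ (Sum.inl i)) (γ (Sum.inr j)) w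
      simp_rw [← mul_sum]
      rw [← h3, ← av_mul_left]
      refine av_congr fun ε => ?_
      rw [← av_mul_left]
      refine av_congr fun η => ?_
      rw [uu_sub_flip, div_pow]
      ring
    simp only [h2, av_sum, av_mul_left]
  simp only [h, av_sum, av_mul_left]
  have h4 : ∀ i j : Fin k, (av fun γ : Ix k → V × V => av fun v => av fun w =>
        (dd χ (γ (Sum.inl i)) (γ (Sum.inr j)) v - dd χ (γ (Sum.inl i)) (γ (Sum.inr j)) w) ^ 2) = QQ χ := by
    intro i j
    exact av_two (X := Ix k) (x := Sum.inl i) (y := Sum.inr j) (by simp)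
      (fun p q : V × V => av fun v => av fun w => (dd χ p q v - dd χ p q w) ^ 2)
  simp_rw [h4, sum_const, card_univ, Fintype.card_fin, nsmul_eq_mul]
  field_simp

theorem abs_dd_sub_le (hχ : Ker χ) (p q : V × V) (v w : V) : |dd χ p q v - dd χ p q w| ≤ 4 := by
  have h1 := abs_le.1 (abs_dd_le hχ p q v)
  have h2 := abs_le.1 (abs_dd_le hχ p q w)
  rw [abs_le]
  constructor <;> linarith

theorem fourth_moment (hRAD : S_RAD) (hχ : Ker χ) {k : ℕ} (hk : 0 < k) :
    (av fun γ : Ix k → V × V => av fun v => av fun w => (uu χ k γ v - uu χ k γ w) ^ 4) ≤ 2304 := by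
  have hk' : (0 : ℝ) < k := by exact_mod_cast hk
  rw [av_flip2]
  refine av_le_of_le fun γ => ?_
  have h1 : (av fun ε : Fin k → Bool => av fun η : Fin k → Bool => av fun v => av fun w =>
      (uu χ k (flipBy (Sum.elim ε η) γ) v - uu χ k (flipBy (Sum.elim ε η) γ) w) ^ 4)
      = av fun v => av fun w => av fun ε : Fin k → Bool => av fun η : Fin k → Bool =>
      (uu χ k (flipBy (Sum.elim ε η) γ) v - uu χ k (flipBy (Sum.elim ε η) γ) w) ^ 4 := by
    have s1 : ∀ ε : Fin k → Bool, (av fun η : Fin k → Bool => av fun v => av fun w =>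
      (uu χ k (flipBy (Sum.elim ε η) γ) v - uu χ k (flipBy (Sum.elim ε η) γ) w) ^ 4)
      = av fun v => av fun η : Fin k → Bool => av fun w =>
      (uu χ k (flipBy (Sum.elim ε η) γ) v - uu χ k (flipBy (Sum.elim ε η) γ) w) ^ 4 := fun ε => av_comm _
    rw [av_congr s1, av_comm]
    refine av_congr fun v => ?_
    have s2 : ∀ ε : Fin k → Bool, (av fun η : Fin k → Bool => av fun w =>
      (uu χ k (flipBy (Sum.elim ε η) γ) v - uu χ k (flipBy (Sum.elim ε η) γ) w) ^ 4)
      = av fun w => av fun η : Fin k → Bool =>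
      (uu χ k (flipBy (Sum.elim ε η) γ) v - uu χ k (flipBy (Sum.elim ε η) γ) w) ^ 4 := fun ε => av_comm _
    rw [av_congr s2, av_comm]
  rw [h1]
  refine av_le_of_le fun v => av_le_of_le fun w => ?_
  have h3 := hRAD.2.2.2.2 k (fun i j =>
    dd χ (γ (Sum.inl i)) (γ (Sum.inr j)) v - dd χ (γ (Sum.inl i)) (γ (Sum.inr j)) w) 4
    (fun i j => abs_dd_sub_le hχ _ _ _ _)
  have h4 : (av fun ε : Fin k → Bool => av fun η : Fin k → Bool =>
      (uu χ k (flipBy (Sum.elim ε η) γ) v - uu χ k (flipBy (Sum.elim ε η) γ) w) ^ 4)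
      = 1 / (k : ℝ) ^ 4 * av fun ε : Fin k → Bool => av fun η : Fin k → Bool =>
        (∑ i, ∑ j, sg (ε i) * sg (η j) *
          (dd χ (γ (Sum.inl i)) (γ (Sum.inr j)) v - dd χ (γ (Sum.inl i)) (γ (Sum.inr j)) w)) ^ 4 := by
    rw [← av_mul_left]
    refine av_congr fun ε => ?_
    rw [← av_mul_left]
    refine av_congr fun η => ?_
    rw [uu_sub_flip, div_pow]
    ring
  rw [h4]
  have h5 : 0 ≤ 1 / (k : ℝ) ^ 4 := by positivity
  calc _ ≤ 1 / (k : ℝ) ^ 4 * (9 * (k : ℝ) ^ 4 * 4 ^ 4) := mul_le_mul_of_nonneg_left h3 h5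
    _ = 2304 := by field_simp; norm_num

/-- lower bound for the main term -/
theorem main_lower (hRAD : S_RAD) (hχ : Ker χ) {θ : ℝ} (hθ : 0 ≤ θ) {k : ℕ} (hk : 0 < k) :
    k / 8 * (θ * QQ χ - 4608 * θ ^ 3)
      ≤ av fun γ : Ix k → V × V => ∑ i, ∑ j, av fun v => gg χ θ k γ v * χ (γ (Sum.inl i)).1 (γ (Sum.inr j)).1 v := by
  rw [main_eq hk]
  refine mul_le_mul_of_nonneg_left ?_ (by positivity)
  have h1 : (av fun γ : Ix k → V × V => av fun v => av fun w =>
      (θ * (uu χ k γ v - uu χ k γ w) ^ 2 - 2 * θ ^ 3 * (uu χ k γ v - uu χ k γ w) ^ 4))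
      ≤ av fun γ : Ix k → V × V => av fun v => av fun w =>
          (uu χ k γ v - uu χ k γ w) * Real.sin (θ * (uu χ k γ v - uu χ k γ w)) :=
    av_mono fun γ => av_mono fun v => av_mono fun w => main_pointwise hθ _
  refine le_trans ?_ h1
  simp only [av_sub, av_mul_left]
  rw [second_moment hRAD hk]
  have h2 := fourth_moment hRAD hχ hk
  have h3 : 0 ≤ 2 * θ ^ 3 := by positivity
  nlinarith [mul_le_mul_of_nonneg_left h2 h3]

end Pool.Agent.H70.RC
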