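import Pool.Agent.H70.RC.B3

/-! Case B: the error term. -/

set_option autoImplicit false
set_option linter.unusedSectionVars false
open Finset

namespace Pool.Agent.H70.RC

variable {V : Type} [Fintype V] [Nonempty V] {χ : V → V → V → ℝ}

theorem one_sub_cos_le (x : ℝ) : |Real.cos x - 1| ≤ x ^ 2 / 2 := by
  have h1 := Real.one_sub_sq_div_two_le_cos (x := x)
  have h2 := Real.cos_le_one x
  rw [abs_le]
  constructor <;> linarith

/-- symmetric second difference of a product of two sines -/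
theorem sin_sin (x y a b : ℝ) :
    |Real.sin (x + a) * Real.sin (y + b) + Real.sin (x - a) * Real.sin (y - b) - 2 * (Real.sin x * Real.sin y)|
      ≤ a ^ 2 + b ^ 2 := by
  have h : Real.sin (x + a) * Real.sin (y + b) + Real.sin (x - a) * Real.sin (y - b) - 2 * (Real.sin x * Real.sin y)
      = Real.cos (x - y) * (Real.cos (a - b) - 1) - Real.cos (x + y) * (Real.cos (a + b) - 1) := by
    rw [Real.sin_add, Real.sin_add, Real.sin_sub, Real.sin_sub, Real.cos_sub, Real.cos_add, Real.cos_sub, Real.cos_add]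
    ring
  rw [h]
  have h1 := one_sub_cos_le (a - b)
  have h2 := one_sub_cos_le (a + b)
  have h3 := Real.abs_cos_le_one (x - y)
  have h4 := Real.abs_cos_le_one (x + y)
  calc _ ≤ |Real.cos (x - y) * (Real.cos (a - b) - 1)| + |Real.cos (x + y) * (Real.cos (a + b) - 1)| := abs_sub _ _
    _ = |Real.cos (x - y)| * |Real.cos (a - b) - 1| + |Real.cos (x + y)| * |Real.cos (a + b) - 1| := by
        rw [abs_mul, abs_mul]
    _ ≤ 1 * ((a - b) ^ 2 / 2) + 1 * ((a + b) ^ 2 / 2) := by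
        refine add_le_add (mul_le_mul h3 h1 (abs_nonneg _) zero_le_one) (mul_le_mul h4 h2 (abs_nonneg _) zero_le_one)
    _ = a ^ 2 + b ^ 2 := by ring

/-- the part of `u` from the first-family index `i` -/
noncomputable def ui (χ : V → V → V → ℝ) (k : ℕ) (i : Fin k) (γ : Ix k → V × V) (v : V) : ℝ :=
  (∑ j, dd χ (γ (Sum.inl i)) (γ (Sum.inr j)) v) / k

/-- the rest -/
noncomputable def ub (χ : V → V → V → ℝ) (k : ℕ) (i : Fin k) (γ : Ix k → V × V) (v : V) : ℝ :=
  (∑ i' ∈ univ.erase i, ∑ j, dd χ (γ (Sum.inl i')) (γ (Sum.inr j)) v) / k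

theorem uu_split {k : ℕ} (i : Fin k) (γ : Ix k → V × V) (v : V) : uu χ k γ v = ub χ k i γ v + ui χ k i γ v := by
  unfold uu ub ui
  rw [← add_div, sum_erase_add _ _ (mem_univ i)]

/-- flip at one index -/
def epsI (k : ℕ) (i : Fin k) : Ix k → Bool := fun x => decide (x = Sum.inl i)

theorem ub_flipI {k : ℕ} (i : Fin k) (γ : Ix k → V × V) (v : V) : ub χ k i (flipBy (epsI k i) γ) v = ub χ k i γ v := by
  unfold ub
  congr 1
  refine sum_congr rfl fun i' hi' => sum_congr rfl fun j _ => ?_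
  have h1 : flipBy (epsI k i) γ (Sum.inl i') = γ (Sum.inl i') := by
    unfold flipBy epsI
    simp [(mem_erase.1 hi').1]
  have h2 : flipBy (epsI k i) γ (Sum.inr j) = γ (Sum.inr j) := by
    unfold flipBy epsI
    simp
  rw [h1, h2]

theorem flipI_self {k : ℕ} (i : Fin k) (γ : Ix k → V × V) : flipBy (epsI k i) γ (Sum.inl i) = (γ (Sum.inl i)).swap := by
  unfold flipBy epsI
  simp

theorem ui_flipI {k : ℕ} (i : Fin k) (γ : Ix k → V × V) (v : V) : ui χ k i (flipBy (epsI k i) γ) v = - ui χ k i γ v := by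
  unfold ui
  rw [← neg_div, ← sum_neg_distrib]
  congr 1
  refine sum_congr rfl fun j _ => ?_
  have h2 : flipBy (epsI k i) γ (Sum.inr j) = γ (Sum.inr j) := by
    unfold flipBy epsI
    simp
  rw [flipI_self, h2, dd_swap1]

theorem ub_update {k : ℕ} (i : Fin k) (γ : Ix k → V × V) (p : V × V) (v : V) :
    ub χ k i (Function.update γ (Sum.inl i) p) v = ub χ k i γ v := by
  unfold ub
  congr 1
  refine sum_congr rfl fun i' hi' => sum_congr rfl fun j _ => ?_
  rw [Function.update_of_ne (by simpa using (mem_erase.1 hi').1), Function.update_of_ne (by simp)]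

/-- mean square of the part of index `i` -/
theorem ui_sq (hRAD : S_RAD) (hχ : Ker χ) {k : ℕ} (hk : 0 < k) (i : Fin k) (v w : V) :
    (av fun γ : Ix k → V × V => (ui χ k i γ v - ui χ k i γ w) ^ 2) ≤ 16 / k := by
  have hk' : (0 : ℝ) < k := by exact_mod_cast hk
  have h0 : (av fun γ : Ix k → V × V => (ui χ k i γ v - ui χ k i γ w) ^ 2)
      = av fun γ : Ix k → V × V => av fun η : Fin k → Bool =>
        (ui χ k i (flipBy (Sum.elim (fun _ => false) η) γ) v - ui χ k i (flipBy (Sum.elim (fun _ => false) η) γ) w) ^ 2 := by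
    rw [av_comm]
    have h' : ∀ η : Fin k → Bool, (av fun γ : Ix k → V × V =>
        (ui χ k i (flipBy (Sum.elim (fun _ => false) η) γ) v - ui χ k i (flipBy (Sum.elim (fun _ => false) η) γ) w) ^ 2)
        = av fun γ : Ix k → V × V => (ui χ k i γ v - ui χ k i γ w) ^ 2 := fun η =>
      (av_flip (Sum.elim (fun _ => false) η) fun γ : Ix k → V × V => (ui χ k i γ v - ui χ k i γ w) ^ 2).symm
    rw [av_congr h', av_const]
  rw [h0]
  refine av_le_of_le fun γ => ?_
  have h1 := hRAD.1 k fun j => dd χ (γ (Sum.inl i)) (γ (Sum.inr j)) v - dd χ (γ (Sum.inl i)) (γ (Sum.inr j)) w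
  have h2 : (av fun η : Fin k → Bool =>
        (ui χ k i (flipBy (Sum.elim (fun _ => false) η) γ) v - ui χ k i (flipBy (Sum.elim (fun _ => false) η) γ) w) ^ 2)
      = 1 / (k : ℝ) ^ 2 * ∑ j, (dd χ (γ (Sum.inl i)) (γ (Sum.inr j)) v - dd χ (γ (Sum.inl i)) (γ (Sum.inr j)) w) ^ 2 := by
    rw [← h1, ← av_mul_left]
    refine av_congr fun η => ?_
    unfold ui
    rw [← sub_div, ← sum_sub_distrib, div_pow]
    have h3 : ∀ j : Fin k, dd χ (flipBy (Sum.elim (fun _ => false) η) γ (Sum.inl i)) (flipBy (Sum.elim (fun _ => false) η) γ (Sum.inr j)) v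
        - dd χ (flipBy (Sum.elim (fun _ => false) η) γ (Sum.inl i)) (flipBy (Sum.elim (fun _ => false) η) γ (Sum.inr j)) w
        = sg (η j) * (dd χ (γ (Sum.inl i)) (γ (Sum.inr j)) v - dd χ (γ (Sum.inl i)) (γ (Sum.inr j)) w) := by
      intro j
      rw [dd_flip (fun _ => false) η, dd_flip (fun _ => false) η]
      unfold sg
      simp only [Bool.false_eq_true, if_false]
      ring
    simp_rw [h3]
    ring
  rw [h2]
  have h4 : ∑ j, (dd χ (γ (Sum.inl i)) (γ (Sum.inr j)) v - dd χ (γ (Sum.inl i)) (γ (Sum.inr j)) w) ^ 2 ≤ k * 16 := by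
    calc _ ≤ ∑ _j : Fin k, (16 : ℝ) := by
          refine sum_le_sum fun j _ => ?_
          have := abs_dd_sub_le hχ (γ (Sum.inl i)) (γ (Sum.inr j)) v w
          have h5 := sq_abs (dd χ (γ (Sum.inl i)) (γ (Sum.inr j)) v - dd χ (γ (Sum.inl i)) (γ (Sum.inr j)) w)
          nlinarith [abs_nonneg (dd χ (γ (Sum.inl i)) (γ (Sum.inr j)) v - dd χ (γ (Sum.inl i)) (γ (Sum.inr j)) w)]
      _ = k * 16 := by simp
  calc _ ≤ 1 / (k : ℝ) ^ 2 * (k * 16) := mul_le_mul_of_nonneg_left h4 (by positivity)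
    _ = 16 / k := by field_simp

/-- the product of sines -/
noncomputable def SS (θ a b : ℝ) : ℝ := Real.sin (θ * a) * Real.sin (θ * b)

/-- the error term with all vertices fixed -/
theorem fixed (hχ : Ker χ) {θ : ℝ} {k : ℕ} (i : Fin k) (v w v' w' : V) :
    |(av fun γ : Ix k → V × V => χ (γ (Sum.inl i)).1 v w * SS θ (uu χ k γ v - uu χ k γ v') (uu χ k γ w - uu χ k γ w'))
      - cod χ v w * av fun γ : Ix k → V × V => SS θ (ub χ k i γ v - ub χ k i γ v') (ub χ k i γ w - ub χ k i γ w')|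
      ≤ θ ^ 2 / 2 * ((av fun γ : Ix k → V × V => (ui χ k i γ v - ui χ k i γ v') ^ 2)
          + av fun γ : Ix k → V × V => (ui χ k i γ w - ui χ k i γ w') ^ 2) := by
  set S : (Ix k → V × V) → ℝ := fun γ => SS θ (uu χ k γ v - uu χ k γ v') (uu χ k γ w - uu χ k γ w') with hS
  set Sb : (Ix k → V × V) → ℝ := fun γ => SS θ (ub χ k i γ v - ub χ k i γ v') (ub χ k i γ w - ub χ k i γ w') with hSb
  -- exchange
  have a1 : (av fun γ : Ix k → V × V => χ (γ (Sum.inl i)).1 v w * S γ)
      = av fun γ : Ix k → V × V => χ (γ (Sum.inl i)).2 v w * S γ := by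
    rw [av_flip (epsA k)]
    refine av_congr fun γ => ?_
    rw [flipA_inl, Prod.fst_swap, hS]
    simp only [uu_flipA]
    congr 1
    unfold SS
    rw [show θ * (-uu χ k γ v - -uu χ k γ v') = -(θ * (uu χ k γ v - uu χ k γ v')) by ring,
      show θ * (-uu χ k γ w - -uu χ k γ w') = -(θ * (uu χ k γ w - uu χ k γ w')) by ring, Real.sin_neg, Real.sin_neg]
    ring
  have a2 : (av fun γ : Ix k → V × V => χ (γ (Sum.inl i)).1 v w * S γ)
      = av fun γ : Ix k → V × V => (χ (γ (Sum.inl i)).1 v w + χ (γ (Sum.inl i)).2 v w) / 2 * S γ := by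
    have : (av fun γ : Ix k → V × V => (χ (γ (Sum.inl i)).1 v w + χ (γ (Sum.inl i)).2 v w) / 2 * S γ)
        = 1 / 2 * (av fun γ : Ix k → V × V => χ (γ (Sum.inl i)).1 v w * S γ)
          + 1 / 2 * (av fun γ : Ix k → V × V => χ (γ (Sum.inl i)).2 v w * S γ) := by
      rw [← av_mul_left, ← av_mul_left, ← av_add]
      exact av_congr fun γ => by ring
    rw [this, ← a1]
    ring
  have a3 : (av fun γ : Ix k → V × V => (χ (γ (Sum.inl i)).1 v w + χ (γ (Sum.inl i)).2 v w) / 2 * S γ)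
      = av fun γ : Ix k → V × V => (χ (γ (Sum.inl i)).1 v w + χ (γ (Sum.inl i)).2 v w) / 2 *
          ((S γ + S (flipBy (epsI k i) γ)) / 2) := by
    have h1 := av_flip (epsI k i)
      (fun γ : Ix k → V × V => (χ (γ (Sum.inl i)).1 v w + χ (γ (Sum.inl i)).2 v w) / 2 * S γ)
    simp only [flipI_self, Prod.fst_swap, Prod.snd_swap] at h1
    have h2 : (av fun γ : Ix k → V × V => (χ (γ (Sum.inl i)).1 v w + χ (γ (Sum.inl i)).2 v w) / 2 *
          ((S γ + S (flipBy (epsI k i) γ)) / 2))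
        = 1 / 2 * (av fun γ : Ix k → V × V => (χ (γ (Sum.inl i)).1 v w + χ (γ (Sum.inl i)).2 v w) / 2 * S γ)
          + 1 / 2 * (av fun γ : Ix k → V × V => (χ (γ (Sum.inl i)).2 v w + χ (γ (Sum.inl i)).1 v w) / 2 *
            S (flipBy (epsI k i) γ)) := by
      rw [← av_mul_left, ← av_mul_left, ← av_add]
      exact av_congr fun γ => by ring
    rw [h2, ← h1]
    ring
  -- the part without the index `i`
  have a4 : (av fun γ : Ix k → V × V => (χ (γ (Sum.inl i)).1 v w + χ (γ (Sum.inl i)).2 v w) / 2 * Sb γ)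
      = cod χ v w * av Sb := by
    rw [av_resample (Sum.inl i)]
    have h1 : ∀ (γ : Ix k → V × V) (p : V × V), Sb (Function.update γ (Sum.inl i) p) = Sb γ := by
      intro γ p
      rw [hSb]
      simp only [ub_update]
    simp only [h1, Function.update_self]
    rw [← av_mul_left]
    refine av_congr fun γ => ?_
    rw [av_mul_right]
    congr 1
    have h2 : (av fun p : V × V => (χ p.1 v w + χ p.2 v w) / 2)
        = 1 / 2 * (av fun p : V × V => χ p.1 v w) + 1 / 2 * (av fun p : V × V => χ p.2 v w) := by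
      rw [← av_mul_left, ← av_mul_left, ← av_add]
      exact av_congr fun p => by ring
    rw [h2, av_fst (fun z => χ z v w), av_snd (fun z => χ z v w)]
    have h3 : (av fun z => χ z v w) = cod χ v w := by
      unfold cod
      refine av_congr fun z => ?_
      rw [hχ.s1, hχ.s2]
    rw [h3]
    ring
  have a5 : (av fun γ : Ix k → V × V => χ (γ (Sum.inl i)).1 v w * S γ) - cod χ v w * av Sb
      = av fun γ : Ix k → V × V => (χ (γ (Sum.inl i)).1 v w + χ (γ (Sum.inl i)).2 v w) / 2 *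
          ((S γ + S (flipBy (epsI k i) γ) - 2 * Sb γ) / 2) := by
    rw [a2, a3, ← a4, ← av_sub]
    exact av_congr fun γ => by ring
  rw [a5, ← av_add, ← av_mul_left]
  refine (abs_av_le _).trans (av_mono fun γ => ?_)
  have h1 : |S γ + S (flipBy (epsI k i) γ) - 2 * Sb γ|
      ≤ (θ * (ui χ k i γ v - ui χ k i γ v')) ^ 2 + (θ * (ui χ k i γ w - ui χ k i γ w')) ^ 2 := by
    have h2 := sin_sin (θ * (ub χ k i γ v - ub χ k i γ v')) (θ * (ub χ k i γ w - ub χ k i γ w'))
      (θ * (ui χ k i γ v - ui χ k i γ v')) (θ * (ui χ k i γ w - ui χ k i γ w'))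
    refine le_trans (le_of_eq ?_) h2
    rw [hS, hSb]
    unfold SS
    simp only [uu_split i, ub_flipI, ui_flipI]
    congr 1
    congr 1
    · congr 1
      · congr 1 <;> congr 1 <;> ring
      · congr 1 <;> congr 1 <;> ring
  have h3 : |(χ (γ (Sum.inl i)).1 v w + χ (γ (Sum.inl i)).2 v w) / 2| ≤ 1 := by
    rw [abs_le]
    constructor <;> linarith [hχ.nonneg (γ (Sum.inl i)).1 v w, hχ.nonneg (γ (Sum.inl i)).2 v w,
      hχ.le_one (γ (Sum.inl i)).1 v w, hχ.le_one (γ (Sum.inl i)).2 v w]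
  have h4 : |(S γ + S (flipBy (epsI k i) γ) - 2 * Sb γ) / 2| = |S γ + S (flipBy (epsI k i) γ) - 2 * Sb γ| / 2 := by
    rw [abs_div, abs_two]
  rw [abs_mul, h4]
  have h5 := mul_le_mul_of_nonneg_right h3
    (show 0 ≤ |S γ + S (flipBy (epsI k i) γ) - 2 * Sb γ| / 2 by positivity)
  refine h5.trans ?_
  have h6 : θ ^ 2 / 2 * ((ui χ k i γ v - ui χ k i γ v') ^ 2 + (ui χ k i γ w - ui χ k i γ w') ^ 2)
      = ((θ * (ui χ k i γ v - ui χ k i γ v')) ^ 2 + (θ * (ui χ k i γ w - ui χ k i γ w')) ^ 2) / 2 := by ring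
  rw [h6]
  linarith [h1]

end Pool.Agent.H70.RC
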