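import Mathlib

/-! Averages over finite sets, kernels of 3-graphs. -/

set_option autoImplicit false
open Finset

namespace Pool.Agent.H70.RC

section av

variable {X Y : Type} [Fintype X] [Fintype Y]

/-- the average of a function over a finite type -/
noncomputable def av {X : Type} [Fintype X] (f : X → ℝ) : ℝ := (∑ x, f x) / Fintype.card X

theorem av_add (f g : X → ℝ) : av (fun x => f x + g x) = av f + av g := by
  unfold av; rw [sum_add_distrib, add_div]

theorem av_sub (f g : X → ℝ) : av (fun x => f x - g x) = av f - av g := by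
  unfold av; rw [sum_sub_distrib, sub_div]

theorem av_neg (f : X → ℝ) : av (fun x => - f x) = - av f := by
  unfold av; rw [sum_neg_distrib, neg_div]

theorem av_mul_left (c : ℝ) (f : X → ℝ) : av (fun x => c * f x) = c * av f := by
  unfold av; rw [← mul_sum, mul_div_assoc]

theorem av_mul_right (c : ℝ) (f : X → ℝ) : av (fun x => f x * c) = av f * c := by
  unfold av; rw [← sum_mul]; ring

theorem av_const [Nonempty X] (c : ℝ) : av (fun _ : X => c) = c := by
  unfold av
  rw [sum_const, card_univ, nsmul_eq_mul, mul_div_cancel_left₀]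
  exact_mod_cast Fintype.card_ne_zero

theorem av_zero : av (fun _ : X => (0 : ℝ)) = 0 := by
  unfold av; simp

theorem av_congr {f g : X → ℝ} (h : ∀ x, f x = g x) : av f = av g := by
  have : f = g := funext h
  rw [this]

theorem av_mono {f g : X → ℝ} (h : ∀ x, f x ≤ g x) : av f ≤ av g := by
  unfold av
  exact div_le_div_of_nonneg_right (sum_le_sum fun x _ => h x) (Nat.cast_nonneg _)

theorem av_nonneg {f : X → ℝ} (h : ∀ x, 0 ≤ f x) : 0 ≤ av f := by
  unfold av
  exact div_nonneg (sum_nonneg fun x _ => h x) (Nat.cast_nonneg _)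

theorem abs_av_le (f : X → ℝ) : |av f| ≤ av fun x => |f x| := by
  unfold av
  rw [abs_div, Nat.abs_cast]
  exact div_le_div_of_nonneg_right (abs_sum_le_sum_abs _ _) (Nat.cast_nonneg _)

theorem av_le_of_le [Nonempty X] {f : X → ℝ} {c : ℝ} (h : ∀ x, f x ≤ c) : av f ≤ c := by
  have := av_mono h
  rwa [av_const] at this

theorem le_av_of_le [Nonempty X] {f : X → ℝ} {c : ℝ} (h : ∀ x, c ≤ f x) : c ≤ av f := by
  have := av_mono h
  rwa [av_const] at this

theorem exists_av_le [Nonempty X] (f : X → ℝ) : ∃ x, av f ≤ f x := by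
  by_contra hcon
  push Not at hcon
  have h : ∑ x, f x < ∑ _x : X, av f := sum_lt_sum_of_nonempty univ_nonempty fun x _ => hcon x
  rw [sum_const, card_univ, nsmul_eq_mul] at h
  have hc : (0 : ℝ) < Fintype.card X := by exact_mod_cast Fintype.card_pos
  have : (Fintype.card X : ℝ) * av f = ∑ x, f x := by unfold av; field_simp
  linarith

theorem av_comm (f : X → Y → ℝ) : av (fun x => av fun y => f x y) = av (fun y => av fun x => f x y) := by
  unfold av
  simp only [← sum_div]
  rw [sum_comm]
  ring

theorem av_sum {ι : Type} (s : Finset ι) (f : ι → X → ℝ) : av (fun x => ∑ i ∈ s, f i x) = ∑ i ∈ s, av (f i) := by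
  unfold av
  rw [sum_comm, sum_div]

theorem av_equiv (e : X ≃ Y) (f : Y → ℝ) : av (fun x => f (e x)) = av f := by
  unfold av
  rw [Equiv.sum_comp e f, Fintype.card_congr e]

theorem av_prod (f : X → Y → ℝ) : av (fun p : X × Y => f p.1 p.2) = av fun x => av fun y => f x y := by
  unfold av
  rw [Fintype.sum_prod_type, Fintype.card_prod]
  simp only [← sum_div]
  push_cast
  rw [div_div, mul_comm]

/-- Cauchy's inequality -/
theorem av_sq_le (f : X → ℝ) : (av f) ^ 2 ≤ av fun x => f x ^ 2 := by
  rcases isEmpty_or_nonempty X with h | h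
  · unfold av; simp
  · have h1 : 0 ≤ av fun x => (f x - av f) ^ 2 := av_nonneg fun x => sq_nonneg _
    have h2 : (av fun x => (f x - av f) ^ 2) = (av fun x => f x ^ 2) - (av f) ^ 2 := by
      have : ∀ x, (f x - av f) ^ 2 = f x ^ 2 - 2 * av f * f x + (av f) ^ 2 := fun x => by ring
      rw [av_congr this, av_add, av_sub, av_mul_left, av_const]
      ring
    linarith

end av

/-- The kernel (edge indicator) of a 3-graph on `V`. -/
structure Ker {V : Type} (χ : V → V → V → ℝ) : Prop where
  zo : ∀ x y z, χ x y z = 0 ∨ χ x y z = 1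
  s1 : ∀ x y z, χ x y z = χ y x z
  s2 : ∀ x y z, χ x y z = χ x z y
  dg : ∀ x y, χ x x y = 0

section ker

variable {V : Type} [Fintype V]

/-- normalised number of edges -/
noncomputable def dens (χ : V → V → V → ℝ) : ℝ := av fun x => av fun y => av fun z => χ x y z

/-- normalised codegree -/
noncomputable def cod (χ : V → V → V → ℝ) (x y : V) : ℝ := av fun z => χ x y z

/-- normalised degree -/
noncomputable def deg (χ : V → V → V → ℝ) (x : V) : ℝ := av fun y => cod χ x y

/-- variance of the codegrees -/
noncomputable def varc (χ : V → V → V → ℝ) : ℝ := av fun x => av fun y => (cod χ x y - dens χ) ^ 2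

/-- variance of the degrees -/
noncomputable def vard (χ : V → V → V → ℝ) : ℝ := av fun x => (deg χ x - dens χ) ^ 2

end ker

/-- `M` bounds six times the number of edges of all blow-ups on `n` vertices. -/
def Bd {V : Type} (χ : V → V → V → ℝ) (n : ℕ) (M : ℝ) : Prop :=
  ∀ φ : Fin n → V, ∑ i, ∑ j, ∑ l, χ (φ i) (φ j) (φ l) ≤ M

end Pool.Agent.H70.RC
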