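import Pool.Agent.H70.RC.Stm

/-! Averages over functions: resampling one value, flips. -/

set_option autoImplicit false
set_option linter.unusedSectionVars false
open Finset

namespace Pool.Agent.H70.RC

section resample

variable {X W : Type} [Fintype X] [DecidableEq X] [Fintype W] [Nonempty W]

/-- resampling one value -/
theorem av_resample (x : X) (F : (X → W) → ℝ) :
    av F = av fun γ : X → W => av fun w => F (Function.update γ x w) := by
  classical
  have e := Equiv.funSplitAt x W
  have h1 : ∀ G : (X → W) → ℝ, av G = av fun w : W => av fun r : ({j // j ≠ x} → W) =>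
      G ((Equiv.funSplitAt x W).symm (w, r)) := by
    intro G
    rw [← av_prod (fun (w : W) (r : {j // j ≠ x} → W) => G ((Equiv.funSplitAt x W).symm (w, r)))]
    rw [← av_equiv (Equiv.funSplitAt x W).symm G]
  rw [h1 F, h1 (fun γ => av fun w => F (Function.update γ x w))]
  have h2 : ∀ (w : W) (r : {j // j ≠ x} → W) (w' : W),
      Function.update ((Equiv.funSplitAt x W).symm (w, r)) x w' = (Equiv.funSplitAt x W).symm (w', r) := by
    intro w r w'
    funext y
    by_cases h : y = x
    · subst h
      simp [Equiv.funSplitAt, Equiv.piSplitAt]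
    · rw [Function.update_of_ne h]
      simp [Equiv.funSplitAt, Equiv.piSplitAt, h]
  simp only [h2]
  rw [av_const]
  exact av_comm _

theorem av_one (x : X) (f : W → ℝ) : av (fun γ : X → W => f (γ x)) = av f := by
  rw [av_resample x]
  simp only [Function.update_self]
  exact av_const _

theorem av_two {x y : X} (h : x ≠ y) (f : W → W → ℝ) :
    av (fun γ : X → W => f (γ x) (γ y)) = av fun w => av fun w' => f w w' := by
  rw [av_resample x]
  simp only [Function.update_self, Function.update_of_ne h.symm]
  rw [av_comm]
  refine av_congr fun w => ?_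
  exact av_one y (fun w' => f w w')

theorem av_three {x y z : X} (h1 : x ≠ y) (h2 : x ≠ z) (h3 : y ≠ z) (f : W → W → W → ℝ) :
    av (fun γ : X → W => f (γ x) (γ y) (γ z)) = av fun w => av fun w' => av fun w'' => f w w' w'' := by
  rw [av_resample x]
  simp only [Function.update_self, Function.update_of_ne h1.symm, Function.update_of_ne h2.symm]
  rw [av_comm]
  refine av_congr fun w => ?_
  exact av_two h3 (fun w' w'' => f w w' w'')

end resample

section flips

variable {X V : Type} [Fintype X] [Fintype V]

/-- exchange the two vertices of the pairs in the places given by `ε` -/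
def flipBy (ε : X → Bool) (γ : X → V × V) : X → V × V := fun x => if ε x then (γ x).swap else γ x

theorem flipBy_flipBy (ε : X → Bool) (γ : X → V × V) : flipBy ε (flipBy ε γ) = γ := by
  funext x
  unfold flipBy
  by_cases h : ε x <;> simp [h]

def flipEquiv (ε : X → Bool) : (X → V × V) ≃ (X → V × V) where
  toFun := flipBy ε
  invFun := flipBy ε
  left_inv := flipBy_flipBy ε
  right_inv := flipBy_flipBy ε

theorem av_flip [DecidableEq X] (ε : X → Bool) (F : (X → V × V) → ℝ) : av F = av fun γ => F (flipBy ε γ) :=
  (av_equiv (flipEquiv ε) F).symm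

theorem av_flip_neg [DecidableEq X] (ε : X → Bool) (F : (X → V × V) → ℝ) (h : ∀ γ, F (flipBy ε γ) = - F γ) :
    av F = 0 := by
  have h1 := av_flip ε F
  rw [av_congr h, av_neg] at h1
  linarith

end flips

section count

variable {X : Type} [Fintype X] [DecidableEq X]

theorem sum_ne (x : X) (c : ℝ) : ∑ y : X, (if x = y then 0 else c) = (Fintype.card X - 1) * c := by
  have h : ∀ y : X, (if x = y then 0 else c) = c - (if x = y then c else 0) := by
    intro y; split_ifs <;> ring
  simp_rw [h, sum_sub_distrib, sum_ite_eq, if_pos (mem_univ x), sum_const, card_univ, nsmul_eq_mul]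
  ring

theorem sum_ne2 (c : ℝ) : ∑ x : X, ∑ y : X, (if x = y then 0 else c) = Fintype.card X * (Fintype.card X - 1) * c := by
  simp_rw [sum_ne, sum_const, card_univ, nsmul_eq_mul]
  ring

theorem sum_ne3 (c : ℝ) : ∑ x : X, ∑ y : X, ∑ z : X, (if x = y ∨ x = z ∨ y = z then 0 else c)
    = Fintype.card X * (Fintype.card X - 1) * (Fintype.card X - 2) * c := by
  have h : ∀ x y : X, ∑ z : X, (if x = y ∨ x = z ∨ y = z then 0 else c)
      = if x = y then 0 else (Fintype.card X - 2) * c := by
    intro x y
    by_cases hxy : x = y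
    · simp [hxy]
    · rw [if_neg hxy]
      have h1 : ∀ z : X, (if x = y ∨ x = z ∨ y = z then 0 else c)
          = c - (if x = z then c else 0) - (if y = z then c else 0) := by
        intro z
        by_cases h1 : x = z
        · have h2 : y ≠ z := fun h => hxy (h1.trans h.symm)
          simp [h1, h2]
        · by_cases h2 : y = z
          · simp [h1, h2]
          · simp [hxy, h1, h2]
      simp_rw [h1, sum_sub_distrib, sum_ite_eq, if_pos (mem_univ _), sum_const, card_univ, nsmul_eq_mul]
      ring
  simp_rw [h, sum_ne2]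
  ring

end count

section base

variable {X V : Type} [Fintype X] [DecidableEq X] [Fintype V] [Nonempty V] {χ : V → V → V → ℝ}

theorem Ker.nonneg (hχ : Ker χ) (x y z : V) : 0 ≤ χ x y z := by
  rcases hχ.zo x y z with h | h <;> rw [h]
  norm_num

theorem Ker.le_one (hχ : Ker χ) (x y z : V) : χ x y z ≤ 1 := by
  rcases hχ.zo x y z with h | h <;> rw [h]
  norm_num

theorem Ker.dg2 (hχ : Ker χ) (x y : V) : χ x y y = 0 := by
  rw [hχ.s1, hχ.s2]; exact hχ.dg y x

theorem Ker.dg3 (hχ : Ker χ) (x y : V) : χ x y x = 0 := by
  rw [hχ.s2]; exact hχ.dg x y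

/-- expected number of edges among the sampled vertices -/
theorem av_sample3 (hχ : Ker χ) :
    av (fun γ : X → V × V => ∑ x, ∑ y, ∑ z, χ (γ x).1 (γ y).1 (γ z).1)
      = Fintype.card X * (Fintype.card X - 1) * (Fintype.card X - 2) * dens χ := by
  rw [← sum_ne3 (X := X) (dens χ)]
  rw [av_sum]
  refine sum_congr rfl fun x _ => ?_
  rw [av_sum]
  refine sum_congr rfl fun y _ => ?_
  rw [av_sum]
  refine sum_congr rfl fun z _ => ?_
  by_cases h : x = y ∨ x = z ∨ y = z
  · rw [if_pos h, ← av_zero (X := X → V × V)]
    refine av_congr fun γ => ?_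
    rcases h with h | h | h
    · rw [h]; exact hχ.dg _ _
    · rw [h]; exact hχ.dg3 _ _
    · rw [h]; exact hχ.dg2 _ _
  · rw [if_neg h]
    push Not at h
    rw [av_three h.1 h.2.1 h.2.2 (fun p q r : V × V => χ p.1 q.1 r.1)]
    have h1 : ∀ f : V → ℝ, av (fun p : V × V => f p.1) = av f := by
      intro f
      rw [av_prod (fun a (_ : V) => f a)]
      simp only [av_const]
    unfold dens
    rw [← h1 (fun x => av fun y => av fun z => χ x y z)]
    refine av_congr fun p => ?_
    rw [← h1 (fun y => av fun z => χ p.1 y z)]
    refine av_congr fun q => ?_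
    rw [← h1 (fun z => χ p.1 q.1 z)]

theorem av_fst (f : V → ℝ) : av (fun p : V × V => f p.1) = av f := by
  rw [av_prod (fun a (_ : V) => f a)]
  simp only [av_const]

theorem av_snd (f : V → ℝ) : av (fun p : V × V => f p.2) = av f := by
  rw [av_prod (fun (_ : V) a => f a)]
  simp only [av_const]

theorem av_sample2 (hχ : Ker χ) :
    av (fun γ : X → V × V => ∑ x, ∑ y, av fun v => χ (γ x).1 (γ y).1 v)
      = Fintype.card X * (Fintype.card X - 1) * dens χ := by
  rw [← sum_ne2 (X := X) (dens χ)]
  rw [av_sum]
  refine sum_congr rfl fun x _ => ?_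
  rw [av_sum]
  refine sum_congr rfl fun y _ => ?_
  by_cases h : x = y
  · rw [if_pos h, ← av_zero (X := X → V × V)]
    refine av_congr fun γ => ?_
    rw [h, ← av_zero (X := V)]
    exact av_congr fun v => hχ.dg _ _
  · rw [if_neg h]
    rw [av_two h (fun p q : V × V => av fun v => χ p.1 q.1 v)]
    unfold dens
    rw [← av_fst (fun x => av fun y => av fun z => χ x y z)]
    refine av_congr fun p => ?_
    rw [← av_fst (fun y => av fun z => χ p.1 y z)]

theorem av_sample1 :
    av (fun γ : X → V × V => ∑ x, av fun v => av fun w => χ (γ x).1 v w)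
      = Fintype.card X * dens χ := by
  rw [av_sum]
  have h : ∀ x : X, av (fun γ : X → V × V => av fun v => av fun w => χ (γ x).1 v w) = dens χ := by
    intro x
    rw [av_one x (fun p : V × V => av fun v => av fun w => χ p.1 v w)]
    exact av_fst (fun x => av fun y => av fun z => χ x y z)
  simp_rw [h, sum_const, card_univ, nsmul_eq_mul]

end base

end Pool.Agent.H70.RC
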