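import Pool.Agent.H70.RC.Defs

/-! Statements (rate of convergence of Turán densities of 3-graphs). -/

set_option autoImplicit false
open Finset

namespace Pool.Agent.H70.RC

/-- signs -/
def sg (b : Bool) : ℝ := if b then -1 else 1

/-- RAD: Rademacher sums and Rademacher chaos of order two. -/
def S_RAD : Prop :=
  (∀ (k : ℕ) (c : Fin k → ℝ), av (fun ε : Fin k → Bool => (∑ i, sg (ε i) * c i) ^ 2) = ∑ i, c i ^ 2) ∧
  (∀ (k : ℕ) (c : Fin k → ℝ), av (fun ε : Fin k → Bool => (∑ i, sg (ε i) * c i) ^ 4) ≤ 3 * (∑ i, c i ^ 2) ^ 2) ∧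
  (∀ (k : ℕ) (c : Fin k → ℝ) (τ : ℝ), 0 ≤ τ →
    3 / 2 * τ * (∑ i, c i ^ 2) - 3 / 2 * τ ^ 3 * (∑ i, c i ^ 2) ^ 2
      ≤ av fun ε : Fin k → Bool => |∑ i, sg (ε i) * c i|) ∧
  (∀ (k : ℕ) (X : Fin k → Fin k → ℝ), av (fun ε : Fin k → Bool => av fun η : Fin k → Bool =>
    (∑ i, ∑ j, sg (ε i) * sg (η j) * X i j) ^ 2) = ∑ i, ∑ j, X i j ^ 2) ∧
  (∀ (k : ℕ) (X : Fin k → Fin k → ℝ) (B : ℝ), (∀ i j, |X i j| ≤ B) →
    av (fun ε : Fin k → Bool => av fun η : Fin k → Bool =>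
      (∑ i, ∑ j, sg (ε i) * sg (η j) * X i j) ^ 4) ≤ 9 * (k : ℝ) ^ 4 * B ^ 4)

/-- MD: random blow-ups. `X` is a finite index set, `s x` the vertices at these indices, and the remaining `m` indices
are mapped to independent random vertices with density `ρ`. -/
def S_MD : Prop :=
  ∀ (V X : Type) [Fintype V] [Nonempty V] [Fintype X] (χ : V → V → V → ℝ), Ker χ → ∀ (m : ℕ) (M : ℝ),
    Bd χ (Fintype.card X + m) M → ∀ (s : X → V) (ρ : V → ℝ), (∀ v, 0 ≤ ρ v) → av ρ = 1 →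
    (∑ x, ∑ y, ∑ z, χ (s x) (s y) (s z))
      + 3 * m * (∑ x, ∑ y, av fun v => ρ v * χ (s x) (s y) v)
      + 3 * m * (m - 1) * (∑ x, av fun v => av fun w => ρ v * ρ w * χ (s x) v w)
      + m * (m - 1) * (m - 2) * (av fun u => av fun v => av fun w => ρ u * ρ v * ρ w * χ u v w) ≤ M

/-- REG: the degrees are nearly equal. -/
def S_REG : Prop :=
  ∀ (V : Type) [Fintype V] [Nonempty V] (χ : V → V → V → ℝ), Ker χ → ∀ p : ℝ,
    (∀ ρ : V → ℝ, (∀ v, 0 ≤ ρ v) → av ρ = 1 → (av fun u => av fun v => av fun w => ρ u * ρ v * ρ w * χ u v w) ≤ p) →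
    vard χ ≤ 2 * (p - dens χ)

/-- A: a gain from the variance of the codegrees. -/
def S_A : Prop :=
  ∀ (V : Type) [Fintype V] [Nonempty V] (χ : V → V → V → ℝ), Ker χ → ∀ (k m : ℕ) (M : ℝ), Bd χ (k + m) M →
    ∀ τ : ℝ, 0 ≤ τ →
    dens χ * ((k + m) * (k + m - 1) * (k + m - 2))
      + 3 / 2 * m * (12 * τ * k * (k - 1) ^ 2 * (varc χ - 2 * vard χ) - 192 * τ ^ 3 * k ^ 6)
      - 3 * m ^ 2 * (k + m) ≤ M

/-- B: a gain if the codegrees are nearly equal. -/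
def S_B : Prop :=
  ∀ (V : Type) [Fintype V] [Nonempty V] (χ : V → V → V → ℝ), Ker χ → ∀ (k m : ℕ) (M : ℝ), 0 < k →
    Bd χ (2 * k + m) M → ∀ θ : ℝ, 0 ≤ θ →
    dens χ * ((2 * k + m) * (2 * k + m - 1) * (2 * k + m - 2))
      + 3 / 4 * m * k * (θ * (dens χ * (1 - dens χ) - 6 * varc χ) - 4608 * θ ^ 3)
      - 6 * m ^ 2 * (k * √(varc χ) + 16 * θ ^ 2) - 3 * m ^ 3 * √(varc χ) ≤ M

/-- FIN: the conclusion from A and B. `t n` is the Turán number, `a` the Turán density, `p N`, `v N`, `w N` are the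
density and the variances of the codegrees and degrees of an extremal 3-graph on `N` vertices. -/
def S_FIN : Prop :=
  ∀ (t : ℕ → ℝ) (a : ℝ), 0 < a → a < 1 → ∀ p v w : ℕ → ℝ,
    Filter.Tendsto p Filter.atTop (nhds a) → (∀ N, p N ≤ a) → (∀ N, 0 ≤ v N) → (∀ N, 0 ≤ w N) →
    (∀ N, 1 ≤ N → w N ≤ 2 * (a - p N)) →
    (∀ N k m : ℕ, 1 ≤ N → ∀ τ : ℝ, 0 ≤ τ →
      p N * (((k : ℝ) + m) * (k + m - 1) * (k + m - 2))
        + 3 / 2 * m * (12 * τ * k * (k - 1) ^ 2 * (v N - 2 * w N) - 192 * τ ^ 3 * k ^ 6)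
        - 3 * m ^ 2 * (k + m) ≤ 6 * t (k + m)) →
    (∀ N k m : ℕ, 1 ≤ N → 1 ≤ k → ∀ θ : ℝ, 0 ≤ θ →
      p N * ((2 * (k : ℝ) + m) * (2 * k + m - 1) * (2 * k + m - 2))
        + 3 / 4 * m * k * (θ * (p N * (1 - p N) - 6 * v N) - 4608 * θ ^ 3)
        - 6 * m ^ 2 * (k * √(v N) + 16 * θ ^ 2) - 3 * m ^ 3 * √(v N) ≤ 6 * t (2 * k + m)) →
    ∃ c : ℝ, 0 < c ∧ ∃ n₀ : ℕ, ∀ n ≥ n₀, a * ((n : ℝ) * (n - 1) * (n - 2)) + c * (n : ℝ) ^ 2 ≤ 6 * t n

/-! ### Classes of 3-graphs -/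

/-- The preimage of a 3-graph: the triples which are mapped onto an edge. -/
def pull {n m : ℕ} (H : Finset (Finset (Fin n))) (φ : Fin m → Fin n) : Finset (Finset (Fin m)) :=
  ((univ : Finset (Fin m)).powersetCard 3).filter fun e => e.image φ ∈ H

/-- A class of 3-graphs that is closed under preimages (in other words: under blow-ups and induced subgraphs). -/
structure Cls (P : ∀ n : ℕ, Finset (Finset (Fin n)) → Prop) : Prop where
  uni : ∀ (n : ℕ) (H : Finset (Finset (Fin n))), P n H → ∀ e ∈ H, e.card = 3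
  pull : ∀ (n m : ℕ) (φ : Fin m → Fin n) (H : Finset (Finset (Fin n))), P n H → P m (pull H φ)

/-- The maximum number of edges of a 3-graph of the class on `n` vertices. -/
noncomputable def exP (P : ∀ n : ℕ, Finset (Finset (Fin n)) → Prop) (n : ℕ) : ℕ :=
  sSup {m : ℕ | ∃ H : Finset (Finset (Fin n)), P n H ∧ H.card = m}

/-- `H` is a 3-graph on `Fin n` without `r` vertices all of whose triples are edges. -/
def Free (r n : ℕ) (H : Finset (Finset (Fin n))) : Prop :=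
  (∀ e ∈ H, e.card = 3) ∧ ∀ S : Finset (Fin n), S.card = r → ∃ e ⊆ S, e.card = 3 ∧ e ∉ H

/-- CLS: the theorem for classes closed under preimages -/
def S_CLS : Prop :=
  ∀ P : (∀ n : ℕ, Finset (Finset (Fin n)) → Prop), Cls P → ∀ a : ℝ, 0 < a → a < 1 →
    Filter.Tendsto (fun n : ℕ => (exP P n : ℝ) / (n.choose 3 : ℝ)) Filter.atTop (nhds a) →
    ∃ c : ℝ, 0 < c ∧ ∀ n : ℕ, 3 ≤ n → a + c / n ≤ (exP P n : ℝ) / (n.choose 3 : ℝ) ∧
      (exP P n : ℝ) / (n.choose 3 : ℝ) ≤ a + 11 / n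

/-- KR: the class of `K_r^3`-free 3-graphs has a density strictly between 0 and 1. -/
def S_KR : Prop :=
  ∀ r : ℕ, 4 ≤ r → Cls (Free r) ∧ ∃ a : ℝ, 0 < a ∧ a < 1 ∧
    Filter.Tendsto (fun n : ℕ => (exP (Free r) n : ℝ) / (n.choose 3 : ℝ)) Filter.atTop (nhds a)

/-- The least number of triples of `n` points such that every `r` points contain one of the triples. -/
noncomputable def cov (r n : ℕ) : ℕ :=
  sInf {m : ℕ | ∃ T : Finset (Finset (Fin n)), (∀ e ∈ T, e.card = 3) ∧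
    (∀ S : Finset (Fin n), S.card = r → ∃ e ∈ T, e ⊆ S) ∧ T.card = m}

/-- COV: coverings and `K_r^3`-free 3-graphs are complementary -/
def S_COV : Prop := ∀ r n : ℕ, 3 ≤ r → cov r n + exP (Free r) n = n.choose 3

end Pool.Agent.H70.RC
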